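import Mathlib
import Pool.Agent.Lib.H13Y.GN6b
import Pool.Agent.Lib.H13Y.GN7c
import Pool.Agent.Lib.H13Y.GN1

/-! # H19C: units outside a finite set of primes; functionals (port of H13Y/GN7c, GN6b) -/

open NumberField IsDedekindDomain

namespace H19C

open H55B H55R H28G H99B
open H13Y (guN guN_apply ord_guN gn7c_above gn7c_ord exists_zQ dir_rel places_bij gn6b_F gn6b_add gn6b_equiv gn6b_cpx)

section

variable {N : Type} [Field N] [NumberField N]

/-- The units of L outside the primes above S. -/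
def SUs (L : Type) [Field L] [NumberField L] [Algebra N L] (S : Finset (Pl N)) : Subgroup Lˣ where
  carrier := {x | ∀ v : Pl L, v.under (𝓞 N) ∉ S → ord v x = 0}
  mul_mem' := fun {x y} hx hy v hv => by
    rw [ord_mul, hx v hv, hy v hv, add_zero]
  one_mem' := fun v _ => ord_one v
  inv_mem' := fun {x} hx v hv => by
    rw [ord_inv, hx v hv, neg_zero]

variable {L : Type} [Field L] [NumberField L] [Algebra N L]

theorem mem_SUs {S : Finset (Pl N)} {x : Lˣ} : x ∈ SUs L S ↔ ∀ v : Pl L, v.under (𝓞 N) ∉ S → ord v x = 0 := Iff.rfl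

theorem SUs_act {S : Finset (Pl N)} (σ : Gal(L/N)) {x : Lˣ} (hx : x ∈ SUs L S) : guN σ x ∈ SUs L S := by
  intro v hv
  rw [ord_guN]
  exact hx _ (by rwa [under_smulP])

/-- An l-th power in Lˣ of an element of SUs is the l-th power of an element of SUs. -/
theorem SUs_pow {S : Finset (Pl N)} {l : ℕ} (hl : l ≠ 0) {x z : Lˣ} (hx : x ∈ SUs L S) (h : x = z ^ l) : z ∈ SUs L S := by
  intro v hv
  have h1 := hx v hv
  rw [h, ← zpow_natCast, ord_zpow, mul_eq_zero] at h1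
  rcases h1 with h1 | h1
  · exact absurd (by exact_mod_cast h1) hl
  · exact h1

theorem SUs_fg (S : Finset (Pl N)) :
    ∃ (h : ℕ) (B : Subgroup Lˣ), h ≠ 0 ∧ B.FG ∧ B ≤ SUs L S ∧ ∀ x ∈ SUs L S, x ^ h ∈ B := by
  classical
  have hfin : {W : Pl L | W.under (𝓞 N) ∈ S}.Finite := by
    have h1 : {W : Pl L | W.under (𝓞 N) ∈ S} = ⋃ w ∈ S, {W : Pl L | W.under (𝓞 N) = w} := by
      ext W
      simp
    rw [h1]
    exact Set.Finite.biUnion S.finite_toSet fun w _ => gn7c_above w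
  set T : Finset (Pl L) := hfin.toFinset with hT
  have hmT : ∀ W : Pl L, W ∈ T ↔ W.under (𝓞 N) ∈ S := fun W => by simp [hT]
  choose hh z hz0 hz1 hz2 using fun Q : Pl L => exists_zQ Q
  let U : Subgroup Lˣ := (Units.map (algebraMap (𝓞 L) L : 𝓞 L →* L)).range
  have hUfg : U.FG := by
    rw [← Group.fg_iff_subgroup_fg]
    have h1 : Group.FG (𝓞 L)ˣ := Group.fg_iff_monoid_fg.2 inferInstance
    exact Group.fg_of_surjective (f := (Units.map (algebraMap (𝓞 L) L : 𝓞 L →* L)).rangeRestrict)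
      (MonoidHom.rangeRestrict_surjective _)
  let C : Subgroup Lˣ := Subgroup.closure (T.image z : Set Lˣ)
  have hCfg : C.FG := ⟨T.image z, rfl⟩
  refine ⟨∏ Q ∈ T, hh Q, U ⊔ C, Finset.prod_ne_zero_iff.2 fun Q _ => hz0 Q, hUfg.sup hCfg, ?_, ?_⟩
  · apply sup_le
    · rintro _ ⟨u, rfl⟩ v _
      exact HA7_ord_unit u v
    · rw [Subgroup.closure_le]
      intro y hy
      rw [Finset.mem_coe, Finset.mem_image] at hy
      obtain ⟨Q, hQ, rfl⟩ := hy
      intro v hv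
      apply hz2 Q v
      rintro rfl
      exact hv ((hmT v).1 hQ)
  · intro x hx
    let k : Pl L → ℤ := fun Q => ord Q x * ∏ P ∈ T.erase Q, (hh P : ℤ)
    have hu : ∀ v : Pl L, ord v (x ^ (∏ Q ∈ T, hh Q) * (∏ Q ∈ T, z Q ^ (k Q))⁻¹) = 0 := by
      intro v
      have e1 := gn7c_ord T z k v
      have e2 : ord v (x ^ (∏ Q ∈ T, hh Q)) = ((∏ Q ∈ T, hh Q : ℕ) : ℤ) * ord v x := by
        rw [← zpow_natCast, ord_zpow]
      rw [ord_mul, ord_inv, e1, e2]
      by_cases hv : v ∈ T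
      · rw [Finset.sum_eq_single_of_mem v hv]
        · rw [hz1 v, ← Finset.mul_prod_erase T hh hv]
          simp only [k]
          push_cast
          ring
        · intro Q _ hQv
          rw [hz2 Q v (Ne.symm hQv), mul_zero]
      · have h1 : ord v x = 0 := hx v (fun h => hv ((hmT v).2 h))
        rw [h1, mul_zero, zero_add, neg_eq_zero]
        apply Finset.sum_eq_zero
        intro Q hQ
        rw [hz2 Q v (fun h => hv (h ▸ hQ)), mul_zero]
    obtain ⟨u, hu'⟩ := HA7_unit _ hu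
    have hx2 : x ^ (∏ Q ∈ T, hh Q) = Units.map (algebraMap (𝓞 L) L : 𝓞 L →* L) u * ∏ Q ∈ T, z Q ^ (k Q) := by
      rw [hu', inv_mul_cancel_right]
    rw [hx2]
    apply Subgroup.mul_mem
    · exact Subgroup.mem_sup_left ⟨u, rfl⟩
    · apply Subgroup.mem_sup_right
      apply Subgroup.prod_mem
      intro Q hQ
      apply Subgroup.zpow_mem
      apply Subgroup.subset_closure
      rw [Finset.mem_coe]
      exact Finset.mem_image_of_mem z hQ

/-- The functionals. -/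
noncomputable def gsPsi (ω : Gal(L/N) →* ℂˣ) (u : InfinitePlace N → InfinitePlace L) (S : Finset (Pl N)) (Q : Pl N → Pl L) :
    InfinitePlace N ⊕ S → Lˣ → ℂ
  | Sum.inr w => gn6b_F ω (fun x => ((ord (Q w.1) x : ℤ) : ℂ))
  | Sum.inl v => gn6b_F ω (fun x => ((Real.log (u v (x : L)) : ℝ) : ℂ))

theorem gsPsi_add (ω : Gal(L/N) →* ℂˣ) (u : InfinitePlace N → InfinitePlace L) (S : Finset (Pl N)) (Q : Pl N → Pl L)
    (i : InfinitePlace N ⊕ S) (x y : Lˣ) :
    gsPsi ω u S Q i (x * y) = gsPsi ω u S Q i x + gsPsi ω u S Q i y := by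
  rcases i with v | w
  · refine gn6b_add ω (fun x => ((Real.log (u v (x : L)) : ℝ) : ℂ)) (fun x y => ?_) x y
    show ((Real.log (u v ((x * y : Lˣ) : L)) : ℝ) : ℂ) =
      ((Real.log (u v (x : L)) : ℝ) : ℂ) + ((Real.log (u v (y : L)) : ℝ) : ℂ)
    rw [Units.val_mul, map_mul, Real.log_mul (by simp) (by simp)]
    push_cast
    rfl
  · refine gn6b_add ω (fun x => ((ord (Q w.1) x : ℤ) : ℂ)) (fun x y => ?_) x y
    show ((ord (Q w.1) (x * y) : ℤ) : ℂ) = ((ord (Q w.1) x : ℤ) : ℂ) + ((ord (Q w.1) y : ℤ) : ℂ)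
    rw [ord_mul]
    push_cast
    rfl

theorem gsPsi_equiv (ω : Gal(L/N) →* ℂˣ) (u : InfinitePlace N → InfinitePlace L) (S : Finset (Pl N)) (Q : Pl N → Pl L)
    (i : InfinitePlace N ⊕ S) (g : Gal(L/N)) (x : Lˣ) :
    gsPsi ω u S Q i (guN g x) = (ω g : ℂ) * gsPsi ω u S Q i x := by
  rcases i with v | w
  · exact gn6b_equiv ω (fun x => ((Real.log (u v (x : L)) : ℝ) : ℂ)) g x
  · exact gn6b_equiv ω (fun x => ((ord (Q w.1) x : ℤ) : ℂ)) g x

theorem gs_inl [IsGalois N L] (hc : ∀ v : InfinitePlace N, v.IsComplex) (ω : Gal(L/N) →* ℂˣ)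
    (hω : ω ≠ 1) (u : InfinitePlace N → InfinitePlace L)
    (hu : Function.Bijective fun p : Gal(L/N) × InfinitePlace N =>
      (u p.2).comap ((p.1 : L ≃ₐ[N] L) : L →+* L))
    (S : Finset (Pl N)) (Q : Pl N → Pl L) (c : InfinitePlace N ⊕ S → ℂ)
    (h : ∀ x ∈ SUs L S, ∑ i, c i * gsPsi ω u S Q i x = 0) (v : InfinitePlace N) : c (Sum.inl v) = 0 := by
  let e : Gal(L/N) × InfinitePlace N ≃ InfinitePlace L := Equiv.ofBijective _ hu
  have he : ∀ p, e p = (u p.2).comap ((p.1 : L ≃ₐ[N] L) : L →+* L) := fun p => rfl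
  let b : InfinitePlace L → ℂ := fun w' => c (Sum.inl (e.symm w').2) * ((ω (e.symm w').1 : ℂ))⁻¹
  have hb : ∀ p, b (e p) = c (Sum.inl p.2) * ((ω p.1 : ℂ))⁻¹ := by
    intro p
    show c (Sum.inl (e.symm (e p)).2) * ((ω (e.symm (e p)).1 : ℂ))⁻¹ = _
    rw [Equiv.symm_apply_apply]
  have hrel : ∀ y : (𝓞 L)ˣ, ∑ w' : InfinitePlace L, b w' * (Real.log (w' ((y : 𝓞 L) : L)) : ℂ) = 0 := by
    intro y
    set x : Lˣ := Units.map (algebraMap (𝓞 L) L : 𝓞 L →* L) y with hx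
    have hxv : (x : L) = ((y : 𝓞 L) : L) := rfl
    have hord : ∀ v : Pl L, ord v x = 0 := HA7_ord_unit y
    have h1 := h x (fun v _ => hord v)
    rw [Fintype.sum_sum_type] at h1
    have h2 : ∑ w : S, c (Sum.inr w) * gsPsi ω u S Q (Sum.inr w) x = 0 := by
      refine Finset.sum_eq_zero fun w _ => ?_
      have h3 : gsPsi ω u S Q (Sum.inr w) x = 0 := by
        show ∑ σ : Gal(L/N), ((ω σ : ℂ))⁻¹ * ((ord (Q w.1) (guN σ x) : ℤ) : ℂ) = 0
        refine Finset.sum_eq_zero fun σ _ => ?_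
        rw [ord_guN, hord]
        simp
      rw [h3, mul_zero]
    rw [h2, add_zero] at h1
    rw [← h1, ← Equiv.sum_comp e, Fintype.sum_prod_type_right]
    refine Finset.sum_congr rfl fun v' _ => ?_
    show _ = c (Sum.inl v') * ∑ σ : Gal(L/N), ((ω σ : ℂ))⁻¹ * ((Real.log (u v' (guN σ x : Lˣ)) : ℝ) : ℂ)
    rw [Finset.mul_sum]
    refine Finset.sum_congr rfl fun σ _ => ?_
    rw [hb (σ, v'), mul_assoc]
    rfl
  have hconst := dir_rel (gn6b_cpx hc) b hrel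
  obtain ⟨g, hg⟩ : ∃ g, ω g ≠ 1 := by
    by_contra hh
    push Not at hh
    exact hω (MonoidHom.ext hh)
  have h3 := hconst (e (1, v)) (e (g, v))
  rw [hb, hb] at h3
  by_contra hcv
  have h4 := mul_left_cancel₀ hcv h3
  apply hg
  rw [map_one, Units.val_one, inv_one] at h4
  have h5 : (ω g : ℂ) = 1 := by
    rw [eq_comm, inv_eq_one] at h4
    exact h4
  exact Units.ext h5

theorem gs_inr (ω : Gal(L/N) →* ℂˣ) (u : InfinitePlace N → InfinitePlace L)
    (S : Finset (Pl N)) (Q : Pl N → Pl L) (hQ : ∀ w ∈ S, (Q w).under (𝓞 N) = w)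
    (hst : ∀ w ∈ S, ∀ σ : Gal(L/N), smulP σ (Q w) = Q w → σ = 1)
    (c : InfinitePlace N ⊕ S → ℂ)
    (h : ∀ x ∈ SUs L S, ∑ i, c i * gsPsi ω u S Q i x = 0) (hv : ∀ v, c (Sum.inl v) = 0) (w : S) : c (Sum.inr w) = 0 := by
  obtain ⟨m, z, hm, hz, hz2⟩ := exists_zQ (Q w.1)
  have h1 := h z (fun v hv' => hz2 v (by rintro rfl; exact hv' (by rw [hQ w.1 w.2]; exact w.2)))
  rw [Fintype.sum_sum_type] at h1
  have h2 : ∑ v : InfinitePlace N, c (Sum.inl v) * gsPsi ω u S Q (Sum.inl v) z = 0 :=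
    Finset.sum_eq_zero fun v _ => by rw [hv, zero_mul]
  rw [h2, zero_add] at h1
  have h0 : ∀ w' : S, w' ≠ w → gsPsi ω u S Q (Sum.inr w') z = 0 := by
    intro w' hw'
    show ∑ σ : Gal(L/N), ((ω σ : ℂ))⁻¹ * ((ord (Q w'.1) (guN σ z) : ℤ) : ℂ) = 0
    refine Finset.sum_eq_zero fun σ _ => ?_
    rw [ord_guN, hz2 _ (fun h4 => hw' (Subtype.ext ?_))]
    · simp
    · rw [← hQ w'.1 w'.2, ← hQ w.1 w.2, ← h4, under_smulP]
  rw [Finset.sum_eq_single w (fun w' _ hw' => by rw [h0 w' hw', mul_zero]) (fun h => absurd (Finset.mem_univ _) h)] at h1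
  have h3 : gsPsi ω u S Q (Sum.inr w) z = (m : ℂ) := by
    show ∑ σ : Gal(L/N), ((ω σ : ℂ))⁻¹ * ((ord (Q w.1) (guN σ z) : ℤ) : ℂ) = _
    rw [Finset.sum_eq_single 1]
    · rw [ord_guN, inv_one, smulP_one, hz, map_one, Units.val_one, inv_one, one_mul]
      push_cast
      rfl
    · intro σ _ hσ
      rw [ord_guN, hz2 _ (fun h4 => hσ (inv_eq_one.1 (hst w.1 w.2 _ h4)))]
      simp
    · intro h4
      exact absurd (Finset.mem_univ _) h4
  rw [h3] at h1
  rcases mul_eq_zero.1 h1 with h4 | h4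
  · exact h4
  · exact absurd (Nat.cast_eq_zero.1 h4) hm

/-- The functionals on the units outside S: one for each infinite place and one for each prime of S whose decomposition group in L/N is
trivial; they are independent. -/
theorem exists_psiS [IsGalois N L] (hc : ∀ v : InfinitePlace N, v.IsComplex) (ω : Gal(L/N) →* ℂˣ) (hω : ω ≠ 1)
    (S : Finset (Pl N)) (hst : ∀ w ∈ S, ∀ Q : Pl L, Q.under (𝓞 N) = w → ∀ σ : Gal(L/N), smulP σ Q = Q → σ = 1) :
    ∃ ψ : InfinitePlace N ⊕ S → Lˣ → ℂ,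
      (∀ i x y, ψ i (x * y) = ψ i x + ψ i y) ∧
      (∀ i (g : Gal(L/N)) x, ψ i (guN g x) = (ω g : ℂ) * ψ i x) ∧
      ∀ c : InfinitePlace N ⊕ S → ℂ, (∀ x ∈ SUs L S, ∑ i, c i * ψ i x = 0) → c = 0 := by
  obtain ⟨u, hu⟩ := places_bij (L := L) hc
  choose Q hQ using fun w : Pl N => under_exists (L := L) w
  refine ⟨gsPsi ω u S Q, gsPsi_add ω u S Q, gsPsi_equiv ω u S Q, fun c h => ?_⟩
  have hv := gs_inl hc ω hω u hu S Q c h
  funext i
  rcases i with v | w
  · exact hv v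
  · exact gs_inr ω u S Q (fun w _ => hQ w) (fun w hw => hst w hw (Q w) (hQ w)) c h hv w

end

end H19C
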