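import Mathlib
import Pool.Agent.Lib.H13Y.GN3
import Pool.Agent.Lib.H19C.GS

/-! # H19C: the counting argument for units (port of H13Y/GN3) -/

open NumberField IsDedekindDomain

namespace H19C

open H99B
open H13Y (val_le_one_of_stable)

/-- The counting argument (port of H13Y.gn_alg: a field with p elements, χ not necessarily surjective, f additive only). -/
theorem gn_alg2 {l : ℕ} [Fact l.Prime] {G : Type} [Group G] [Fintype G] (χ : G →* (ZMod l)ˣ)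
    (hG : ((Fintype.card G : ℕ) : ZMod l) ≠ 0) {M : Type} [CommGroup M] (ac : G →* Monoid.End M) (A : Subgroup M)
    (hA : ∀ g, ∀ x ∈ A, ac g x ∈ A) {Λ : Type} [AddCommGroup Λ] [Module (ZMod l) Λ] [Module.Finite (ZMod l) Λ]
    (f : M → Λ) (f1 : ∀ x ∈ A, ∀ y ∈ A, f (x * y) = f x + f y) {ι : Type} [Fintype ι]
    (hΛ : Module.finrank (ZMod l) Λ < Fintype.card ι) (V : ValuationSubring ℂ) (hV : V.valuation (l : ℂ) < 1)
    (ω : G →* ℂˣ)
    (hω : ∀ α : G → ℤ, chs χ α ≠ 0 → V.valuation (∑ g, (α g : ℂ) * (ω g : ℂ)) = 1)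
    (ψ : ι → M → ℂ) (p1 : ∀ i, ∀ x ∈ A, ∀ y ∈ A, ψ i (x * y) = ψ i x + ψ i y)
    (p2 : ∀ i g, ∀ x ∈ A, ψ i (ac g x) = (ω g : ℂ) * ψ i x)
    (p3 : ∀ c : ι → ℂ, (∀ x ∈ A, ∑ i, c i * ψ i x = 0) → c = 0)
    (hfg : ∃ (h : ℕ) (B : Subgroup M), h ≠ 0 ∧ B.FG ∧ B ≤ A ∧ ∀ x ∈ A, x ^ h ∈ B) :
    ∃ x ∈ A, f x = 0 ∧ ∀ y ∈ A, pw ac (cf χ (AddMonoidHom.id (ZMod l)) 1) x ≠ y ^ l := by
  classical
  by_contra hcon
  push Not at hcon
  -- the unit ω(M)
  have hch : chs χ (cf χ (AddMonoidHom.id (ZMod l)) 1) = ((Fintype.card G : ℕ) : ZMod l) := by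
    have hne : NeZero l := ⟨(Fact.out : l.Prime).ne_zero⟩
    unfold chs cf
    have h1 : ∀ g : G, ((((AddMonoidHom.id (ZMod l)) (1 * (((χ g)⁻¹ : (ZMod l)ˣ) : ZMod l))).val : ℤ) : ZMod l) *
        ((χ g : (ZMod l)ˣ) : ZMod l) = 1 := by
      intro g
      rw [AddMonoidHom.id_apply, one_mul, Int.cast_natCast, ZMod.natCast_zmod_val]
      exact Units.inv_mul (χ g)
    rw [Finset.sum_congr rfl fun g _ => h1 g, Finset.sum_const, Finset.card_univ, nsmul_eq_mul, mul_one]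
  set wM : ℂ := ∑ g, (cf χ (AddMonoidHom.id (ZMod l)) 1 g : ℂ) * (ω g : ℂ) with hwM
  have hwM1 : V.valuation wM = 1 := hω _ (by rw [hch]; exact hG)
  -- f as a homomorphism
  let fA : A →* Multiplicative Λ :=
    MonoidHom.mk' (fun x => Multiplicative.ofAdd (f x)) fun x y => by
      show Multiplicative.ofAdd (f (x * y)) = _
      rw [f1 _ x.2 _ y.2]; rfl
  have hfA : ∀ x : A, f x = Multiplicative.toAdd (fA x) := fun _ => rfl
  -- spanning elements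
  obtain ⟨d, v, y, hd, hv2, hy1, hy2⟩ : ∃ (d : ℕ) (v : Fin d → Λ) (y : Fin d → M),
      d < Module.finrank ℂ (ι → ℂ) ∧ Submodule.span (ZMod l) (Set.range v) = Submodule.span (ZMod l) (f '' A) ∧
      (∀ j, y j ∈ A) ∧ ∀ j, f (y j) = v j := by
    obtain ⟨v, hv1, hv2, -⟩ := Submodule.exists_fun_fin_finrank_span_eq (ZMod l) (f '' A)
    choose y hy1 hy2 using hv1
    refine ⟨_, v, y, ?_, hv2, hy1, hy2⟩
    rw [Module.finrank_fintype_fun_eq_card]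
    exact lt_of_le_of_lt (Submodule.finrank_le _) hΛ
  let T : (ι → ℂ) →ₗ[ℂ] (Fin d → ℂ) :=
    { toFun := fun c j => ∑ i, c i * ψ i (y j)
      map_add' := by
        intro c c'
        funext j
        simp only [Pi.add_apply, add_mul, Finset.sum_add_distrib]
      map_smul' := by
        intro r c
        funext j
        simp only [Pi.smul_apply, smul_eq_mul, RingHom.id_apply, Finset.mul_sum, mul_assoc] }
  have hT : LinearMap.ker T ≠ ⊥ := by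
    refine LinearMap.ker_ne_bot_of_finrank_lt ?_
    rw [Module.finrank_fin_fun]
    exact hd
  obtain ⟨c, hcT, hc0⟩ := Submodule.exists_mem_ne_zero_of_ne_bot hT
  have hcy : ∀ j, ∑ i, c i * ψ i (y j) = 0 := fun j => congrFun (LinearMap.mem_ker.1 hcT) j
  -- the function Ψ
  let Ψ : M → ℂ := fun x => ∑ i, c i * ψ i x
  have hΨ1 : ∀ x ∈ A, ∀ y ∈ A, Ψ (x * y) = Ψ x + Ψ y := by
    intro x hx y hy
    show ∑ i, c i * ψ i (x * y) = ∑ i, c i * ψ i x + ∑ i, c i * ψ i y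
    rw [← Finset.sum_add_distrib]
    refine Finset.sum_congr rfl fun i _ => ?_
    rw [p1 i x hx y hy, mul_add]
  have hΨ2 : ∀ g, ∀ x ∈ A, Ψ (ac g x) = (ω g : ℂ) * Ψ x := by
    intro g x hx
    show ∑ i, c i * ψ i (ac g x) = (ω g : ℂ) * ∑ i, c i * ψ i x
    rw [Finset.mul_sum]
    refine Finset.sum_congr rfl fun i _ => ?_
    rw [p2 i g x hx]
    ring
  let ΨA : A →* Multiplicative ℂ :=
    MonoidHom.mk' (fun x => Multiplicative.ofAdd (Ψ x)) fun x y => by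
      show Multiplicative.ofAdd (Ψ (x * y)) = _
      rw [hΨ1 _ x.2 _ y.2]; rfl
  have hΨA : ∀ x : A, Ψ x = Multiplicative.toAdd (ΨA x) := fun _ => rfl
  have hΨpow : ∀ x ∈ A, ∀ n : ℕ, Ψ (x ^ n) = n * Ψ x := by
    intro x hx n
    have h1 := hΨA ((⟨x, hx⟩ : A) ^ n)
    rw [map_pow, toAdd_pow, ← hΨA] at h1
    rw [← nsmul_eq_mul]
    exact h1
  have hΨinv : ∀ x ∈ A, Ψ x⁻¹ = -Ψ x := by
    intro x hx
    have h1 := hΨA ((⟨x, hx⟩ : A)⁻¹)
    rw [map_inv, toAdd_inv, ← hΨA] at h1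
    exact h1
  have hpwA : ∀ x ∈ A, pw ac (cf χ (AddMonoidHom.id (ZMod l)) 1) x ∈ A := fun x hx =>
    Subgroup.prod_mem _ fun g _ => Subgroup.zpow_mem _ (hA g x hx) _
  have hΨpw : ∀ x ∈ A, Ψ (pw ac (cf χ (AddMonoidHom.id (ZMod l)) 1) x) = wM * Ψ x := by
    intro x hx
    have h1 : (⟨pw ac (cf χ (AddMonoidHom.id (ZMod l)) 1) x, hpwA x hx⟩ : A) =
        ∏ g, (⟨ac g x, hA g x hx⟩ : A) ^ (cf χ (AddMonoidHom.id (ZMod l)) 1 g) := by
      apply Subtype.ext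
      rw [Subgroup.val_finsetProd]
      rfl
    have h2 : Ψ (pw ac (cf χ (AddMonoidHom.id (ZMod l)) 1) x) = Multiplicative.toAdd (ΨA (∏ g, (⟨ac g x, hA g x hx⟩ : A) ^ (cf χ (AddMonoidHom.id (ZMod l)) 1 g))) := by
      rw [← h1]; rfl
    rw [map_prod, toAdd_prod] at h2
    refine h2.trans ?_
    rw [hwM, Finset.sum_mul]
    refine Finset.sum_congr rfl fun g _ => ?_
    rw [map_zpow, toAdd_zpow, ← hΨA, zsmul_eq_mul, hΨ2 g x hx, mul_assoc]
  -- the key claim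
  have key : ∀ x ∈ A, ∃ x' ∈ A, f x' = 0 ∧ Ψ x' = Ψ x := by
    intro x hx
    have h1 : f x ∈ Submodule.span (ZMod l) (Set.range v) := by
      rw [hv2]
      exact Submodule.subset_span ⟨x, hx, rfl⟩
    obtain ⟨a, ha⟩ := (Submodule.mem_span_range_iff_exists_fun (ZMod l)).1 h1
    have h2 : ∀ j, ∃ u ∈ A, f u = a j • v j ∧ Ψ u = 0 := by
      intro j
      have hne : NeZero l := ⟨(Fact.out : l.Prime).ne_zero⟩
      refine ⟨y j ^ (a j).val, A.pow_mem (hy1 j) _, ?_, ?_⟩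
      · have h5 := hfA ((⟨y j, hy1 j⟩ : A) ^ (a j).val)
        rw [map_pow, toAdd_pow, ← hfA] at h5
        have h6 : f (y j ^ (a j).val) = (a j).val • f (y j) := h5
        rw [h6, hy2, ← Nat.cast_smul_eq_nsmul (ZMod l), ZMod.natCast_zmod_val]
      · rw [hΨpow _ (hy1 j)]
        show _ * ∑ i, c i * ψ i (y j) = 0
        rw [hcy, mul_zero]
    choose u hu1 hu2 hu3 using h2
    have h3 : Ψ (∏ j, u j) = 0 ∧ f (∏ j, u j) = f x := by
      have h4 : (⟨∏ j, u j, Subgroup.prod_mem _ fun j _ => hu1 j⟩ : A) = ∏ j, (⟨u j, hu1 j⟩ : A) := by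
        apply Subtype.ext
        rw [Subgroup.val_finsetProd]
      constructor
      · have h5 : Ψ (∏ j, u j) = Multiplicative.toAdd (ΨA (∏ j, (⟨u j, hu1 j⟩ : A))) := by
          rw [← h4]; rfl
        rw [map_prod, toAdd_prod] at h5
        refine h5.trans (Finset.sum_eq_zero fun j _ => ?_)
        rw [← hΨA]
        exact hu3 j
      · have h5 : f (∏ j, u j) = Multiplicative.toAdd (fA (∏ j, (⟨u j, hu1 j⟩ : A))) := by
          rw [← h4]; rfl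
        rw [map_prod, toAdd_prod] at h5
        refine h5.trans ?_
        rw [← ha]
        refine Finset.sum_congr rfl fun j _ => ?_
        rw [← hfA]
        exact hu2 j
    have hPA : ∏ j, u j ∈ A := Subgroup.prod_mem _ fun j _ => hu1 j
    refine ⟨x * (∏ j, u j)⁻¹, A.mul_mem hx (A.inv_mem hPA), ?_, ?_⟩
    · rw [f1 _ hx _ (A.inv_mem hPA)]
      have h6 := hfA ((⟨∏ j, u j, hPA⟩ : A)⁻¹)
      rw [map_inv, toAdd_inv, ← hfA] at h6
      have h7 : f (∏ j, u j)⁻¹ = -f (∏ j, u j) := h6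
      rw [h7, h3.2, add_neg_cancel]
    · rw [hΨ1 _ hx _ (A.inv_mem hPA), hΨinv _ hPA, h3.1, neg_zero, add_zero]
  -- stability
  have hl0 : (l : ℂ) ≠ 0 := Nat.cast_ne_zero.2 (Fact.out : l.Prime).ne_zero
  have hst : ∀ x ∈ A, ∃ z ∈ A, wM / l * Ψ x = Ψ z := by
    intro x hx
    obtain ⟨x', hx', hf0, hΨx⟩ := key x hx
    obtain ⟨z, hz, hzp⟩ := hcon x' hx' hf0
    refine ⟨z, hz, ?_⟩
    have h1 := hΨpw x' hx'
    rw [hzp, hΨpow z hz l, hΨx] at h1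
    field_simp
    linear_combination -h1
  -- the group
  let N : Submodule ℤ ℂ :=
    { carrier := {z | ∃ x ∈ A, Ψ x = z}
      add_mem' := by
        rintro _ _ ⟨x, hx, rfl⟩ ⟨x', hx', rfl⟩
        exact ⟨x * x', A.mul_mem hx hx', hΨ1 x hx x' hx'⟩
      zero_mem' := by
        refine ⟨1, A.one_mem, ?_⟩
        have := hΨA 1
        rw [map_one] at this
        exact this
      smul_mem' := by
        rintro n _ ⟨x, hx, rfl⟩
        refine ⟨x ^ n, A.zpow_mem hx n, ?_⟩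
        have h1 := hΨA ((⟨x, hx⟩ : A) ^ n)
        rw [map_zpow, toAdd_zpow, ← hΨA] at h1
        exact h1 }
  have hN0 : N ≠ ⊥ := by
    intro h
    apply hc0
    apply p3
    intro x hx
    have h1 : Ψ x ∈ N := ⟨x, hx, rfl⟩
    rw [h, Submodule.mem_bot] at h1
    exact h1
  have hNfg : N.FG := by
    obtain ⟨h, B, hh0, ⟨S, hS⟩, hBA, hpow⟩ := hfg
    let NB : Submodule ℤ ℂ := Submodule.span ℤ (Ψ '' (S : Set M))
    have hNB : NB.FG := Submodule.fg_span (S.finite_toSet.image _)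
    have hBN : ∀ x ∈ B, x ∈ A ∧ Ψ x ∈ NB := by
      intro x hx
      rw [← hS] at hx
      induction hx using Subgroup.closure_induction with
      | mem x hx =>
        refine ⟨hBA ?_, Submodule.subset_span ⟨x, hx, rfl⟩⟩
        rw [← hS]
        exact Subgroup.subset_closure hx
      | one =>
        refine ⟨A.one_mem, ?_⟩
        have := hΨA 1
        rw [map_one] at this
        have h2 : Ψ 1 = 0 := this
        rw [h2]
        exact NB.zero_mem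
      | mul x y _ _ hx hy => exact ⟨A.mul_mem hx.1 hy.1, by rw [hΨ1 x hx.1 y hy.1]; exact NB.add_mem hx.2 hy.2⟩
      | inv x _ hx => exact ⟨A.inv_mem hx.1, by rw [hΨinv x hx.1]; exact NB.neg_mem hx.2⟩
    let m1 : ℂ →ₗ[ℤ] ℂ := (LinearMap.mulLeft ℤ (h : ℂ))
    let m2 : ℂ →ₗ[ℤ] ℂ := (LinearMap.mulLeft ℤ ((h : ℂ)⁻¹))
    have h1 : N.map m1 ≤ NB := by
      rintro _ ⟨_, ⟨x, hx, rfl⟩, rfl⟩
      show (h : ℂ) * Ψ x ∈ NB
      rw [← hΨpow x hx h]
      exact (hBN _ (hpow x hx)).2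
    have hNoeth : IsNoetherian ℤ NB := isNoetherian_of_fg_of_noetherian NB hNB
    have h2 : (N.map m1).FG := isNoetherian_submodule.1 hNoeth _ h1
    have h3 : N = (N.map m1).map m2 := by
      rw [← Submodule.map_comp]
      have h4 : m2.comp m1 = LinearMap.id := by
        refine LinearMap.ext fun z => ?_
        show (h : ℂ)⁻¹ * ((h : ℂ) * z) = z
        rw [← mul_assoc, inv_mul_cancel₀ (Nat.cast_ne_zero.2 hh0), one_mul]
      rw [h4, Submodule.map_id]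
    rw [h3]
    exact h2.map _
  have hfin := val_le_one_of_stable V N.toAddSubgroup ((Submodule.fg_iff_addSubgroup_fg N).1 hNfg)
    (fun h => hN0 ((Submodule.eq_bot_iff N).2 fun x hx => by
      have h3 : x ∈ N.toAddSubgroup := hx
      rw [h] at h3
      exact AddSubgroup.mem_bot.1 h3)) (wM / l) (by
      rintro _ ⟨x, hx, rfl⟩
      obtain ⟨z, hz, hzz⟩ := hst x hx
      exact ⟨z, hz, hzz.symm⟩)
  have h1 : V.valuation (wM / l * l) < 1 := by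
    rw [map_mul]
    exact lt_of_le_of_lt (mul_le_of_le_one_left' hfin) hV
  rw [div_mul_cancel₀ _ hl0, hwM1] at h1
  exact lt_irrefl _ h1

theorem gc_card {l : ℕ} [Fact l.Prime] (Λ : Type) [AddCommGroup Λ] [Finite Λ] [Module (ZMod l) Λ] :
    Module.Finite (ZMod l) Λ ∧ Nat.card Λ = l ^ Module.finrank (ZMod l) Λ := by
  have h0 : Module.Finite (ZMod l) Λ := Module.Finite.of_finite
  refine ⟨h0, ?_⟩
  have h3 : Nat.card Λ = Nat.card (ZMod l) ^ Module.finrank (ZMod l) Λ := Module.natCard_eq_pow_finrank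
  rw [h3, Nat.card_zmod]

/-- The counting argument with values in a finite group killed by l. -/
theorem gn_fin {l : ℕ} [Fact l.Prime] {G : Type} [Group G] [Fintype G] (χ : G →* (ZMod l)ˣ)
    (hG : ((Fintype.card G : ℕ) : ZMod l) ≠ 0) {M : Type} [CommGroup M] (ac : G →* Monoid.End M) (A : Subgroup M)
    (hA : ∀ g, ∀ x ∈ A, ac g x ∈ A) (Λ : Type) [AddCommGroup Λ] [Finite Λ] (htor : ∀ x : Λ, l • x = 0)
    (f : M → Λ) (f1 : ∀ x ∈ A, ∀ y ∈ A, f (x * y) = f x + f y) {ι : Type} [Fintype ι]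
    (h1 : Nat.card Λ < l ^ Fintype.card ι) (V : ValuationSubring ℂ) (hV : V.valuation (l : ℂ) < 1)
    (ω : G →* ℂˣ)
    (hω : ∀ α : G → ℤ, chs χ α ≠ 0 → V.valuation (∑ g, (α g : ℂ) * (ω g : ℂ)) = 1)
    (ψ : ι → M → ℂ) (p1 : ∀ i, ∀ x ∈ A, ∀ y ∈ A, ψ i (x * y) = ψ i x + ψ i y)
    (p2 : ∀ i g, ∀ x ∈ A, ψ i (ac g x) = (ω g : ℂ) * ψ i x)
    (p3 : ∀ c : ι → ℂ, (∀ x ∈ A, ∑ i, c i * ψ i x = 0) → c = 0)
    (hfg : ∃ (h : ℕ) (B : Subgroup M), h ≠ 0 ∧ B.FG ∧ B ≤ A ∧ ∀ x ∈ A, x ^ h ∈ B) :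
    ∃ x ∈ A, f x = 0 ∧ ∀ y ∈ A, pw ac (cf χ (AddMonoidHom.id (ZMod l)) 1) x ≠ y ^ l := by
  letI : Module (ZMod l) Λ := AddCommGroup.zmodModule htor
  obtain ⟨hmf, hcard⟩ := gc_card (l := l) Λ
  rw [hcard] at h1
  have hlt : Module.finrank (ZMod l) Λ < Fintype.card ι := (Nat.pow_lt_pow_iff_right (Fact.out : l.Prime).one_lt).1 h1
  exact @gn_alg2 l _ G _ _ χ hG M _ ac A hA Λ _ _ hmf f f1 ι _ hlt V hV ω hω ψ p1 p2 p3 hfg

/-- The counting argument for a subgroup of finite index. -/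
theorem gn_sub {l : ℕ} [Fact l.Prime] {G : Type} [Group G] [Fintype G] (χ : G →* (ZMod l)ˣ)
    (hG : ((Fintype.card G : ℕ) : ZMod l) ≠ 0) {M : Type} [CommGroup M] (ac : G →* Monoid.End M) (A Y : Subgroup M)
    (hA : ∀ g, ∀ x ∈ A, ac g x ∈ A) (hY : ∀ x ∈ A, x ^ l ∈ Y) {ι : Type} [Fintype ι]
    (h0 : Y.relIndex A ≠ 0) (h1 : Y.relIndex A < l ^ Fintype.card ι) (V : ValuationSubring ℂ) (hV : V.valuation (l : ℂ) < 1)
    (ω : G →* ℂˣ)
    (hω : ∀ α : G → ℤ, chs χ α ≠ 0 → V.valuation (∑ g, (α g : ℂ) * (ω g : ℂ)) = 1)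
    (ψ : ι → M → ℂ) (p1 : ∀ i, ∀ x ∈ A, ∀ y ∈ A, ψ i (x * y) = ψ i x + ψ i y)
    (p2 : ∀ i g, ∀ x ∈ A, ψ i (ac g x) = (ω g : ℂ) * ψ i x)
    (p3 : ∀ c : ι → ℂ, (∀ x ∈ A, ∑ i, c i * ψ i x = 0) → c = 0)
    (hfg : ∃ (h : ℕ) (B : Subgroup M), h ≠ 0 ∧ B.FG ∧ B ≤ A ∧ ∀ x ∈ A, x ^ h ∈ B) :
    ∃ x ∈ A, x ∈ Y ∧ ∀ y ∈ A, pw ac (cf χ (AddMonoidHom.id (ZMod l)) 1) x ≠ y ^ l := by
  classical
  have hfi : (Y.subgroupOf A).FiniteIndex := ⟨h0⟩
  have hfin : Finite (A ⧸ Y.subgroupOf A) := Subgroup.finite_quotient_of_finiteIndex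
  let f : M → Additive (A ⧸ Y.subgroupOf A) :=
    fun x => if hx : x ∈ A then Additive.ofMul (QuotientGroup.mk (⟨x, hx⟩ : A)) else 0
  have hf : ∀ x (hx : x ∈ A), f x = Additive.ofMul (QuotientGroup.mk (⟨x, hx⟩ : A)) := fun x hx => dif_pos hx
  obtain ⟨x, hx, hfx, h2⟩ := gn_fin χ hG ac A hA (Additive (A ⧸ Y.subgroupOf A)) (by
    intro x
    obtain ⟨a, ha⟩ := QuotientGroup.mk_surjective (Additive.toMul x)
    have h2 : (QuotientGroup.mk a : A ⧸ Y.subgroupOf A) ^ l = 1 := by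
      rw [← QuotientGroup.mk_pow, QuotientGroup.eq_one_iff, Subgroup.mem_subgroupOf]
      exact hY a.1 a.2
    rw [ha] at h2
    exact h2) f (fun x hx y hy => by
    rw [hf x hx, hf y hy, hf _ (A.mul_mem hx hy)]
    rfl) (by exact h1) V hV ω hω ψ p1 p2 p3 hfg
  refine ⟨x, hx, ?_, h2⟩
  rw [hf x hx] at hfx
  have h3 : (QuotientGroup.mk (⟨x, hx⟩ : A) : A ⧸ Y.subgroupOf A) = 1 := hfx
  rw [QuotientGroup.eq_one_iff, Subgroup.mem_subgroupOf] at h3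
  exact h3

end H19C
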