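import Mathlib
import Pool.Agent.Lib.H19B.D

/-! # H19C: local classes with a tamely ramified eigenspace: definitions -/

open NumberField IsDedekindDomain WeierstrassCurve

namespace H19C

open H55P (Dec Inert)
open H19B (Rep zt)

/-- The data of a local situation: D is the decomposition group at V of a number field N; E and C are the subgroups of D fixing the points killed by a
prime number element and the p-torsion, et the character of D on these points; w is a uniformizer of the fixed field of E (tamely ramified over N), V(p) = V(w)^e;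
q is the number of elements of the residue field of N, φ a Frobenius element, Q an exponent for the residue field of E; ζ is a primitive p-th root of
unity, om the cyclotomic character modulo p; G are the levels at which the inertia group allows nonzero coefficients, b a bound for their number. -/
structure Frm (F Ω : Type) [Field F] [Field Ω] [Algebra F Ω] where
  p : ℕ
  q : ℕ
  e : ℕ
  b : ℕ
  Q : ℕ
  G : ℕ → Prop
  V : ValuationSubring Ω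
  D : Subgroup (Ω ≃ₐ[F] Ω)
  E : Subgroup (Ω ≃ₐ[F] Ω)
  C : Subgroup (Ω ≃ₐ[F] Ω)
  w : Ω
  φ : Ω ≃ₐ[F] Ω
  ζ : Ω
  om : (Ω ≃ₐ[F] Ω) → ZMod p
  et : (Ω ≃ₐ[F] Ω) → ZMod p

namespace Frm

variable {F : Type} [Field F] {Ω : Type} [Field Ω] [Algebra F Ω]

/-- The properties of the data. -/
structure Ok (X : Frm F Ω) : Prop where
  pr : X.p.Prime
  odd : 2 < X.p
  dec : ∀ s ∈ X.D, Dec X.V s
  inv : ∀ s ∈ X.D, ∀ x : Ω, X.V.valuation (s x) = X.V.valuation x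
  le1 : X.C ≤ X.E
  le2 : X.E ≤ X.D
  nrm1 : ∀ s ∈ X.D, ∀ t ∈ X.C, s⁻¹ * t * s ∈ X.C
  nrm2 : ∀ s ∈ X.D, ∀ t ∈ X.E, s⁻¹ * t * s ∈ X.E
  rep : ∃ S : Finset (Ω ≃ₐ[F] Ω), Rep X.C X.E S ∧ ¬ X.p ∣ S.card
  fw : ∀ s ∈ X.E, s X.w = X.w
  w0 : X.w ≠ 0
  w1 : X.V.valuation X.w < 1
  val : ∀ x : Ω, x ≠ 0 → (∀ s ∈ X.E, s x = x) → ∃ i : ℤ, X.V.valuation x = X.V.valuation X.w ^ i
  e0 : 0 < X.e
  ep : X.V.valuation (X.p : Ω) = X.V.valuation X.w ^ X.e
  q0 : 1 < X.q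
  Qp : X.p ∣ X.Q
  Q0 : 0 < X.Q
  res : ∀ x : Ω, X.V.valuation x ≤ 1 → (∀ s ∈ X.E, s x = x) → X.V.valuation (x ^ X.Q - x) < 1
  phi : X.φ ∈ X.D
  fro : ∀ x : Ω, X.V.valuation x ≤ 1 → X.V.valuation (X.φ x - x ^ X.q) < 1
  prim : IsPrimitiveRoot X.ζ X.p
  zD : ∀ s ∈ X.D, s X.ζ = zt X.ζ (X.om s)
  om1 : ∀ s ∈ X.C, X.om s = 1
  et1 : ∀ s ∈ X.E, X.et s = 1
  lev : ∀ i : ℕ, ¬ X.G i → ∃ s ∈ X.D, Inert X.V s ∧ X.V.valuation ((s X.w / X.w) ^ i - ((X.et s).val : Ω)) = 1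
  cnt : ∀ (k : ℕ) (S : Finset ℕ), k * (X.p - 1) < X.e * X.p → (∀ i ∈ S, i < k ∧ ¬ X.p ∣ i + 1 ∧ X.G (i + 1)) → S.card ≤ X.b

/-- a is a continuous homomorphism of C to the integers modulo p, with the action of D by conjugation twisted by et / om. -/
structure Tw (X : Frm F Ω) (a : (Ω ≃ₐ[F] Ω) → ZMod X.p) : Prop where
  add : ∀ s ∈ X.C, ∀ t ∈ X.C, a (s * t) = a s + a t
  tw : ∀ s ∈ X.D, ∀ t ∈ X.C, X.om s * a (s⁻¹ * t * s) = X.et s * a t
  cont : ∃ L : IntermediateField F Ω, FiniteDimensional F L ∧ ∀ s ∈ X.C, s ∈ L.fixingSubgroup → a s = 0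

/-- β is a Kummer generator for a. -/
structure Kg (X : Frm F Ω) (a : (Ω ≃ₐ[F] Ω) → ZMod X.p) (β : Ω) : Prop where
  ne : β ≠ 0
  fx : ∀ s ∈ X.E, s (β ^ X.p) = β ^ X.p
  ev : ∀ t ∈ X.C, t β = zt X.ζ (a t) * β

/-- The group of the twisted characters. -/
def TS (X : Frm F Ω) : AddSubgroup ((Ω ≃ₐ[F] Ω) → ZMod X.p) where
  carrier := {a | X.Tw a}
  zero_mem' := ⟨fun s _ t _ => by simp, fun s _ t _ => by simp, ⊥, inferInstance, fun s _ _ => rfl⟩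
  add_mem' := by
    rintro a b ⟨a1, a2, L, hL, a3⟩ ⟨b1, b2, L', hL', b3⟩
    refine ⟨fun s hs t ht => ?_, fun s hs t ht => ?_, L ⊔ L', IntermediateField.finiteDimensional_sup L L', fun s hs hs' => ?_⟩
    · rw [Pi.add_apply, Pi.add_apply, Pi.add_apply, a1 s hs t ht, b1 s hs t ht]
      ring
    · rw [Pi.add_apply, Pi.add_apply, mul_add, a2 s hs t ht, b2 s hs t ht, mul_add]
    · rw [IntermediateField.fixingSubgroup_sup] at hs'
      rw [Pi.add_apply, a3 s hs hs'.1, b3 s hs hs'.2, add_zero]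
  neg_mem' := by
    rintro a ⟨a1, a2, L, hL, a3⟩
    refine ⟨fun s hs t ht => ?_, fun s hs t ht => ?_, L, hL, fun s hs hs' => ?_⟩
    · rw [Pi.neg_apply, Pi.neg_apply, Pi.neg_apply, a1 s hs t ht]
      ring
    · rw [Pi.neg_apply, Pi.neg_apply, mul_neg, a2 s hs t ht, mul_neg]
    · rw [Pi.neg_apply, a3 s hs hs', neg_zero]

theorem mem_TS (X : Frm F Ω) (a : (Ω ≃ₐ[F] Ω) → ZMod X.p) : a ∈ X.TS ↔ X.Tw a := Iff.rfl

/-- The twisted characters which are trivial on the inertia group. -/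
def TI (X : Frm F Ω) : AddSubgroup ((Ω ≃ₐ[F] Ω) → ZMod X.p) where
  carrier := {a | X.Tw a ∧ ∀ t ∈ X.C, Inert X.V t → a t = 0}
  zero_mem' := ⟨X.TS.zero_mem, fun t _ _ => rfl⟩
  add_mem' := by
    rintro a b ⟨a1, a2⟩ ⟨b1, b2⟩
    exact ⟨X.TS.add_mem a1 b1, fun t ht hi => by rw [Pi.add_apply, a2 t ht hi, b2 t ht hi, add_zero]⟩
  neg_mem' := by
    rintro a ⟨a1, a2⟩
    exact ⟨X.TS.neg_mem a1, fun t ht hi => by rw [Pi.neg_apply, a2 t ht hi, neg_zero]⟩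

theorem mem_TI (X : Frm F Ω) (a : (Ω ≃ₐ[F] Ω) → ZMod X.p) : a ∈ X.TI ↔ X.Tw a ∧ ∀ t ∈ X.C, Inert X.V t → a t = 0 :=
  Iff.rfl

/-- a is a twisted character with a Kummer generator β such that V(β^p - 1) ≤ V(w)^(i+1). -/
structure Fl (X : Frm F Ω) (i : ℕ) (a : (Ω ≃ₐ[F] Ω) → ZMod X.p) : Prop where
  tw : X.Tw a
  ex : ∃ β : Ω, X.Kg a β ∧ X.V.valuation (β ^ X.p - 1) ≤ X.V.valuation X.w ^ (i + 1)

end Frm

end H19C
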