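import Mathlib
import Pool.Agent.Lib.H19C.D
import Pool.Agent.Lib.H19B.D2

/-! # H19C: definitions for the elliptic curves -/

open NumberField IsDedekindDomain WeierstrassCurve

namespace H19C

open H55P (IQ Pt ac Dec Inert decS)
open H35P (WAB Ker tt)
open H55K (Tor CMA Dta GV ak cj)
open H19B (DN Cc CS mem_CS)

variable {F : Type} [Field F] [NumberField F] [IQ F] {A B : F} {Ω : Type} [Field Ω] [DecidableEq Ω]
  [Algebra F Ω] {act : 𝓞 F →+* AddMonoid.End (Pt (WAB A B) Ω)}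

/-- The frame X belongs to the curve, the prime element π and the field N: E and C are the subgroups of D which fix the points
killed by the conjugate of π and by p, and D acts on the points killed by the conjugate of π through et, and on the points killed by π
through om / et. -/
structure Of (X : Frm F Ω) (act : 𝓞 F →+* AddMonoid.End (Pt (WAB A B) Ω)) (π : 𝓞 F) (N : IntermediateField F Ω) : Prop where
  ok : X.Ok
  D : X.D = DN N X.V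
  E : ∀ s : Ω ≃ₐ[F] Ω, s ∈ X.E ↔ s ∈ X.D ∧ ∀ T : Pt (WAB A B) Ω, act (cj π) T = 0 → ac (WAB A B) s T = T
  C : ∀ s : Ω ≃ₐ[F] Ω, s ∈ X.C ↔ s ∈ X.D ∧ ∀ T : Pt (WAB A B) Ω, X.p • T = 0 → ac (WAB A B) s T = T
  ch : ∀ s ∈ X.D, ∀ T : Pt (WAB A B) Ω, act π T = 0 → (X.et s).val • ac (WAB A B) s T = (X.om s).val • T
  ch' : ∀ s ∈ X.D, ∀ T : Pt (WAB A B) Ω, act (cj π) T = 0 → ac (WAB A B) s T = (X.et s).val • T

/-- The coboundaries of the points killed by π. -/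
def CB (D : Subgroup (Ω ≃ₐ[F] Ω)) (act : 𝓞 F →+* AddMonoid.End (Pt (WAB A B) Ω)) (π : 𝓞 F) :
    AddSubgroup ((Ω ≃ₐ[F] Ω) → Pt (WAB A B) Ω) where
  carrier := {c | Cc D act π c ∧ ∃ T : Pt (WAB A B) Ω, act π T = 0 ∧ ∀ s ∈ D, c s = ac (WAB A B) s T - T}
  zero_mem' := ⟨(CS D act π).zero_mem, 0, map_zero _, fun s _ => by rw [Pi.zero_apply, map_zero, sub_zero]⟩
  add_mem' := by
    rintro a b ⟨a1, T, a2, a3⟩ ⟨b1, T', b2, b3⟩
    refine ⟨(CS D act π).add_mem a1 b1, T + T', by rw [map_add, a2, b2, add_zero], fun s hs => ?_⟩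
    rw [Pi.add_apply, a3 s hs, b3 s hs, map_add]
    abel
  neg_mem' := by
    rintro a ⟨a1, T, a2, a3⟩
    refine ⟨(CS D act π).neg_mem a1, -T, by rw [map_neg, a2, neg_zero], fun s hs => ?_⟩
    rw [Pi.neg_apply, a3 s hs, map_neg]
    abel

theorem mem_CB (D : Subgroup (Ω ≃ₐ[F] Ω)) (π : 𝓞 F) (c : (Ω ≃ₐ[F] Ω) → Pt (WAB A B) Ω) :
    c ∈ CB D act π ↔ Cc D act π c ∧ ∃ T : Pt (WAB A B) Ω, act π T = 0 ∧ ∀ s ∈ D, c s = ac (WAB A B) s T - T :=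
  Iff.rfl

/-- The cocycles on D which are zero on the inertia elements of D'. -/
def CU (D D' : Subgroup (Ω ≃ₐ[F] Ω)) (V : ValuationSubring Ω) (act : 𝓞 F →+* AddMonoid.End (Pt (WAB A B) Ω)) (π : 𝓞 F) :
    AddSubgroup ((Ω ≃ₐ[F] Ω) → Pt (WAB A B) Ω) where
  carrier := {c | Cc D act π c ∧ ∀ s ∈ D', Inert V s → c s = 0}
  zero_mem' := ⟨(CS D act π).zero_mem, fun s _ _ => rfl⟩
  add_mem' := by
    rintro a b ⟨a1, a2⟩ ⟨b1, b2⟩
    exact ⟨(CS D act π).add_mem a1 b1, fun s hs hi => by rw [Pi.add_apply, a2 s hs hi, b2 s hs hi, add_zero]⟩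
  neg_mem' := by
    rintro a ⟨a1, a2⟩
    exact ⟨(CS D act π).neg_mem a1, fun s hs hi => by rw [Pi.neg_apply, a2 s hs hi, neg_zero]⟩

theorem mem_CU (D D' : Subgroup (Ω ≃ₐ[F] Ω)) (V : ValuationSubring Ω) (π : 𝓞 F) (c : (Ω ≃ₐ[F] Ω) → Pt (WAB A B) Ω) :
    c ∈ CU D D' V act π ↔ Cc D act π c ∧ ∀ s ∈ D', Inert V s → c s = 0 := Iff.rfl

/-- The cocycles on D with values in the points killed by π which are, on D', the coboundary of a point. -/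
def CL (D D' : Subgroup (Ω ≃ₐ[F] Ω)) (act : 𝓞 F →+* AddMonoid.End (Pt (WAB A B) Ω)) (π : 𝓞 F) :
    AddSubgroup ((Ω ≃ₐ[F] Ω) → Pt (WAB A B) Ω) where
  carrier := {c | Cc D act π c ∧ ∃ P : Pt (WAB A B) Ω, ∀ s ∈ D', c s = ac (WAB A B) s P - P}
  zero_mem' := ⟨(CS D act π).zero_mem, 0, fun s _ => by rw [Pi.zero_apply, map_zero, sub_zero]⟩
  add_mem' := by
    rintro a b ⟨a1, T, a3⟩ ⟨b1, T', b3⟩
    refine ⟨(CS D act π).add_mem a1 b1, T + T', fun s hs => ?_⟩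
    rw [Pi.add_apply, a3 s hs, b3 s hs, map_add]
    abel
  neg_mem' := by
    rintro a ⟨a1, T, a3⟩
    refine ⟨(CS D act π).neg_mem a1, -T, fun s hs => ?_⟩
    rw [Pi.neg_apply, a3 s hs, map_neg]
    abel

theorem mem_CL (D D' : Subgroup (Ω ≃ₐ[F] Ω)) (π : 𝓞 F) (c : (Ω ≃ₐ[F] Ω) → Pt (WAB A B) Ω) :
    c ∈ CL D D' act π ↔ Cc D act π c ∧ ∃ P : Pt (WAB A B) Ω, ∀ s ∈ D', c s = ac (WAB A B) s P - P := Iff.rfl

end H19C
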