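import Mathlib
import Pool.Agent.Lib.H19C.D2
import Pool.Agent.Lib.H13X.XN1
import Pool.Agent.Lib.H19B.F3

/-! # H19C, chunk GP: the product of the local bounds -/

open NumberField IsDedekindDomain WeierstrassCurve

namespace H19C

open H55P (IQ Nm)
open H55R (Pl)

variable {F : Type} [Field F] [NumberField F] [IQ F]

/-- The product of the norms of the primes dividing π, with multiplicities. -/
theorem prod_norm_pow {N : Type} [Field N] [NumberField N] [Algebra F N] {π : 𝓞 F} (h0 : π ≠ 0)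
    (T : Finset (Pl N)) (b : Pl N → ℕ) (hT : ∀ v ∈ T, v.valuation N (algebraMap F N (π : F)) = WithZero.exp (-(b v : ℤ))) :
    ∏ v ∈ T, Ideal.absNorm v.asIdeal ^ b v ≤ Nm π ^ Module.finrank F N := by
  classical
  have hinj : Function.Injective (algebraMap (𝓞 F) (𝓞 N)) := FaithfulSMul.algebraMap_injective (𝓞 F) (𝓞 N)
  have hπ : algebraMap (𝓞 F) (𝓞 N) π ≠ 0 := by
    intro h
    exact h0 (hinj (by rw [h, map_zero]))
  have hdvd : ∏ v ∈ T, v.asIdeal ^ b v ∣ Ideal.span {algebraMap (𝓞 F) (𝓞 N) π} := by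
    refine Finset.prod_dvd_of_coprime ?_ ?_
    · intro v _ w _ hvw
      refine IsCoprime.pow ?_
      rw [Ideal.isCoprime_iff_sup_eq]
      exact Ideal.IsMaximal.coprime_of_ne v.isMaximal w.isMaximal fun h => hvw (HeightOneSpectrum.ext h)
    · intro v hv
      have h1 := hT v hv
      have h2 : algebraMap F N (π : F) = algebraMap (𝓞 N) N (algebraMap (𝓞 F) (𝓞 N) π) := rfl
      rw [h2, HeightOneSpectrum.valuation_of_algebraMap] at h1
      exact (HeightOneSpectrum.intValuation_le_pow_iff_dvd _ _ _).1 h1.le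
  have hnorm : Ideal.absNorm (Ideal.span {algebraMap (𝓞 F) (𝓞 N) π}) = Nm π ^ Module.finrank F N := by
    rw [Ideal.absNorm_span_singleton]
    unfold Nm
    rw [Ideal.absNorm_span_singleton, ← Int.natAbs_pow]
    congr 1
    have h1 : ((Algebra.norm ℤ (algebraMap (𝓞 F) (𝓞 N) π) : ℤ) : ℚ) = ((Algebra.norm ℤ π ^ Module.finrank F N : ℤ) : ℚ) := by
      rw [Algebra.coe_norm_int]
      push_cast
      rw [Algebra.coe_norm_int]
      have h2 : ((algebraMap (𝓞 F) (𝓞 N) π : 𝓞 N) : N) = algebraMap F N (π : F) := rfl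
      rw [h2, ← Algebra.norm_norm (S := F), Algebra.norm_algebraMap, map_pow]
    exact_mod_cast h1
  have h1 : Ideal.absNorm (∏ v ∈ T, v.asIdeal ^ b v) ∣ Ideal.absNorm (Ideal.span {algebraMap (𝓞 F) (𝓞 N) π}) :=
    Ideal.absNorm_dvd_absNorm_of_le (Ideal.le_of_dvd hdvd)
  rw [map_prod, hnorm] at h1
  have h2 : ∏ v ∈ T, Ideal.absNorm (v.asIdeal ^ b v) = ∏ v ∈ T, Ideal.absNorm v.asIdeal ^ b v :=
    Finset.prod_congr rfl fun v _ => map_pow _ _ _
  rw [h2] at h1
  apply Nat.le_of_dvd _ h1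
  rw [← hnorm]
  apply Nat.pos_of_ne_zero
  rw [Ne, Ideal.absNorm_eq_zero_iff, Ideal.span_singleton_eq_bot]
  exact hπ

/-- The multiplicity of a prime dividing π. -/
theorem exists_mult {N : Type} [Field N] [NumberField N] [Algebra F N] {π : 𝓞 F} (h0 : π ≠ 0) (v : Pl N)
    (hv : algebraMap (𝓞 F) (𝓞 N) π ∈ v.asIdeal) :
    ∃ b : ℕ, 0 < b ∧ v.valuation N (algebraMap F N (π : F)) = WithZero.exp (-(b : ℤ)) := by
  have hπ : algebraMap F N (π : F) ≠ 0 := by
    rw [Ne, map_eq_zero, RingOfIntegers.coe_eq_zero_iff]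
    exact h0
  have hva : v.valuation N (algebraMap F N (π : F)) ≠ 0 := (map_ne_zero _).2 hπ
  obtain ⟨k, hk⟩ : ∃ k : ℤ, v.valuation N (algebraMap F N (π : F)) = WithZero.exp k :=
    ⟨WithZero.log _, (WithZero.exp_log hva).symm⟩
  have hlt : v.valuation N (algebraMap F N (π : F)) < 1 := by
    have h2 : algebraMap F N (π : F) = algebraMap (𝓞 N) N (algebraMap (𝓞 F) (𝓞 N) π) := rfl
    rw [h2]
    exact (v.valuation_lt_one_iff_mem _).2 hv
  rw [hk, ← WithZero.exp_zero, WithZero.exp_lt_exp] at hlt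
  obtain ⟨b, hb⟩ := Int.eq_ofNat_of_zero_le (show 0 ≤ -k by omega)
  refine ⟨b, by omega, ?_⟩
  rw [hk, ← hb, neg_neg]

/-- The primes of N above an integer l are finitely many. -/
theorem fin_above (N : Type) [Field N] [NumberField N] {l : ℕ} (hl : l ≠ 0) :
    {v : Pl N | (l : 𝓞 N) ∈ v.asIdeal}.Finite := by
  have h0 : Ideal.span {(l : 𝓞 N)} ≠ ⊥ := by
    rw [Ne, Ideal.span_singleton_eq_bot]
    exact Nat.cast_ne_zero.2 hl
  have h1 := Ideal.finite_factors h0
  refine h1.subset fun v hv => ?_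
  show v.asIdeal ∣ Ideal.span {(l : 𝓞 N)}
  rw [Ideal.dvd_span_singleton]
  exact hv

/-- The reduction modulo π, with values in the integers modulo l. -/
theorem exists_q {π : 𝓞 F} {l : ℕ} (hl : l.Prime) (hN : Nm π = l) :
    ∃ q : 𝓞 F →+* ZMod l, Function.Surjective q ∧ ∀ x, q x = 0 ↔ π ∣ x := by
  have hc : Nat.card (𝓞 F ⧸ Ideal.span {π}) = l := hN
  have hfin : Finite (𝓞 F ⧸ Ideal.span {π}) := Nat.finite_of_card_ne_zero (by rw [hc]; exact hl.ne_zero)
  let _ : Fintype (𝓞 F ⧸ Ideal.span {π}) := Fintype.ofFinite _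
  have hl0 : NeZero l := ⟨hl.ne_zero⟩
  rw [Nat.card_eq_fintype_card] at hc
  let e := ZMod.ringEquivOfPrime (𝓞 F ⧸ Ideal.span {π}) hl hc
  refine ⟨(e.symm : (𝓞 F ⧸ Ideal.span {π}) →+* ZMod l).comp (Ideal.Quotient.mk (Ideal.span {π})), ?_, fun x => ?_⟩
  · exact e.symm.surjective.comp Ideal.Quotient.mk_surjective
  · show e.symm (Ideal.Quotient.mk (Ideal.span {π}) x) = 0 ↔ _
    rw [map_eq_zero_iff e.symm e.symm.injective, Ideal.Quotient.eq_zero_iff_mem, Ideal.mem_span_singleton]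

end H19C
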