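import Mathlib
import Pool.Agent.Lib.H19B.GA
import Pool.Agent.Lib.H19B.GB

/-! # H19C, chunk GB: the index of the image of an endomorphism with kernel -/

namespace H19C

open H19B (rel_ge rel_map)

/-- The counting lemma with kernel. -/
theorem count_index2 {M : Type} [AddCommGroup M] (A : ℕ → AddSubgroup M) (hA : Antitone A) {q : ℕ} (hq : 0 < q)
    (h : ∀ i, (A (i + 1)).relIndex (A i) = q) (f : M →+ M) (h0 : ∀ x ∈ A 0, f x ∈ A 0) (J e : ℕ) (hf : ∀ x ∈ A J, f x ∈ A (J + e))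
    {n : ℕ} (r : Fin n → M) (hr : ∀ i, r i ∈ A 0 ∧ f (r i) = 0) (hrr : ∀ i i', r i - r i' ∈ A J → i = i')
    (K : AddSubgroup M) (hK : ∀ x ∈ K, ∃ y ∈ A 0, f y = x) (hKf : K.relIndex (A 0) ≠ 0) : q ^ e * n ≤ K.relIndex (A 0) := by
  classical
  have hidx : ∀ k : ℕ, (A k).relIndex (A 0) = q ^ k := by
    intro k
    induction k with
    | zero => rw [AddSubgroup.relIndex_self, pow_zero]
    | succ k ih =>
      rw [← AddSubgroup.relIndex_mul_relIndex (A (k + 1)) (A k) (A 0) (hA (Nat.le_succ k)) (hA (Nat.zero_le k)), h k, ih, pow_succ]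
      ring
  have hqk : ∀ k : ℕ, q ^ k ≠ 0 := fun k => (pow_pos hq k).ne'
  -- the group C
  obtain ⟨C, hC⟩ : ∃ C : AddSubgroup M, C = (A J ⊔ f.ker) ⊓ A 0 := ⟨_, rfl⟩
  have hAC : A J ≤ C := by
    rw [hC]
    exact le_inf le_sup_left (hA (Nat.zero_le J))
  have hC0 : C ≤ A 0 := by
    rw [hC]
    exact inf_le_right
  have h1 := AddSubgroup.relIndex_mul_relIndex (A J) C (A 0) hAC hC0
  rw [hidx J] at h1
  have hne1 : (A J).relIndex C ≠ 0 := fun h2 => hqk J (by rw [← h1, h2, zero_mul])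
  have hne2 : C.relIndex (A 0) ≠ 0 := fun h2 => hqk J (by rw [← h1, h2, mul_zero])
  have hn : n ≤ (A J).relIndex C := by
    refine rel_ge _ _ hne1 r (fun i => ?_) hrr
    rw [hC]
    exact ⟨AddSubgroup.mem_sup_right (hr i).2, (hr i).1⟩
  -- the image
  have hfJ : (A J).map f ≤ (A 0).map f := AddSubgroup.map_mono (hA (Nat.zero_le J))
  have hf0 : (A 0).map f ≤ A 0 := by
    rintro x ⟨y, hy, rfl⟩
    exact h0 y hy
  have hex : ∀ x : M, ∃ y : M, x ∈ (A 0).map f → y ∈ A 0 ∧ f y = x := by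
    intro x
    by_cases hx : x ∈ (A 0).map f
    · obtain ⟨y, hy, h2⟩ := hx
      exact ⟨y, fun _ => ⟨hy, h2⟩⟩
    · exact ⟨0, fun h2 => absurd h2 hx⟩
  choose g hg using hex
  have h2 := rel_map ((A J).map f) ((A 0).map f) C (A 0) g (fun b hb => (hg b hb).1) (fun b hb b' hb' hbb => by
    rw [hC] at hbb
    obtain ⟨y, hy, z, hz, hyz⟩ := AddSubgroup.mem_sup.1 hbb.1
    refine ⟨y, hy, ?_⟩
    have h3 : f (g b - g b') = b - b' := by rw [map_sub, (hg b hb).2, (hg b' hb').2]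
    rw [← h3, ← hyz, map_add, show f z = 0 from hz, add_zero]) hne2
  have hKle : K ≤ (A 0).map f := fun x hx => by
    obtain ⟨y, hy, h3⟩ := hK x hx
    exact ⟨y, hy, h3⟩
  have h4 := AddSubgroup.relIndex_le_of_le_left hKle hKf
  have hne3 : ((A 0).map f).relIndex (A 0) ≠ 0 := fun h5 => hKf (AddSubgroup.relIndex_eq_zero_of_le_left hKle h5)
  have h5 := AddSubgroup.relIndex_mul_relIndex ((A J).map f) ((A 0).map f) (A 0) hfJ hf0
  have hne4 : ((A J).map f).relIndex (A 0) ≠ 0 := by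
    rw [← h5]
    exact mul_ne_zero h2.1 hne3
  have h6 : (A J).map f ≤ A (J + e) := by
    rintro x ⟨y, hy, rfl⟩
    exact hf y hy
  have h7 := AddSubgroup.relIndex_le_of_le_left h6 hne4
  rw [hidx, ← h5, pow_add] at h7
  have h8 : q ^ J * (q ^ e * n) ≤ q ^ J * K.relIndex (A 0) := by
    calc q ^ J * (q ^ e * n) = (q ^ J * q ^ e) * n := by ring
      _ ≤ (((A J).map f).relIndex ((A 0).map f) * ((A 0).map f).relIndex (A 0)) * n := Nat.mul_le_mul_right n h7
      _ ≤ (C.relIndex (A 0) * K.relIndex (A 0)) * (A J).relIndex C := Nat.mul_le_mul (Nat.mul_le_mul h2.2 h4) hn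
      _ = q ^ J * K.relIndex (A 0) := by rw [← h1]; ring
  exact Nat.le_of_mul_le_mul_left h8 (pow_pos hq J)

end H19C
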