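import Mathlib
import Pool.Agent.Lib.H19C.D2
import Pool.Agent.Lib.H19B.C4
import Pool.Agent.Lib.H19B.C3
import Pool.Agent.Lib.H19B.F3

/-! # H19C, chunk AC: the character of a cocycle -/

open NumberField IsDedekindDomain WeierstrassCurve

namespace H19C

open H55P (IQ Pt ac Dec Inert decS Nm)
open H35P (WAB Ker tt)
open H55K (Tor CMA Dta GV ak cj)
open H19B (DN mem_DN Cc CS mem_CS CI mem_CI c4_nat c4_add c4_mul c4_inj c4_rep Rep rep_exists rep_sum)

variable {F : Type} [Field F] [NumberField F] [IQ F] {A B : F} {Om : ℂ} {Ω : Type} [Field Ω] [DecidableEq Ω]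
  [Algebra F Ω] [IsAlgClosure F Ω] {j : Ω →+* ℂ} {act : 𝓞 F →+* AddMonoid.End (Pt (WAB A B) Ω)} {mo : Ideal (𝓞 F)}
  {ψ : Ideal (𝓞 F) →*₀ 𝓞 F} {p : ℕ} {V : ValuationSubring Ω} {π : 𝓞 F}

/-- The character of a cocycle on C with respect to the generator T₀. -/
noncomputable def ach (X : Frm F Ω) (T₀ : Pt (WAB A B) Ω) (c : (Ω ≃ₐ[F] Ω) → Pt (WAB A B) Ω) : (Ω ≃ₐ[F] Ω) → ZMod X.p :=
  open Classical in fun t => if h : ∃ a : ZMod X.p, c t = a.val • T₀ then h.choose else 0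

/-- Chunk C4 (S). Choose_spec; for c in CS and t in C the value c t is killed by π. -/
theorem ach_spec {X : Frm F Ω} {N : IntermediateField F Ω} (hX : Of X act π N) {T₀ : Pt (WAB A B) Ω}
    (h1 : ∀ T : Pt (WAB A B) Ω, act π T = 0 → ∃ a : ZMod X.p, T = a.val • T₀) {c : (Ω ≃ₐ[F] Ω) → Pt (WAB A B) Ω} (hc : Cc X.D act π c)
    (t : Ω ≃ₐ[F] Ω) (ht : t ∈ X.D) : c t = (ach X T₀ c t).val • T₀ := by
  classical
  have h := h1 (c t) (hc.tor t ht)
  have e : ach X T₀ c t = h.choose := dif_pos h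
  rw [e]
  exact h.choose_spec

/-- Chunk C4 (M). PROOF. On C the action on the points killed by p (so on c t, p • c t = 0 as p • T₀ = 0) is trivial: c (s t) = c s + c t, and a.val • T₀ determines a (h2; (a + b).val • T₀ = a.val • T₀ + b.val • T₀ as p • T₀ = 0: ZMod.val_add, or through natCast). tw: s in D, t in C: s (s⁻¹ t s) = t s, so
c (s * (s⁻¹ t s)) = c s + s c (s⁻¹ t s) and c (t s) = c t + t c s = c t + c s; hence s c (s⁻¹ t s) = c t. hX.ch for the point c (s⁻¹ t s): (et s).val • c t = (om s).val • c (s⁻¹ t s): et s * a t = om s * a (s⁻¹ t s). cont: from hc.cont (c s = 0 gives a s = 0 by h2). (s⁻¹ t s is in C: hX.ok.nrm1.) -/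
theorem ach_tw {X : Frm F Ω} {N : IntermediateField F Ω} (hX : Of X act π N) {T₀ : Pt (WAB A B) Ω} (h0 : act π T₀ = 0)
    (h1 : ∀ T : Pt (WAB A B) Ω, act π T = 0 → ∃ a : ZMod X.p, T = a.val • T₀) (h2 : ∀ a : ZMod X.p, a.val • T₀ = 0 → a = 0)
    (h3 : X.p • T₀ = 0) {c : (Ω ≃ₐ[F] Ω) → Pt (WAB A B) Ω} (hc : Cc X.D act π c) : X.Tw (ach X T₀ c) := by
  have hne : NeZero X.p := ⟨hX.ok.pr.ne_zero⟩
  have hD : ∀ t ∈ X.C, t ∈ X.D := fun t ht => hX.ok.le2 (hX.ok.le1 ht)
  have sp : ∀ t ∈ X.D, c t = (ach X T₀ c t).val • T₀ := fun t ht => ach_spec hX h1 hc t ht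
  have hk : ∀ t ∈ X.D, X.p • c t = 0 := by
    intro t ht
    rw [sp t ht, ← mul_nsmul', mul_comm, mul_nsmul', h3, nsmul_zero]
  have hfix : ∀ s ∈ X.C, ∀ t ∈ X.D, ac (WAB A B) s (c t) = c t := fun s hs t ht =>
    ((hX.C s).1 hs).2 _ (hk t ht)
  refine ⟨?_, ?_, ?_⟩
  · intro s hs t ht
    apply c4_inj h3 h2
    rw [c4_add h3, ← sp _ (X.D.mul_mem (hD s hs) (hD t ht)), ← sp _ (hD s hs), ← sp _ (hD t ht),
      hc.mul s (hD s hs) t (hD t ht), hfix s hs t (hD t ht)]
  · intro s hs t ht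
    have ht' : s⁻¹ * t * s ∈ X.C := hX.ok.nrm1 s hs t ht
    have e1 : s * (s⁻¹ * t * s) = t * s := by group
    have e2 := hc.mul s hs _ (hD _ ht')
    have e3 := hc.mul t (hD t ht) s hs
    rw [e1, e3, hfix t ht s hs, add_comm] at e2
    have e4 : ac (WAB A B) s (c (s⁻¹ * t * s)) = c t := (add_left_cancel e2).symm
    have e5 := hX.ch s hs _ (hc.tor _ (hD _ ht'))
    rw [e4] at e5
    apply c4_inj h3 h2
    rw [c4_mul h3, c4_mul h3, ← sp _ (hD _ ht'), ← sp _ (hD t ht), e5]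
  · obtain ⟨L, hL, hc3⟩ := hc.cont
    refine ⟨L, hL, fun s hs hs' => h2 _ ?_⟩
    rw [← sp s (hD s hs)]
    exact hc3 s (hD s hs) hs'

/-- Chunk C4 (M). PROOF. Let c'' = c - c', in CS, with c'' t = 0 for t in C, Inert t (ach c t = ach c' t, ach_spec). Let I = the subgroup D ⊓ inS (inertia), J = C ⊓ I. I acts trivially on Tor (cj π) (H13X.inert_tors, V(cj π) = 1: hypothesis hb), so I ≤ E, and J.relIndex I is finite and not divisible by p: Rep X.C X.E S with p not dividing card S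
(hX.ok.rep) gives that C has index card S in E (finite, prime to p); J = C ⊓ I, so J.relIndex I = C.relIndex I divides or at least is the cardinality of a subgroup of ... : C is normal in E (nrm1), E / C is a group of order card S, and I / J is (isomorphic to) its subgroup I C / C: its order divides card S
(Subgroup.relIndex_dvd_of_le_left / relIndex_inf ... for normal subgroups: Subgroup.relIndex_dvd_index_of_normal). rep_exists J I: representatives S' of I / J, p does not divide card S'. T = -(m • ∑ over s in S' of c'' s), m card S' = 1 modulo p. For g in I: c'' (g s) = c'' g + g c'' s, c'' (g s) depends only on the coset (c'' (s t) = c'' s + s c'' t = c'' s for t in J), so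
∑ c'' s = ∑ c'' (g s) = card S' • c'' g + g ∑ c'' s (rep_sum), hence g T - T = m card S' • c'' g = c'' g (p • c'' g = 0). act π T = 0. -/
theorem ach_inert (h : CMA F A B Om j act) {X : Frm F Ω} {N : IntermediateField F Ω} (hX : Of X act π N) (hG : GV A B X.V)
    (hd : π ∣ (X.p : 𝓞 F)) (hb : X.V.valuation (ak Ω (cj π)) = 1) {T₀ : Pt (WAB A B) Ω} (h0 : act π T₀ = 0)
    (h1 : ∀ T : Pt (WAB A B) Ω, act π T = 0 → ∃ a : ZMod X.p, T = a.val • T₀) (h2 : ∀ a : ZMod X.p, a.val • T₀ = 0 → a = 0)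
    {c c' : (Ω ≃ₐ[F] Ω) → Pt (WAB A B) Ω} (hc : Cc X.D act π c) (hc' : Cc X.D act π c')
    (hi : ∀ t ∈ X.C, Inert X.V t → ach X T₀ c t = ach X T₀ c' t) : c - c' ∈ CI X.D X.V act π := by
  classical
  have hD : ∀ t ∈ X.C, t ∈ X.D := fun t ht => hX.ok.le2 (hX.ok.le1 ht)
  have hcc : Cc X.D act π (c - c') := (CS X.D act π).sub_mem hc hc'
  refine (mem_CI X.D X.V π (c - c')).2 ⟨hcc, ?_⟩
  set d : (Ω ≃ₐ[F] Ω) → Pt (WAB A B) Ω := c - c' with hd0
  have hz : ∀ t ∈ X.C, Inert X.V t → d t = 0 := by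
    intro t ht hti
    rw [hd0, Pi.sub_apply, ach_spec hX h1 hc t (hD t ht), ach_spec hX h1 hc' t (hD t ht), hi t ht hti, sub_self]
  have hpd : ∀ s ∈ X.D, X.p • d s = 0 := by
    intro s hs
    obtain ⟨k, hk⟩ := hd
    rw [← H55K.S.act_nat (act := act) X.p (d s), hk, mul_comm, H55K.S.act_mul, hcc.tor s hs, map_zero]
  let I : Subgroup (Ω ≃ₐ[F] Ω) := X.D ⊓ H55P.inS F X.V
  have hIE : I ≤ X.E := by
    intro s hs
    refine (hX.E s).2 ⟨hs.1, fun T hT => ?_⟩
    exact H13X.inert_tors h hG hb hs.2 hT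
  obtain ⟨S, hS, hSp⟩ := hX.ok.rep
  have hidx : X.C.relIndex X.E = S.card := c4_rep hS
  have hnorm : (X.C.subgroupOf X.E).Normal := by
    constructor
    intro n hn g
    rw [Subgroup.mem_subgroupOf] at hn ⊢
    have h5 := hX.ok.nrm1 (g : Ω ≃ₐ[F] Ω)⁻¹ (X.D.inv_mem (hX.ok.le2 g.2)) _ hn
    rw [inv_inv] at h5
    exact h5
  have hdvd : X.C.relIndex I ∣ S.card := by
    have h6 := Subgroup.relIndex_dvd_index_of_normal (X.C.subgroupOf X.E) (I.subgroupOf X.E)
    rw [Subgroup.relIndex_subgroupOf hIE] at h6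
    rw [← hidx]
    exact h6
  have hp1 : ¬ X.p ∣ X.C.relIndex I := fun h6 => hSp (h6.trans hdvd)
  have hne : (X.C ⊓ I).relIndex I ≠ 0 := by
    rw [Subgroup.inf_relIndex_right]
    exact fun h6 => hp1 (h6 ▸ dvd_zero _)
  obtain ⟨S', hS', hcard⟩ := rep_exists (X.C ⊓ I) I hne
  rw [Subgroup.inf_relIndex_right] at hcard
  have hcop : Nat.Coprime S'.card X.p := by
    rw [hcard]
    exact ((Nat.Prime.coprime_iff_not_dvd hX.ok.pr).2 hp1).symm
  obtain ⟨m, _, hm⟩ := Nat.exists_mul_mod_eq_one_of_coprime hcop hX.ok.pr.one_lt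
  refine ⟨-(m • ∑ s ∈ S', d s), ?_, ?_⟩
  · rw [map_neg, map_nsmul, map_sum, Finset.sum_eq_zero (fun s hs => hcc.tor s (hS'.mem s hs).1), nsmul_zero, neg_zero]
  · intro g hg hgi
    have hgI : g ∈ I := ⟨hg, hgi⟩
    have e1 := rep_sum hS' d (fun s hs t ht => by
      rw [hcc.mul s hs.1 t ht.2.1, hz t ht.1 ht.2.2, map_zero, add_zero]) g hgI
    have e2 : ∑ s ∈ S', d (g * s) = S'.card • d g + ac (WAB A B) g (∑ s ∈ S', d s) := by
      rw [map_sum, ← Finset.sum_const, ← Finset.sum_add_distrib]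
      exact Finset.sum_congr rfl fun s hs => hcc.mul g hg s (hS'.mem s hs).1
    rw [e1] at e2
    have e3 : (S'.card * m) • d g = d g := by
      conv_lhs => rw [← Nat.mod_add_div (S'.card * m) X.p, hm]
      rw [add_nsmul, one_nsmul, mul_comm, mul_nsmul', hpd g hg, nsmul_zero, add_zero]
    rw [map_neg, map_nsmul, sub_neg_eq_add, neg_add_eq_sub, ← nsmul_sub]
    have e4 : ∑ s ∈ S', d s - ac (WAB A B) g (∑ s ∈ S', d s) = S'.card • d g := by
      rw [sub_eq_iff_eq_add]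
      exact e2
    rw [e4, ← mul_nsmul', mul_comm, e3]

/-- The (p-1)-st power of an element of D acts trivially on the points killed by the conjugate of π. -/
theorem ac_powB {X : Frm F Ω} {N : IntermediateField F Ω} (hX : Of X act π N) (hd : cj π ∣ (X.p : 𝓞 F))
    {t : Ω ≃ₐ[F] Ω} (ht : t ∈ X.D) {T : Pt (WAB A B) Ω} (hT : act (cj π) T = 0) : ac (WAB A B) (t ^ (X.p - 1)) T = T := by
  have hp := hX.ok.pr
  have hpT : X.p • T = 0 := H19B.c3_nsmul hd T hT
  have h1 : ∀ k : ℕ, ac (WAB A B) (t ^ k) T = ((X.et t).val ^ k) • T := by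
    intro k
    induction k with
    | zero => rw [pow_zero, pow_zero, one_nsmul, H55K.S.ac_one]
    | succ k ih =>
      rw [pow_succ' t k, H55K.S.ac_mul, ih, map_nsmul, hX.ch' t ht T hT, pow_succ, ← mul_nsmul]
      congr 1
      ring
  by_cases h0 : T = 0
  · rw [h0, map_zero]
  · rw [h1]
    have hn : ¬ X.p ∣ (X.et t).val := by
      rintro ⟨k, hk⟩
      have h2 := hX.ch' t ht T hT
      rw [hk, mul_comm, mul_nsmul', hpT, nsmul_zero] at h2
      exact h0 (H55K.S.ac_inj t (by rw [h2, map_zero]))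
    have hcop : Nat.Coprime (X.et t).val X.p := ((Nat.Prime.coprime_iff_not_dvd hp).2 hn).symm
    have h3 := Nat.ModEq.pow_totient hcop
    rw [Nat.totient_prime hp] at h3
    have h4 : addOrderOf T = X.p := by
      have : Fact X.p.Prime := ⟨hp⟩
      exact addOrderOf_eq_prime hpT h0
    have h5 : ((X.et t).val ^ (X.p - 1)) • T = 1 • T := nsmul_eq_nsmul_iff_modEq.2 (by rw [h4]; exact h3)
    rw [h5, one_nsmul]

/-- The case V(π) = 1: the difference is zero on the inertia group. -/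
theorem ach_inertB {X : Frm F Ω} (dta : Dta A B Om j act mo ψ X.p) {N : IntermediateField F Ω} (hX : Of X act π N) (hG : GV A B X.V)
    (hπ : Prime π) (hd : π ∣ (X.p : 𝓞 F)) (hs : ¬ π ∣ cj π) (ha : X.V.valuation (ak Ω π) = 1) {T₀ : Pt (WAB A B) Ω}
    (h1 : ∀ T : Pt (WAB A B) Ω, act π T = 0 → ∃ a : ZMod X.p, T = a.val • T₀)
    {c c' : (Ω ≃ₐ[F] Ω) → Pt (WAB A B) Ω} (hc : Cc X.D act π c) (hc' : Cc X.D act π c')
    (hi : ∀ t ∈ X.C, Inert X.V t → ach X T₀ c t = ach X T₀ c' t) : c - c' ∈ CU X.D X.D X.V act π := by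
  have hA := dta.cma
  have hp := dta.prime
  obtain ⟨hpp, u, v₁, huv⟩ := H19B.tors_split hA hp dta.unr hπ hd hs
  have hd' : cj π ∣ (X.p : 𝓞 F) := ⟨π, by rw [mul_comm, hpp]⟩
  have hact : ∀ T : Pt (WAB A B) Ω, act (X.p : 𝓞 F) T = X.p • T := fun T => H55K.S.act_nat X.p T
  have hD : ∀ t ∈ X.C, t ∈ X.D := fun t ht => hX.ok.le2 (hX.ok.le1 ht)
  have hcc : Cc X.D act π (c - c') := (CS X.D act π).sub_mem hc hc'
  refine (mem_CU X.D X.D X.V π (c - c')).2 ⟨hcc, fun t ht hti => ?_⟩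
  have hz : ∀ t ∈ X.C, Inert X.V t → (c - c') t = 0 := by
    intro t ht hti
    rw [Pi.sub_apply, ach_spec hX h1 hc t (hD t ht), ach_spec hX h1 hc' t (hD t ht), hi t ht hti, sub_self]
  have hfix : ∀ T : Pt (WAB A B) Ω, act π T = 0 → ac (WAB A B) t T = T := fun T hT =>
    H13X.inert_tors hA hG ha hti (H55K.S.mem_Tor.2 hT)
  -- the powers of t
  have hpow : ∀ k : ℕ, t ^ k ∈ X.D ∧ (c - c') (t ^ k) = k • (c - c') t := by
    intro k
    induction k with
    | zero =>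
      refine ⟨by rw [pow_zero]; exact X.D.one_mem, ?_⟩
      have h2 := hcc.mul 1 X.D.one_mem 1 X.D.one_mem
      rw [mul_one, H55K.S.ac_one] at h2
      rw [pow_zero, zero_nsmul]
      exact left_eq_add.1 h2
    | succ k ih =>
      refine ⟨X.D.pow_mem ht _, ?_⟩
      rw [pow_succ' t k, hcc.mul t ht _ ih.1, ih.2, map_nsmul, hfix _ (hcc.tor t ht), succ_nsmul, add_comm]
  have hpd : X.p • (c - c') t = 0 := H19B.c3_nsmul hd _ (hcc.tor t ht)
  have hC : t ^ (X.p - 1) ∈ X.C := by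
    refine (hX.C _).2 ⟨X.D.pow_mem ht _, fun T hT => ?_⟩
    have h2 : act π (act (v₁ * cj π) T) = 0 := by
      rw [← H55K.S.act_mul]
      have e1 : π * (v₁ * cj π) = v₁ * (X.p : 𝓞 F) := by rw [← hpp]; ring
      rw [e1, H55K.S.act_mul, hact, hT, map_zero]
    have h3 : act (cj π) (act (u * π) T) = 0 := by
      rw [← H55K.S.act_mul]
      have e1 : cj π * (u * π) = u * (X.p : 𝓞 F) := by rw [← hpp]; ring
      rw [e1, H55K.S.act_mul, hact, hT, map_zero]
    have h4 : act (v₁ * cj π) T + act (u * π) T = T := by rw [← H55K.S.act_add, add_comm, huv, H55K.S.act_one]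
    have h5 : ∀ k : ℕ, ac (WAB A B) (t ^ k) (act (v₁ * cj π) T) = act (v₁ * cj π) T := by
      intro k
      induction k with
      | zero => rw [pow_zero, H55K.S.ac_one]
      | succ k ih => rw [pow_succ' t k, H55K.S.ac_mul, ih, hfix _ h2]
    have h6 : ac (WAB A B) (t ^ (X.p - 1)) (act (v₁ * cj π) T + act (u * π) T) = act (v₁ * cj π) T + act (u * π) T := by
      rw [map_add, h5, ac_powB hX hd' ht h3]
    rwa [h4] at h6
  have hIn : Inert X.V (t ^ (X.p - 1)) := (H55P.inS F X.V).pow_mem hti _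
  have h7 := hz _ hC hIn
  rw [(hpow _).2] at h7
  have h8 : X.p • (c - c') t = (X.p - 1) • (c - c') t + (c - c') t := by
    rw [← succ_nsmul, Nat.sub_add_cancel hp.one_lt.le]
  rw [hpd, h7, zero_add] at h8
  exact h8.symm

end H19C
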