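import Mathlib
import Pool.Agent.Lib.H19C.D2
import Pool.Agent.Lib.H19B.F1
import Pool.Agent.Lib.H19B.F2

/-! # H19C, chunk FU: the uniformizer and the residue field at a given prime -/

open NumberField IsDedekindDomain WeierstrassCurve

namespace H19C

open H55P (IQ Pt ac Dec Inert decS Nm)
open H35P (WAB Ker tt)
open H55K (Tor CMA Dta GV ak cj)
open H19B (DN mem_DN)

variable {F : Type} [Field F] [NumberField F] [IQ F] {Ω : Type} [Field Ω] [Algebra F Ω] [IsAlgClosure F Ω]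
  {p : ℕ} {V : ValuationSubring Ω} {π : 𝓞 F}

omit [IQ F] in
/-- The uniformizer at v, and the ramification index over F for a prime element π of F. -/
theorem exists_unif2 (N : IntermediateField F Ω) [NumberField N] {v : HeightOneSpectrum (𝓞 N)} (hv : H13S.Abv N V v)
    {b : ℕ} (hb0 : 0 < b) (hb : v.valuation N (algebraMap F N (π : F)) = WithZero.exp (-(b : ℤ))) :
    ∃ w : Ω, w ∈ N ∧ w ≠ 0 ∧ V.valuation w < 1 ∧ V.valuation (ak Ω π) = V.valuation w ^ b ∧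
      ∀ y : Ω, y ≠ 0 → (∀ s ∈ N.fixingSubgroup, Inert V s → s y = y) → ∃ i : ℤ, V.valuation y = V.valuation w ^ i := by
  obtain ⟨w, hw⟩ := v.valuation_exists_uniformizer N
  have hwne : w ≠ 0 := by
    intro h
    rw [h, map_zero] at hw
    exact WithZero.exp_ne_zero hw.symm
  have key : ∀ a : N, a ≠ 0 → ∀ k : ℤ, v.valuation N a = WithZero.exp k → V.valuation (a : Ω) = V.valuation (w : Ω) ^ (-k) := by
    intro a ha k hk
    have h1 : v.valuation N a = v.valuation N (w ^ (-k)) := by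
      rw [map_zpow₀, hw, ← WithZero.exp_zsmul, hk]
      congr 1
      simp
    have h2 : V.valuation (a : Ω) = V.valuation ((w ^ (-k) : N) : Ω) :=
      le_antisymm ((hv.le _ _).2 h1.le) ((hv.le _ _).2 h1.ge)
    have e : ((w ^ (-k) : N) : Ω) = (w : Ω) ^ (-k) := map_zpow₀ (algebraMap N Ω) w (-k)
    rw [h2, e, map_zpow₀]
  have hwlt : V.valuation (w : Ω) < 1 := by
    rw [hv.lt w, hw, ← WithZero.exp_zero, WithZero.exp_lt_exp]
    norm_num
  have hwΩ : (w : Ω) ≠ 0 := fun h => hwne (Subtype.ext h)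
  have hπ0 : algebraMap F N (π : F) ≠ 0 := by
    intro h
    rw [h, map_zero] at hb
    exact WithZero.exp_ne_zero hb.symm
  refine ⟨w, w.2, hwΩ, hwlt, ?_, ?_⟩
  · have h1 := key _ hπ0 _ hb
    rw [neg_neg, zpow_natCast] at h1
    exact h1
  · intro y hy hs
    obtain ⟨a, ha, hya⟩ := H13S.value_fixed N V y hy hs
    have hva : v.valuation N a ≠ 0 := (map_ne_zero _).2 ha
    exact ⟨_, hya.trans (key a ha _ (WithZero.exp_log hva).symm)⟩

/-- The residue field at v. -/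
theorem exists_res2 (hp : p.Prime) (hπ : Prime π) (hd : π ∣ (p : 𝓞 F)) (hV : V.valuation (ak Ω π) < 1) (N : IntermediateField F Ω)
    [NumberField N] {v : HeightOneSpectrum (𝓞 N)} (hv : H13S.Abv N V v) :
    ∃ φ : Ω ≃ₐ[F] Ω, 1 < Ideal.absNorm v.asIdeal ∧ p ∣ Ideal.absNorm v.asIdeal ∧ φ ∈ DN N V ∧
      (∀ x : Ω, V.valuation x ≤ 1 → V.valuation (φ x - x ^ Ideal.absNorm v.asIdeal) < 1) ∧
      ∃ r : Fin (Ideal.absNorm v.asIdeal) → Ω, (∀ i, r i ∈ N ∧ V.valuation (r i) ≤ 1) ∧ (∀ i i', i ≠ i' → V.valuation (r i - r i') = 1) ∧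
        ∀ x : Ω, (∀ s ∈ DN N V, s x = x) → V.valuation x ≤ 1 → ∃ i, V.valuation (x - r i) < 1 := by
  classical
  have hwm := v.isMaximal
  obtain ⟨f, hf0, hf⟩ := H19B.f2_exp V π hπ hV v hv
  obtain ⟨φ, hφN, hφD, hφ⟩ := H13X.exists_frobK N hv
  have hpq : p ∣ Ideal.absNorm v.asIdeal := by
    rw [hf]
    exact dvd_pow (H19B.f2_Nm hp hπ hd) hf0.ne'
  have hq1 : 1 < Ideal.absNorm v.asIdeal := by
    have h0 : Ideal.absNorm v.asIdeal ≠ 0 := by
      rw [Ne, Ideal.absNorm_eq_zero_iff]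
      exact v.ne_bot
    exact lt_of_lt_of_le hp.one_lt (Nat.le_of_dvd (Nat.pos_of_ne_zero h0) hpq)
  have hφ' : ∀ x : Ω, V.valuation x ≤ 1 → V.valuation (φ x - x ^ Ideal.absNorm v.asIdeal) < 1 := fun x hx =>
    hφ x ((V.valuation_le_one_iff _).1 hx)
  refine ⟨φ, hq1, hpq, mem_DN.2 ⟨hφN, hφD⟩, hφ', ?_⟩
  have hcard : Nat.card (𝓞 N ⧸ v.asIdeal) = Ideal.absNorm v.asIdeal := rfl
  have hfin : Finite (𝓞 N ⧸ v.asIdeal) := Ideal.finiteQuotientOfFreeOfNeBot _ v.ne_bot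
  have e : Fin (Ideal.absNorm v.asIdeal) ≃ (𝓞 N ⧸ v.asIdeal) := by
    rw [← hcard]
    exact (Finite.equivFin _).symm
  have hmk : ∀ y : 𝓞 N ⧸ v.asIdeal, Ideal.Quotient.mk v.asIdeal (Quotient.out y) = y := fun y =>
    Quotient.out_eq y
  have hrN : ∀ i, (((Quotient.out (e i) : 𝓞 N) : N) : Ω) ∈ N ∧ V.valuation (((Quotient.out (e i) : 𝓞 N) : N) : Ω) ≤ 1 :=
    fun i => ⟨((Quotient.out (e i) : 𝓞 N) : N).2, H13S.vw_int N V _⟩
  have hrr : ∀ i i', i ≠ i' → V.valuation ((((Quotient.out (e i) : 𝓞 N) : N) : Ω) - (((Quotient.out (e i') : 𝓞 N) : N) : Ω)) = 1 := by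
    intro i i' hii
    have e1 : (((Quotient.out (e i) : 𝓞 N) : N) : Ω) - (((Quotient.out (e i') : 𝓞 N) : N) : Ω) =
        (((Quotient.out (e i) - Quotient.out (e i') : 𝓞 N) : N) : Ω) := by simp
    rw [e1]
    refine le_antisymm (H13S.vw_int N V _) (not_lt.1 fun h' => hii ?_)
    have h2 := (v.valuation_lt_one_iff_mem _).1 ((hv.lt _).1 h')
    rw [← Ideal.Quotient.eq_zero_iff_mem, map_sub, hmk, hmk, sub_eq_zero] at h2
    exact e.injective h2
  refine ⟨fun i => (((Quotient.out (e i) : 𝓞 N) : N) : Ω), hrN, hrr, ?_⟩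
  intro x hx hxV
  refine H19B.f2_roots2 V hq1 (fun i => (((Quotient.out (e i) : 𝓞 N) : N) : Ω)) (fun i => (hrN i).2) hrr ?_ x hxV ?_
  · intro i
    have h1 := hφ' _ (hrN i).2
    have h2 : φ (((Quotient.out (e i) : 𝓞 N) : N) : Ω) = (((Quotient.out (e i) : 𝓞 N) : N) : Ω) :=
      (IntermediateField.mem_fixingSubgroup_iff N φ).1 hφN _ (hrN i).1
    rw [h2] at h1
    exact h1
  · have h1 := hφ' x hxV
    rw [hx φ (mem_DN.2 ⟨hφN, hφD⟩)] at h1
    exact h1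

end H19C
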