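import Mathlib
import Pool.Agent.Lib.H19C.FU
import Pool.Agent.Lib.H19B.F6
import Pool.Agent.Lib.H19B.NC
import Pool.Agent.Lib.H13X.XG

/-! # H19C, chunk FA: the frame at the primes where the coefficients are the formal part -/

open NumberField IsDedekindDomain WeierstrassCurve

namespace H19C

open H55P (IQ Pt ac Dec Inert decS Nm)
open H35P (WAB Ker tt)
open H55K (Tor CMA Dta GV ak cj)
open H19B (DN mem_DN f6Fix f6_nrm f6_rep f6_pow f6_mod f6Hom tors_split exists_ch cyc_ch)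

variable {F : Type} [Field F] [NumberField F] [IQ F] {A B : F} {Om : ℂ} {Ω : Type} [Field Ω] [DecidableEq Ω]
  [Algebra F Ω] [IsAlgClosure F Ω] {j : Ω →+* ℂ} {act : 𝓞 F →+* AddMonoid.End (Pt (WAB A B) Ω)} {mo : Ideal (𝓞 F)}
  {ψ : Ideal (𝓞 F) →*₀ 𝓞 F} {p : ℕ} {V : ValuationSubring Ω} {π : 𝓞 F}

/-- The number of exponents. -/
theorem cnt_one {p e k : ℕ} (hp : 2 < p) (he : 0 < e) (S : Finset ℕ) (hk : k * (p - 1) < e * p) (hS : ∀ i ∈ S, i < k ∧ ¬ p ∣ i + 1) :
    S.card ≤ e := by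
  classical
  have hp1 : 0 < p - 1 := by omega
  obtain ⟨K, hK⟩ : ∃ K, K = (e * p - 1) / (p - 1) := ⟨_, rfl⟩
  have hep : 0 < e * p := Nat.mul_pos he (by omega)
  have h1 : K * (p - 1) ≤ e * p - 1 := by
    rw [hK]
    exact Nat.div_mul_le_self _ _
  have h2 : e * p ≤ (K + 1) * (p - 1) := by
    have h3 := Nat.lt_div_mul_add hp1 (a := e * p - 1)
    rw [← hK] at h3
    rw [add_mul, one_mul]
    omega
  have h3 := H19B.prod_count (q := 2) hp he (k := K) (by omega) h2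
  have hkK : k ≤ K := by
    rw [hK, Nat.le_div_iff_mul_le hp1]
    omega
  have h4 : ∏ i ∈ Finset.range K, (if p ∣ i + 1 then 1 else 2) = 2 ^ ((Finset.range K).filter (fun i => ¬ p ∣ i + 1)).card := by
    rw [Finset.prod_ite, Finset.prod_const_one, one_mul, Finset.prod_const]
  rw [h4] at h3
  have h5 := Nat.pow_right_injective le_rfl h3
  rw [← h5]
  refine Finset.card_le_card fun i hi => ?_
  obtain ⟨h6, h7⟩ := hS i hi
  rw [Finset.mem_filter, Finset.mem_range]
  exact ⟨by omega, h7⟩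

/-- THE FRAME, V(π) < 1. -/
theorem exists_frmA (dta : Dta A B Om j act mo ψ p) (hπ : Prime π) (hd : π ∣ (p : 𝓞 F)) (hs : ¬ π ∣ cj π)
    (hV : V.valuation (ak Ω π) < 1) (N : IntermediateField F Ω) [NumberField N] {v : HeightOneSpectrum (𝓞 N)}
    (hv : H13S.Abv N V v) {b : ℕ} (hb0 : 0 < b) (hb : v.valuation N (algebraMap F N (π : F)) = WithZero.exp (-(b : ℤ))) :
    ∃ X : Frm F Ω, X.p = p ∧ X.V = V ∧ X.q = Ideal.absNorm v.asIdeal ∧ X.b = b ∧ Of X act π N ∧ X.w ∈ N ∧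
      V.valuation (ak Ω π) = V.valuation X.w ^ b ∧
      (∀ y : Ω, y ≠ 0 → (∀ s ∈ N.fixingSubgroup, Inert V s → s y = y) → ∃ i : ℤ, V.valuation y = V.valuation X.w ^ i) ∧
      ∃ r : Fin (Ideal.absNorm v.asIdeal) → Ω, (∀ i, r i ∈ N ∧ V.valuation (r i) ≤ 1) ∧
        (∀ i i', i ≠ i' → V.valuation (r i - r i') = 1) ∧
        ∀ x : Ω, (∀ s ∈ DN N V, s x = x) → V.valuation x ≤ 1 → ∃ i, V.valuation (x - r i) < 1 := by
  classical
  have hal : Algebra.IsAlgebraic F Ω := IsAlgClosure.isAlgebraic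
  have hp := dta.prime
  have hpf : Fact p.Prime := ⟨hp⟩
  have hA := dta.cma
  obtain ⟨hpp, u, v₁, huv⟩ := tors_split hA hp dta.unr hπ hd hs
  have hπ' := H55K.cj_prime hπ
  have hd' : cj π ∣ (p : 𝓞 F) := ⟨π, by rw [mul_comm, hpp]⟩
  have hs' : ¬ cj π ∣ cj (cj π) := by
    rw [H55K.cj_dvd, H55K.cj_cj]
    exact hs
  have hle : ∀ x : 𝓞 F, V.valuation (ak Ω x) ≤ 1 := fun x => H55K.S.vo_le V x
  have hp0 : V.valuation (p : Ω) < 1 := by
    have e1 : (p : Ω) = ak Ω (p : 𝓞 F) := by simp [ak]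
    have e2 := H55K.S.vo_mul V π (cj π)
    rw [hpp] at e2
    rw [e1]
    refine lt_of_eq_of_lt e2 ?_
    exact mul_lt_one_of_nonneg_of_lt_one_left zero_le hV (hle _)
  have hc1 : V.valuation (ak Ω (cj π)) = 1 := H55K.S.vo_unit ⟨u, v₁, huv⟩ hV
  have hG : GV A B V := dta.good V hp0
  obtain ⟨w, hwN, hw0, hw1, hπw, hval⟩ := exists_unif2 N hv hb0 hb
  have hep : V.valuation (p : Ω) = V.valuation w ^ b := by
    have e1 : (p : Ω) = ak Ω (p : 𝓞 F) := by simp [ak]
    have e2 := H55K.S.vo_mul V π (cj π)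
    rw [hpp] at e2
    rw [e1]
    refine e2.trans ?_
    have e3 : H55K.S.vo V π = V.valuation w ^ b := hπw
    have e4 : H55K.S.vo V (cj π) = 1 := hc1
    rw [e3, e4, mul_one]
  obtain ⟨φ, hq1, hpq, hφD, hφ, r, hr1, hr2, hr3⟩ := exists_res2 hp hπ hd hV N hv
  obtain ⟨κ, hκ1, hκ2, hκ3, hκ4⟩ := exists_ch hA hp dta.unr hπ hd hs
  obtain ⟨η, hη1, hη2, hη3, hη4⟩ := exists_ch hA hp dta.unr hπ' hd' hs'
  have hac : IsAlgClosed Ω := IsAlgClosure.isAlgClosed F
  have hchar : CharZero Ω := charZero_of_injective_algebraMap (algebraMap F Ω).injective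
  have hn0 : NeZero p := ⟨hp.ne_zero⟩
  have hn1 : NeZero (p : Ω) := ⟨Nat.cast_ne_zero.2 hp.ne_zero⟩
  obtain ⟨ζ, hζ⟩ := HasEnoughRootsOfUnity.exists_primitiveRoot Ω p
  have hact : ∀ T : Pt (WAB A B) Ω, act (p : 𝓞 F) T = p • T := fun T => H55K.S.act_nat p T
  have hkp : ∀ T : Pt (WAB A B) Ω, act π T = 0 → p • T = 0 := fun T hT => by
    rw [← hact, ← hpp, mul_comm, H55K.S.act_mul, hT, map_zero]
  have hkp' : ∀ T : Pt (WAB A B) Ω, act (cj π) T = 0 → p • T = 0 := fun T hT => by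
    rw [← hact, ← hpp, H55K.S.act_mul, hT, map_zero]
  have hspl : ∀ T : Pt (WAB A B) Ω, p • T = 0 → act (v₁ * cj π) T + act (u * π) T = T ∧ act π (act (v₁ * cj π) T) = 0 ∧
      act (cj π) (act (u * π) T) = 0 := by
    intro T hT
    refine ⟨?_, ?_, ?_⟩
    · rw [← H55K.S.act_add, add_comm, huv, H55K.S.act_one]
    · rw [← H55K.S.act_mul]
      have e1 : π * (v₁ * cj π) = v₁ * (p : 𝓞 F) := by rw [← hpp]; ring
      rw [e1, H55K.S.act_mul, hact, hT, map_zero]
    · rw [← H55K.S.act_mul]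
      have e1 : cj π * (u * π) = u * (p : 𝓞 F) := by rw [← hpp]; ring
      rw [e1, H55K.S.act_mul, hact, hT, map_zero]
  let X : Frm F Ω :=
    { p := p
      q := Ideal.absNorm v.asIdeal
      e := b
      b := b
      Q := Ideal.absNorm v.asIdeal ^ (p - 1)
      G := fun _ => True
      V := V
      D := DN N V
      E := f6Fix (DN N V) (fun T : Pt (WAB A B) Ω => act (cj π) T = 0)
      C := f6Fix (DN N V) (fun T : Pt (WAB A B) Ω => p • T = 0)
      w := w
      φ := φ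
      ζ := ζ
      om := fun s => κ s * η s
      et := η }
  have hCE : ∀ s ∈ X.E, κ s = 1 ↔ s ∈ X.C := by
    intro s hsE
    rw [hκ4 s]
    constructor
    · intro hk
      refine ⟨hsE.1, fun T hT => ?_⟩
      obtain ⟨h1, h2, h3⟩ := hspl T hT
      have h4 := hk _ h2
      have h5 := hsE.2 _ h3
      have h6 : ac (WAB A B) s (act (v₁ * cj π) T + act (u * π) T) = act (v₁ * cj π) T + act (u * π) T := by
        rw [map_add, h4, h5]
      rwa [h1] at h6
    · intro hC T hT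
      exact hC.2 T (hkp T hT)
  have hη1' : ∀ s ∈ X.E, η s = 1 := fun s hsE => (hη4 s).2 hsE.2
  have hle1 : X.C ≤ X.E := fun s hsC => ⟨hsC.1, fun T hT => hsC.2 T (hkp' T hT)⟩
  have hφf : ∀ i, φ (r i) = r i := fun i =>
    (IntermediateField.mem_fixingSubgroup_iff N φ).1 (mem_DN.1 hφD).1 (r i) (hr1 i).1
  have hOk : X.Ok := by
    refine
      { pr := hp
        odd := lt_of_lt_of_le (by norm_num) dta.five
        dec := fun s hs => (mem_DN.1 hs).2
        inv := fun s hs x => H13X.Dec.val (mem_DN.1 hs).2 x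
        le1 := hle1
        le2 := fun s hs => hs.1
        nrm1 := fun s hs t ht => f6_nrm (fun s _ T hT => by rw [← map_nsmul, hT, map_zero]) hs ht
        nrm2 := fun s hs t ht => f6_nrm (fun s _ T hT => by rw [← hA.gal, hT, map_zero]) hs ht
        rep := f6_rep hp κ hκ2 hκ3 X.C X.E hCE
        fw := fun s hs => (IntermediateField.mem_fixingSubgroup_iff N s).1 (mem_DN.1 hs.1).1 w hwN
        w0 := hw0
        w1 := hw1
        val := fun x hx0 hx => hval x hx0 fun s hsN hsI => hx s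
          ⟨mem_DN.2 ⟨hsN, H55P.inert_dec V s hsI⟩, fun T hT => H13X.inert_tors hA hG hc1 hsI (H55K.S.mem_Tor.2 hT)⟩
        e0 := hb0
        ep := hep
        q0 := hq1
        Qp := hpq.trans (dvd_pow_self _ (Nat.sub_pos_of_lt hp.one_lt).ne')
        Q0 := pow_pos (lt_trans zero_lt_one hq1) _
        res := ?_
        phi := hφD
        fro := hφ
        prim := hζ
        zD := fun s _ => cyc_ch dta hπ hd hs hζ hκ1 hη1 s
        om1 := fun s hsC => by
          show κ s * η s = 1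
          rw [(hCE s (hle1 hsC)).2 hsC, hη1' s (hle1 hsC), one_mul]
        et1 := hη1'
        lev := fun i hi => absurd trivial hi
        cnt := fun k S hk hS => cnt_one (lt_of_lt_of_le (by norm_num) dta.five) hb0 S hk fun i hi => ⟨(hS i hi).1, (hS i hi).2.1⟩ }
    · intro x hx hxE
      have h1 : φ ^ (p - 1) ∈ X.E := by
        refine ⟨(DN N V).pow_mem hφD _, (hη4 _).1 ?_⟩
        have h2 : η (φ ^ (p - 1)) = η φ ^ (p - 1) := map_pow (f6Hom hp η hη2 hη3) φ (p - 1)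
        rw [h2]
        exact ZMod.pow_card_sub_one_eq_one (hη3 φ)
      have h3 := f6_pow hφ (mem_DN.1 hφD).2 hx (p - 1)
      rw [hxE _ h1] at h3
      rw [← neg_sub, Valuation.map_neg]
      exact h3
  refine ⟨X, rfl, rfl, rfl, rfl, ?_, hwN, hπw, hval, r, hr1, hr2, hr3⟩
  exact
    { ok := hOk
      D := rfl
      E := fun s => Iff.rfl
      C := fun s => Iff.rfl
      ch := fun s _ T hT => by
        show (η s).val • ac (WAB A B) s T = (κ s * η s).val • T
        rw [hκ1 s T hT, ZMod.val_mul, f6_mod (hkp T hT), mul_nsmul]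
      ch' := fun s _ T hT => hη1 s T hT }

end H19C
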