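import Mathlib
import Pool.Agent.Lib.H19C.D2
import Pool.Agent.Lib.H19B.R1

/-! # H19C, chunk LV: the levels of a tamely ramified eigenspace -/

open NumberField IsDedekindDomain WeierstrassCurve

namespace H19C

open H55P (Dec Inert)
open H19B (Rep rep_sum)

/-- The number of exponents in a residue class. -/
theorem cnt_ram {p d b r e k : ℕ} (hp : 2 < p) (hd0 : 0 < d) (hd : d ∣ p - 1) (he : e = d * b) (hr : r * (p - 1) = e) (S : Finset ℕ)
    (hk : k * (p - 1) < e * p) (hS : ∀ i ∈ S, i < k ∧ ¬ p ∣ i + 1 ∧ (i + 1) % d = r % d) : S.card ≤ b := by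
  classical
  obtain ⟨m, hm⟩ := hd
  have hp1 : 0 < p - 1 := by omega
  have hp0 : 0 < p := by omega
  have hb : b = r * m := by
    have h1 : d * b = d * (r * m) := by
      rw [← he, ← hr, hm]
      ring
    exact Nat.eq_of_mul_eq_mul_left hd0 h1
  have hlt : ∀ i ∈ S, i + 1 < r * p := by
    intro i hi
    have h1 := (hS i hi).1
    have h2 : (i + 1) * (p - 1) ≤ k * (p - 1) := Nat.mul_le_mul_right _ h1
    have h3 : (i + 1) * (p - 1) < r * p * (p - 1) := by
      refine lt_of_le_of_lt h2 (lt_of_lt_of_eq hk ?_)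
      rw [← hr]
      ring
    exact Nat.lt_of_mul_lt_mul_right h3
  have hcard : (Finset.range r ×ˢ Finset.range m).card = b := by
    rw [Finset.card_product, Finset.card_range, Finset.card_range, hb]
  rw [← hcard]
  refine Finset.card_le_card_of_injOn (fun i => ((i + 1) / p, ((i + 1) % p - 1) / d)) ?_ ?_
  · intro i hi
    have hi' := Finset.mem_coe.1 hi
    rw [Finset.mem_coe, Finset.mem_product, Finset.mem_range, Finset.mem_range]
    have h1 := hlt i hi'
    have h2 := (hS i hi').2.1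
    have h3 : 0 < (i + 1) % p := Nat.pos_of_ne_zero fun h => h2 (Nat.dvd_of_mod_eq_zero h)
    have h4 : (i + 1) % p < p := Nat.mod_lt _ hp0
    refine ⟨(Nat.div_lt_iff_lt_mul hp0).2 h1, ?_⟩
    show ((i + 1) % p - 1) / d < m
    rw [Nat.div_lt_iff_lt_mul hd0, mul_comm, ← hm]
    omega
  · intro i hi i' hi' h
    have hi1 := Finset.mem_coe.1 hi
    have hi2 := Finset.mem_coe.1 hi'
    obtain ⟨h1, h2⟩ := Prod.mk.inj h
    have a1 := (hS i hi1).2
    have a2 := (hS i' hi2).2
    have b1 : 0 < (i + 1) % p := Nat.pos_of_ne_zero fun h => a1.1 (Nat.dvd_of_mod_eq_zero h)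
    have b2 : 0 < (i' + 1) % p := Nat.pos_of_ne_zero fun h => a2.1 (Nat.dvd_of_mod_eq_zero h)
    have hpd : p % d = 1 % d := by
      have h5 : p = 1 + d * m := by omega
      rw [h5, Nat.add_mul_mod_self_left]
    -- the residues modulo p agree modulo d
    have c1 : ∀ n : ℕ, n % d = (n / p + n % p) % d := by
      intro n
      conv_lhs => rw [← Nat.div_add_mod n p]
      rw [Nat.add_mod, Nat.mul_mod, hpd, ← Nat.mul_mod, one_mul, ← Nat.add_mod]
    have c2 : ((i + 1) / p + (i + 1) % p) % d = ((i' + 1) / p + (i' + 1) % p) % d := by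
      rw [← c1, ← c1, a1.2, a2.2]
    rw [h1] at c2
    have c3 : (i + 1) % p % d = (i' + 1) % p % d := Nat.ModEq.add_left_cancel' _ c2
    have c4 : ((i + 1) % p - 1) % d = ((i' + 1) % p - 1) % d := by
      have e1 : (i + 1) % p = 1 + ((i + 1) % p - 1) := by omega
      have e2 : (i' + 1) % p = 1 + ((i' + 1) % p - 1) := by omega
      rw [e1, e2] at c3
      exact Nat.ModEq.add_left_cancel' _ c3
    have c5 : (i + 1) % p - 1 = (i' + 1) % p - 1 := by
      rw [← Nat.div_add_mod ((i + 1) % p - 1) d, ← Nat.div_add_mod ((i' + 1) % p - 1) d, h2, c4]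
    have c6 : (i + 1) % p = (i' + 1) % p := by omega
    have c7 : i + 1 = i' + 1 := by
      rw [← Nat.div_add_mod (i + 1) p, ← Nat.div_add_mod (i' + 1) p, h1, c6]
    omega

variable {F : Type} [Field F] {Ω : Type} [Field Ω] [Algebra F Ω] {V : ValuationSubring Ω}

theorem lv_one {θ : Ω} {V : ValuationSubring Ω} (h : V.valuation θ = 1) (j : ℕ) : V.valuation (θ ^ j) = 1 := by
  rw [map_pow, h, one_pow]

/-- If the inertia group acts trivially on the j-th power of the uniformizer, modulo the maximal ideal, then j is divisible by the ramification index. -/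
theorem lev_dvd {p : ℕ} (hp : p.Prime) (hV : V.valuation (p : Ω) < 1) {I J : Subgroup (Ω ≃ₐ[F] Ω)} {S : Finset (Ω ≃ₐ[F] Ω)}
    (hS : Rep J I S) (hSp : ¬ p ∣ S.card) {w w₁ : Ω} (w0 : w ≠ 0) (w1 : V.valuation w < 1)
    (hJ : ∀ s ∈ J, s w = w) {d : ℕ} (hd : V.valuation w₁ = V.valuation w ^ d)
    (hval : ∀ y : Ω, y ≠ 0 → (∀ s ∈ I, s y = y) → ∃ i : ℤ, V.valuation y = V.valuation w₁ ^ i) {j : ℕ}
    (hj : ∀ s ∈ I, V.valuation ((s w / w) ^ j - 1) < 1) : d ∣ j := by
  classical
  -- the sum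
  obtain ⟨y, hy⟩ : ∃ y : Ω, y = ∑ s ∈ S, s (w ^ j) := ⟨_, rfl⟩
  have hfix : ∀ g ∈ I, g y = y := by
    intro g hg
    have h1 := rep_sum hS (fun s : Ω ≃ₐ[F] Ω => s (w ^ j)) (fun s _ t ht => by
      show (s * t) (w ^ j) = s (w ^ j)
      rw [AlgEquiv.mul_apply, map_pow t, hJ t ht]) g hg
    rw [hy, map_sum]
    exact h1
  have hwj : w ^ j ≠ 0 := pow_ne_zero _ w0
  have hye : y = w ^ j * ∑ s ∈ S, (s w / w) ^ j := by
    rw [hy, Finset.mul_sum]
    refine Finset.sum_congr rfl fun s _ => ?_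
    rw [map_pow, div_pow, mul_div_cancel₀ _ hwj]
  -- the sum is congruent to card S
  have hsum : V.valuation (∑ s ∈ S, (s w / w) ^ j - (S.card : Ω)) < 1 := by
    have h1 : ∑ s ∈ S, (s w / w) ^ j - (S.card : Ω) = ∑ s ∈ S, ((s w / w) ^ j - 1) := by
      rw [Finset.sum_sub_distrib, Finset.sum_const, nsmul_eq_mul, mul_one]
    rw [h1]
    exact Valuation.map_sum_lt _ one_ne_zero fun s hs => hj s (hS.mem s hs)
  have hcard : V.valuation (S.card : Ω) = 1 := by
    have hle : V.valuation (S.card : Ω) ≤ 1 := (V.valuation_le_one_iff _).2 (natCast_mem V _)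
    refine le_antisymm hle (not_lt.1 fun hlt => ?_)
    have hcop : Nat.Coprime S.card p := ((Nat.Prime.coprime_iff_not_dvd hp).2 hSp).symm
    obtain ⟨x, z, hxz⟩ := (Int.isCoprime_iff_gcd_eq_one.2 (show Int.gcd (S.card : ℤ) (p : ℤ) = 1 by
      rw [Int.gcd_natCast_natCast]; exact hcop))
    have h1 : (1 : Ω) = (x : Ω) * (S.card : Ω) + (z : Ω) * (p : Ω) := by
      have := congrArg (fun t : ℤ => (t : Ω)) hxz
      push_cast at this
      exact this.symm
    have h2 : V.valuation (1 : Ω) < 1 := by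
      rw [h1]
      refine V.valuation.map_add_lt ?_ ?_
      · rw [map_mul, mul_comm]
        exact mul_lt_one_of_lt_of_le hlt ((V.valuation_le_one_iff _).2 (intCast_mem V x))
      · rw [map_mul, mul_comm]
        exact mul_lt_one_of_lt_of_le hV ((V.valuation_le_one_iff _).2 (intCast_mem V z))
    rw [map_one] at h2
    exact lt_irrefl _ h2
  have hsum1 : V.valuation (∑ s ∈ S, (s w / w) ^ j) = 1 := by
    have h1 : ∑ s ∈ S, (s w / w) ^ j = (∑ s ∈ S, (s w / w) ^ j - (S.card : Ω)) + (S.card : Ω) := by ring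
    rw [h1, Valuation.map_add_eq_of_lt_right _ (lt_of_lt_of_eq hsum hcard.symm), hcard]
  have hyv : V.valuation y = V.valuation w ^ j := by
    rw [hye, map_mul, hsum1, mul_one, map_pow]
  have hw0 : V.valuation w ≠ 0 := (map_ne_zero _).2 w0
  have hy0 : y ≠ 0 := by
    intro h
    rw [h, map_zero] at hyv
    exact pow_ne_zero _ hw0 hyv.symm
  obtain ⟨i, hi⟩ := hval y hy0 hfix
  rw [hyv, hd, ← zpow_natCast, ← zpow_natCast, ← zpow_mul] at hi
  have hinj : (j : ℤ) = (d : ℤ) * i := (zpow_right_strictAnti₀ (zero_lt_iff.2 hw0) w1).injective hi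
  exact Int.natCast_dvd_natCast.1 ⟨i, hinj⟩

end H19C
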