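import Mathlib
import Pool.Agent.Lib.H19C.FA
import Pool.Agent.Lib.H19C.LV
import Pool.Agent.Lib.H55K.G5D
import Pool.Agent.Lib.H55K.K2A
import Pool.Agent.Lib.H13X.XKB2
import Pool.Agent.Lib.H13X.XNB

/-! # H19C, chunk FB: the frame at the primes where the coefficients are the etale part -/

open NumberField IsDedekindDomain WeierstrassCurve

namespace H19C

open H55P (IQ Pt ac Dec Inert decS Nm)
open H35P (WAB Ker tt)
open H55K (Tor CMA Dta GV ak cj)
open H19B (DN mem_DN f6Fix f6_nrm f6_rep f6_pow f6_mod f6Hom tors_split exists_ch cyc_ch)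

section lv

variable {F : Type} [Field F] {Ω : Type} [Field Ω] [Algebra F Ω] {V : ValuationSubring Ω}

/-- Powers of an inertia element and the uniformizer. -/
theorem lv_pow {s : Ω ≃ₐ[F] Ω} (hi : Inert V s) (hv : ∀ x : Ω, V.valuation (s x) = V.valuation x) {w : Ω} (w0 : w ≠ 0) (k : ℕ) :
    V.valuation ((s ^ k) w / w - (s w / w) ^ k) < 1 ∧ V.valuation ((s ^ k) w / w) = 1 := by
  have hw0 : V.valuation w ≠ 0 := (map_ne_zero _).2 w0
  have h1 : V.valuation (s w / w) = 1 := by rw [map_div₀, hv, div_self hw0]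
  induction k with
  | zero =>
    rw [pow_zero, pow_zero, AlgEquiv.one_apply, div_self w0, sub_self, map_zero, map_one]
    exact ⟨zero_lt_one, rfl⟩
  | succ k ih =>
    have e1 : (s ^ (k + 1)) w / w = s ((s ^ k) w / w) * (s w / w) := by
      rw [pow_succ' s k, AlgEquiv.mul_apply, map_div₀]
      have h2 : s w ≠ 0 := (map_ne_zero s).2 w0
      field_simp
    have h3 : V.valuation (s ((s ^ k) w / w) - (s ^ k) w / w) < 1 := by
      refine hi _ ?_
      rw [← V.valuation_le_one_iff, ih.2]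
    constructor
    · have e2 : (s ^ (k + 1)) w / w - (s w / w) ^ (k + 1) =
          (s w / w) * ((s ((s ^ k) w / w) - (s ^ k) w / w) + ((s ^ k) w / w - (s w / w) ^ k)) := by
        rw [e1, pow_succ]
        ring
      rw [e2, map_mul, h1, one_mul]
      exact V.valuation.map_add_lt h3 ih.1
    · rw [e1, map_mul, hv, ih.2, h1, one_mul]

end lv

variable {F : Type} [Field F] [NumberField F] [IQ F] {A B : F} {Om : ℂ} {Ω : Type} [Field Ω] [DecidableEq Ω]
  [Algebra F Ω] [IsAlgClosure F Ω] {j : Ω →+* ℂ} {act : 𝓞 F →+* AddMonoid.End (Pt (WAB A B) Ω)} {mo : Ideal (𝓞 F)}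
  {ψ : Ideal (𝓞 F) →*₀ 𝓞 F} {p : ℕ} {V : ValuationSubring Ω} {π : 𝓞 F}

theorem fb_pow {w : Ω} (w0 : w ≠ 0) (w1 : V.valuation w < 1) {a b : ℕ} (h : V.valuation w ^ a = V.valuation w ^ b) : a = b := by
  have hw0 : V.valuation w ≠ 0 := (map_ne_zero _).2 w0
  rw [← zpow_natCast, ← zpow_natCast] at h
  have h1 := (zpow_right_strictAnti₀ (zero_lt_iff.2 hw0) w1).injective h
  exact_mod_cast h1

/-- A value less than 1 is a positive power. -/
theorem fb_pos {w x : Ω} (w0 : w ≠ 0) (w1 : V.valuation w < 1) (hx : V.valuation x < 1) {i : ℤ} (h : V.valuation x = V.valuation w ^ i) :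
    ∃ d : ℕ, 0 < d ∧ V.valuation x = V.valuation w ^ d := by
  have hw0 : 0 < V.valuation w := zero_lt_iff.2 ((map_ne_zero _).2 w0)
  rcases le_or_gt i 0 with hi | hi
  · exfalso
    obtain ⟨n, hn⟩ : ∃ n : ℕ, i = -(n : ℤ) := ⟨i.natAbs, by omega⟩
    rw [hn, zpow_neg, zpow_natCast] at h
    rw [h] at hx
    exact absurd hx (not_lt.2 ((one_le_inv₀ (pow_pos hw0 n)).2 (pow_le_one₀ zero_le' w1.le)))
  · obtain ⟨e, he⟩ := Int.eq_ofNat_of_zero_le hi.le
    refine ⟨e, by omega, ?_⟩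
    rw [h, he, zpow_natCast]

/-- D acts on the parameter of a point in the kernel through et. -/
theorem fb_tt (h : CMA F A B Om j act) (hG : GV A B V) {T : Pt (WAB A B) Ω} (hT : Ker V T) (h0 : tt T ≠ 0) {s : Ω ≃ₐ[F] Ω} {a : ℕ}
    (ha : ac (WAB A B) s T = a • T) : V.valuation (s (tt T) / tt T - (a : Ω)) < 1 := by
  have hv : V.valuation (tt T) ≠ 0 := (map_ne_zero _).2 h0
  have h1 := H55K.tt_act h hG (a : 𝓞 F) hT
  rw [H55K.S.act_nat, ← ha, H55K.S.tt_ac] at h1
  have h2 : ak Ω ((a : ℕ) : 𝓞 F) = (a : Ω) := by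
    unfold ak
    simp
  rw [h2] at h1
  have h3 : s (tt T) / tt T - (a : Ω) = (s (tt T) - (a : Ω) * tt T) / tt T := by
    rw [sub_div, mul_div_cancel_right₀ _ h0]
  rw [h3, map_div₀, div_lt_one₀ (zero_lt_iff.2 hv)]
  refine lt_of_le_of_lt h1 ?_
  rw [sq]
  calc V.valuation (tt T) * V.valuation (tt T) < 1 * V.valuation (tt T) :=
        mul_lt_mul_of_pos_right (H55K.ttlt hG hT) (zero_lt_iff.2 hv)
    _ = V.valuation (tt T) := one_mul _

/-- THE FRAME, V(cj π) < 1. -/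
theorem exists_frmB (dta : Dta A B Om j act mo ψ p) (hπ : Prime π) (hd : π ∣ (p : 𝓞 F)) (hs : ¬ π ∣ cj π)
    (hV : V.valuation (ak Ω (cj π)) < 1) (N : IntermediateField F Ω) [NumberField N] {v : HeightOneSpectrum (𝓞 N)}
    (hv : H13S.Abv N V v) {b : ℕ} (hb0 : 0 < b) (hb : v.valuation N (algebraMap F N ((cj π : 𝓞 F) : F)) = WithZero.exp (-(b : ℤ))) :
    ∃ X : Frm F Ω, X.p = p ∧ X.V = V ∧ X.q = Ideal.absNorm v.asIdeal ∧ X.b = b ∧ Of X act π N := by
  classical
  have hal : Algebra.IsAlgebraic F Ω := IsAlgClosure.isAlgebraic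
  have hp := dta.prime
  have hpf : Fact p.Prime := ⟨hp⟩
  have hA := dta.cma
  obtain ⟨hpp, u, v₁, huv⟩ := tors_split hA hp dta.unr hπ hd hs
  have hπ' := H55K.cj_prime hπ
  have hd' : cj π ∣ (p : 𝓞 F) := ⟨π, by rw [mul_comm, hpp]⟩
  have hs' : ¬ cj π ∣ cj (cj π) := by
    rw [H55K.cj_dvd, H55K.cj_cj]
    exact hs
  have hle : ∀ x : 𝓞 F, V.valuation (ak Ω x) ≤ 1 := fun x => H55K.S.vo_le V x
  have hVπ : V.valuation (ak Ω π) = 1 := H55K.S.vo_unit (π := cj π) ⟨v₁, u, by rw [add_comm]; exact huv⟩ hV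
  have hpV : V.valuation (p : Ω) = V.valuation (ak Ω (cj π)) := by
    have e1 : (p : Ω) = ak Ω (p : 𝓞 F) := by simp [ak]
    have e2 := H55K.S.vo_mul V π (cj π)
    rw [hpp] at e2
    rw [e1]
    refine e2.trans ?_
    have e3 : H55K.S.vo V π = 1 := hVπ
    rw [e3, one_mul]
  have hp0 : V.valuation (p : Ω) < 1 := hpV.trans_lt hV
  have hG : GV A B V := dta.good V hp0
  obtain ⟨w₁, hw₁N, hw₁0, hw₁1, hπw, hval⟩ := exists_unif2 (π := cj π) N hv hb0 hb
  obtain ⟨φ, hq1, hpq, hφD, hφ, -⟩ := exists_res2 (π := cj π) hp hπ' hd' hV N hv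
  obtain ⟨κ, hκ1, hκ2, hκ3, hκ4⟩ := exists_ch hA hp dta.unr hπ hd hs
  obtain ⟨η, hη1, hη2, hη3, hη4⟩ := exists_ch hA hp dta.unr hπ' hd' hs'
  have hac : IsAlgClosed Ω := IsAlgClosure.isAlgClosed F
  have hchar : CharZero Ω := charZero_of_injective_algebraMap (algebraMap F Ω).injective
  have hn0 : NeZero p := ⟨hp.ne_zero⟩
  have hn1 : NeZero (p : Ω) := ⟨Nat.cast_ne_zero.2 hp.ne_zero⟩
  obtain ⟨ζ, hζ⟩ := HasEnoughRootsOfUnity.exists_primitiveRoot Ω p
  have hact : ∀ T : Pt (WAB A B) Ω, act (p : 𝓞 F) T = p • T := fun T => H55K.S.act_nat p T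
  have hkp : ∀ T : Pt (WAB A B) Ω, act π T = 0 → p • T = 0 := fun T hT => by
    rw [← hact, ← hpp, mul_comm, H55K.S.act_mul, hT, map_zero]
  have hkp' : ∀ T : Pt (WAB A B) Ω, act (cj π) T = 0 → p • T = 0 := fun T hT => by
    rw [← hact, ← hpp, H55K.S.act_mul, hT, map_zero]
  have hspl : ∀ T : Pt (WAB A B) Ω, p • T = 0 → act (v₁ * cj π) T + act (u * π) T = T ∧ act π (act (v₁ * cj π) T) = 0 ∧
      act (cj π) (act (u * π) T) = 0 := by
    intro T hT
    refine ⟨?_, ?_, ?_⟩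
    · rw [← H55K.S.act_add, add_comm, huv, H55K.S.act_one]
    · rw [← H55K.S.act_mul]
      have e1 : π * (v₁ * cj π) = v₁ * (p : 𝓞 F) := by rw [← hpp]; ring
      rw [e1, H55K.S.act_mul, hact, hT, map_zero]
    · rw [← H55K.S.act_mul]
      have e1 : cj π * (u * π) = u * (p : 𝓞 F) := by rw [← hpp]; ring
      rw [e1, H55K.S.act_mul, hact, hT, map_zero]
  -- the field of the points killed by cj π
  have hNf : FiniteDimensional F N := H13X.yn1_fin N
  obtain ⟨L, hL⟩ := H13X.exists_TB hA (cj π) hπ' N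
  have hLf : FiniteDimensional F L := hL.fin
  have hLn : NumberField L := NumberField.of_module_finite F L
  obtain ⟨w, e, hwL, hw0, hw1, he0, hep, hvalL⟩ := H19B.exists_unif hp hp0 L
  have hLfix : ∀ s : Ω ≃ₐ[F] Ω, s ∈ L.fixingSubgroup ↔
      s ∈ N.fixingSubgroup ∧ ∀ T : Pt (WAB A B) Ω, act (cj π) T = 0 → ac (WAB A B) s T = T := hL.fix
  obtain ⟨i₁, hi₁⟩ := hvalL w₁ hw₁0 (fun s hsL _ =>
    (IntermediateField.mem_fixingSubgroup_iff N s).1 ((hLfix s).1 hsL).1 w₁ hw₁N)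
  obtain ⟨d, hd0, hdw⟩ := fb_pos hw0 hw1 hw₁1 hi₁
  have hedb : e = d * b := by
    refine fb_pow hw0 hw1 ?_
    rw [← hep, hpV, hπw, hdw, pow_mul]
  -- a point killed by cj π
  obtain ⟨T₀, hT₀, hT₀0⟩ := H55K.exists_tor hA hπ'
  obtain ⟨hT₀K, hT₀v⟩ := H55K.tor_ram hA hG hπ' hV hT₀ hT₀0
  have hNm : Nm (cj π) = p := (H19B.f3_split hp dta.unr hπ' hd' hs').1
  rw [hNm] at hT₀v
  have hp1 : 0 < p - 1 := Nat.sub_pos_of_lt hp.one_lt
  have ht0 : (tt T₀ : Ω) ≠ 0 := by
    intro h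
    rw [h, map_zero, zero_pow hp1.ne'] at hT₀v
    have h1 : (p : Ω) ≠ 0 := Nat.cast_ne_zero.2 hp.ne_zero
    exact (map_ne_zero V.valuation).2 h1 (hpV.trans hT₀v.symm)
  obtain ⟨i₂, hi₂⟩ := hvalL (tt T₀) ht0 (fun s hsL _ => by
    rw [← H55K.S.tt_ac (W := WAB A B), ((hLfix s).1 hsL).2 T₀ hT₀])
  obtain ⟨r, hr0, hrw⟩ := fb_pos hw0 hw1 (H55K.ttlt hG hT₀K) hi₂
  have hre : r * (p - 1) = e := by
    refine fb_pow hw0 hw1 ?_
    rw [pow_mul, ← hrw, hT₀v, ← hpV, hep]
  have hw0v : V.valuation w ≠ 0 := (map_ne_zero _).2 hw0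
  let X : Frm F Ω :=
    { p := p
      q := Ideal.absNorm v.asIdeal
      e := e
      b := b
      Q := Ideal.absNorm v.asIdeal ^ (p - 1)
      G := fun i => i % d = r % d
      V := V
      D := DN N V
      E := f6Fix (DN N V) (fun T : Pt (WAB A B) Ω => act (cj π) T = 0)
      C := f6Fix (DN N V) (fun T : Pt (WAB A B) Ω => p • T = 0)
      w := w
      φ := φ
      ζ := ζ
      om := fun s => κ s * η s
      et := η }
  have hEL : ∀ s ∈ X.E, s ∈ L.fixingSubgroup := fun s hsE => (hLfix s).2 ⟨(mem_DN.1 hsE.1).1, hsE.2⟩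
  have hwE : ∀ s ∈ X.E, s w = w := fun s hsE => (IntermediateField.mem_fixingSubgroup_iff L s).1 (hEL s hsE) w hwL
  have hCE : ∀ s ∈ X.E, κ s = 1 ↔ s ∈ X.C := by
    intro s hsE
    rw [hκ4 s]
    constructor
    · intro hk
      refine ⟨hsE.1, fun T hT => ?_⟩
      obtain ⟨h1, h2, h3⟩ := hspl T hT
      have h4 := hk _ h2
      have h5 := hsE.2 _ h3
      have h6 : ac (WAB A B) s (act (v₁ * cj π) T + act (u * π) T) = act (v₁ * cj π) T + act (u * π) T := by
        rw [map_add, h4, h5]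
      rwa [h1] at h6
    · intro hC T hT
      exact hC.2 T (hkp T hT)
  have hη1' : ∀ s ∈ X.E, η s = 1 := fun s hsE => (hη4 s).2 hsE.2
  have hle1 : X.C ≤ X.E := fun s hsC => ⟨hsC.1, fun T hT => hsC.2 T (hkp' T hT)⟩
  -- the inertia group
  let I : Subgroup (Ω ≃ₐ[F] Ω) := DN N V ⊓ H55P.inS F V
  obtain ⟨S, hS, hSp⟩ := f6_rep hp η hη2 hη3 (I ⊓ X.E) I (fun s hsI => by
    rw [hη4 s]
    exact ⟨fun h1 => ⟨hsI, hsI.1, h1⟩, fun h1 => h1.2.2⟩)
  have hdv : ∀ s ∈ DN N V, ∀ x : Ω, V.valuation (s x) = V.valuation x := fun s hs x => H13X.Dec.val (mem_DN.1 hs).2 x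
  have hθ1 : ∀ s ∈ DN N V, V.valuation (s w / w) = 1 := fun s hs => by rw [map_div₀, hdv s hs, div_self hw0v]
  have hlev : ∀ i : ℕ, (∀ s ∈ I, V.valuation ((s w / w) ^ i - 1) < 1) → d ∣ i := by
    intro i hi
    exact lev_dvd hp hp0 hS hSp hw0 hw1 (fun s hs => hwE s hs.2) hdw
      (fun y hy hfix => hval y hy fun s hsN hsI => hfix s ⟨mem_DN.2 ⟨hsN, H55P.inert_dec V s hsI⟩, hsI⟩) hi
  have hdp : d ∣ p - 1 := by
    refine hlev _ fun s hs => ?_
    have h1 : s ^ (p - 1) ∈ X.E := by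
      refine ⟨(DN N V).pow_mem hs.1 _, (hη4 _).1 ?_⟩
      have h2 : η (s ^ (p - 1)) = η s ^ (p - 1) := map_pow (f6Hom hp η hη2 hη3) s (p - 1)
      rw [h2]
      exact ZMod.pow_card_sub_one_eq_one (hη3 s)
    have h2 := (lv_pow (V := V) hs.2 (hdv s hs.1) hw0 (p - 1)).1
    rw [hwE _ h1, div_self hw0] at h2
    rw [← neg_sub, Valuation.map_neg]
    exact h2
  -- the inertia group acts on w ^ r through η
  have hθr : ∀ s ∈ I, V.valuation ((s w / w) ^ r - ((η s).val : Ω)) < 1 := by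
    intro s hs
    have h1 := fb_tt hA hG hT₀K ht0 (hη1 s T₀ hT₀)
    have hwr : w ^ r ≠ 0 := pow_ne_zero _ hw0
    obtain ⟨y, hy⟩ : ∃ y : Ω, y = tt T₀ / w ^ r := ⟨_, rfl⟩
    have hy1 : V.valuation y = 1 := by
      rw [hy, map_div₀, map_pow, hrw, div_self (pow_ne_zero _ hw0v)]
    have hy0 : y ≠ 0 := fun h => by rw [h, map_zero] at hy1; exact zero_ne_one hy1
    have h2 : V.valuation (s y - y) < 1 := hs.2 y ((V.valuation_le_one_iff _).1 hy1.le)
    have h3 : tt T₀ = y * w ^ r := by rw [hy, div_mul_cancel₀ _ hwr]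
    have h4 : s (tt T₀) / tt T₀ = (s w / w) ^ r + ((s y - y) / y) * (s w / w) ^ r := by
      rw [h3, map_mul, map_pow, div_pow]
      field_simp
      ring
    have h5 : (s w / w) ^ r - ((η s).val : Ω) = (s (tt T₀) / tt T₀ - ((η s).val : Ω)) - ((s y - y) / y) * (s w / w) ^ r := by
      rw [h4]
      ring
    rw [h5]
    refine V.valuation.map_sub_lt h1 ?_
    rw [map_mul, map_div₀, hy1, div_one, map_pow, hθ1 s hs.1, one_pow, mul_one]
    exact h2
  have hOk : X.Ok := by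
    refine
      { pr := hp
        odd := lt_of_lt_of_le (by norm_num) dta.five
        dec := fun s hs => (mem_DN.1 hs).2
        inv := hdv
        le1 := hle1
        le2 := fun s hs => hs.1
        nrm1 := fun s hs t ht => f6_nrm (fun s _ T hT => by rw [← map_nsmul, hT, map_zero]) hs ht
        nrm2 := fun s hs t ht => f6_nrm (fun s _ T hT => by rw [← hA.gal, hT, map_zero]) hs ht
        rep := f6_rep hp κ hκ2 hκ3 X.C X.E hCE
        fw := hwE
        w0 := hw0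
        w1 := hw1
        val := fun x hx0 hx => hvalL x hx0 fun s hsL hsI => hx s
          ⟨mem_DN.2 ⟨((hLfix s).1 hsL).1, H55P.inert_dec V s hsI⟩, ((hLfix s).1 hsL).2⟩
        e0 := he0
        ep := hep
        q0 := hq1
        Qp := hpq.trans (dvd_pow_self _ hp1.ne')
        Q0 := pow_pos (lt_trans zero_lt_one hq1) _
        res := ?_
        phi := hφD
        fro := hφ
        prim := hζ
        zD := fun s _ => cyc_ch dta hπ hd hs hζ hκ1 hη1 s
        om1 := fun s hsC => by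
          show κ s * η s = 1
          rw [(hCE s (hle1 hsC)).2 hsC, hη1' s (hle1 hsC), one_mul]
        et1 := hη1'
        lev := ?_
        cnt := fun k S hk hS => cnt_ram (lt_of_lt_of_le (by norm_num) dta.five) hd0 hdp hedb hre S hk hS }
    · intro x hx hxE
      have h1 : φ ^ (p - 1) ∈ X.E := by
        refine ⟨(DN N V).pow_mem hφD _, (hη4 _).1 ?_⟩
        have h2 : η (φ ^ (p - 1)) = η φ ^ (p - 1) := map_pow (f6Hom hp η hη2 hη3) φ (p - 1)
        rw [h2]
        exact ZMod.pow_card_sub_one_eq_one (hη3 φ)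
      have h3 := f6_pow hφ (mem_DN.1 hφD).2 hx (p - 1)
      rw [hxE _ h1] at h3
      rw [← neg_sub, Valuation.map_neg]
      exact h3
    · intro i hi
      by_contra hcon
      push Not at hcon
      apply hi
      have hlt : ∀ s ∈ I, V.valuation ((s w / w) ^ i - (s w / w) ^ r) < 1 := by
        intro s hs
        have h1 : V.valuation ((s w / w) ^ i - ((η s).val : Ω)) ≤ 1 := by
          refine V.valuation.map_sub_le (lv_one (hθ1 s hs.1) i).le ((V.valuation_le_one_iff _).2 (natCast_mem V _))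
        have h2 := lt_of_le_of_ne h1 (hcon s hs.1 hs.2)
        have h3 : (s w / w) ^ i - (s w / w) ^ r = ((s w / w) ^ i - ((η s).val : Ω)) - ((s w / w) ^ r - ((η s).val : Ω)) := by ring
        rw [h3]
        exact V.valuation.map_sub_lt h2 (hθr s hs)
      show i % d = r % d
      rcases le_total i r with hir | hir
      · obtain ⟨k, rfl⟩ := Nat.exists_eq_add_of_le hir
        have h4 : d ∣ k := by
          refine hlev k fun s hs => ?_
          have h5 := hlt s hs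
          have h6 : (s w / w) ^ i - (s w / w) ^ (i + k) = -((s w / w) ^ i * ((s w / w) ^ k - 1)) := by ring
          rw [h6, Valuation.map_neg, map_mul, lv_one (hθ1 s hs.1) i, one_mul] at h5
          exact h5
        rw [Nat.add_mod, Nat.mod_eq_zero_of_dvd h4, add_zero, Nat.mod_mod]
      · obtain ⟨k, rfl⟩ := Nat.exists_eq_add_of_le hir
        have h4 : d ∣ k := by
          refine hlev k fun s hs => ?_
          have h5 := hlt s hs
          have h6 : (s w / w) ^ (r + k) - (s w / w) ^ r = (s w / w) ^ r * ((s w / w) ^ k - 1) := by ring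
          rw [h6, map_mul, lv_one (hθ1 s hs.1) r, one_mul] at h5
          exact h5
        rw [Nat.add_mod, Nat.mod_eq_zero_of_dvd h4, add_zero, Nat.mod_mod]
  refine ⟨X, rfl, rfl, rfl, rfl, ?_⟩
  exact
    { ok := hOk
      D := rfl
      E := fun s => Iff.rfl
      C := fun s => Iff.rfl
      ch := fun s _ T hT => by
        show (η s).val • ac (WAB A B) s T = (κ s * η s).val • T
        rw [hκ1 s T hT, ZMod.val_mul, f6_mod (hkp T hT), mul_nsmul]
      ch' := fun s _ T hT => hη1 s T hT }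

end H19C
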