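import Mathlib
import Pool.Agent.Lib.H19C.D
import Pool.Agent.Lib.H19B.Z1

/-! # H19C: powers of a root of unity (port of H19B/Z1) -/

namespace H19C

open H55P (Dec Inert)
open H19B (Rep zt)
open H19B (zt_zero zt_nat zt_add zt_ne zt_neg zt_mul zt_pow zt_inj zt_root zt_val zt_sub_one z1_val z1_le)
section frm

variable {F : Type} [Field F] {Ω : Type} [Field Ω] [Algebra F Ω]

/-- Chunk Z1 (S). s ζ = ζ^((om s).val) (zD), zt a = ζ^a.val; zt_nat, ZMod.natCast_zmod_val. -/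
theorem zt_map (X : Frm F Ω) (h : X.Ok) (s : Ω ≃ₐ[F] Ω) (hs : s ∈ X.D) (a : ZMod X.p) :
    s (zt X.ζ a) = zt X.ζ (X.om s * a) := by
  have : NeZero X.p := ⟨h.pr.ne_zero⟩
  have h1 : s (zt X.ζ a) = (s X.ζ) ^ a.val := by rw [zt, map_pow]
  rw [h1, h.zD s hs, ← zt_mul h.pr h.prim, ZMod.natCast_zmod_val, mul_comm]

/-- Chunk Z1 (S). s ζ ≠ 1 (injective), zt 0 = 1. -/
theorem om_ne (X : Frm F Ω) (h : X.Ok) (s : Ω ≃ₐ[F] Ω) (hs : s ∈ X.D) : X.om s ≠ 0 := by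
  intro h0
  have h1 := h.zD s hs
  rw [h0, zt_zero, ← map_one s] at h1
  exact h.prim.ne_one h.pr.one_lt (s.injective h1)

/-- Chunk Z1 (S). V(p) = V(w)^e, e > 0, V(w) < 1. -/
theorem vp_lt (X : Frm F Ω) (h : X.Ok) : X.V.valuation (X.p : Ω) < 1 := by
  rw [h.ep]
  exact pow_lt_one₀ zero_le h.w1 h.e0.ne'

/-- Chunk Z1 (S). Values of elements fixed by E: V(x) ≤ 1 etc. A nonzero x fixed by E with V(x) < V(w)^i satisfies V(x) ≤ V(w)^(i+1) (h.val: V(x) = V(w)^m, m an integer;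
V(w) < 1, V(w) ≠ 0, so m > i; zpow order lemmas in a linearly ordered group with zero). -/
theorem val_succ (X : Frm F Ω) (h : X.Ok) {x : Ω} (hx : ∀ s ∈ X.E, s x = x) {i : ℕ} (hi : X.V.valuation x < X.V.valuation X.w ^ i) :
    X.V.valuation x ≤ X.V.valuation X.w ^ (i + 1) := by
  rcases eq_or_ne x 0 with rfl | h0
  · rw [map_zero]; exact zero_le
  obtain ⟨m, hm⟩ := h.val x h0 hx
  have hw : 0 < X.V.valuation X.w := zero_lt_iff.2 ((map_ne_zero _).2 h.w0)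
  rw [hm, ← zpow_natCast] at hi ⊢
  have h1 : (i : ℤ) < m := (zpow_lt_zpow_iff_right_of_lt_one₀ hw h.w1).1 hi
  exact (zpow_le_zpow_iff_right_of_lt_one₀ hw h.w1).2 (by push_cast; omega)

/-- Chunk Z1 (S). om is multiplicative on D: (s t) ζ = s (t ζ) = s (zt (om t)) = zt (om s * om t) (zt_map); injectivity of zt (zt_inj, zt_add, zt_neg). -/
theorem om_mul (X : Frm F Ω) (h : X.Ok) (s t : Ω ≃ₐ[F] Ω) (hs : s ∈ X.D) (ht : t ∈ X.D) : X.om (s * t) = X.om s * X.om t := by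
  have h1 := h.zD (s * t) (X.D.mul_mem hs ht)
  rw [AlgEquiv.mul_apply, h.zD t ht, zt_map X h s hs] at h1
  have h2 : zt X.ζ (X.om (s * t) - X.om s * X.om t) = 1 := by
    rw [sub_eq_add_neg, zt_add h.pr h.prim, zt_neg h.pr h.prim, ← h1]
    exact mul_inv_cancel₀ (zt_ne h.pr h.prim _)
  exact sub_eq_zero.1 (zt_inj h.pr h.prim _ h2)

end frm


end H19C
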