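import Mathlib
import Pool.Agent.Lib.H19C.Z1
import Pool.Agent.Lib.H19B.R1
import Pool.Agent.Lib.H19B.P1

/-! # H19C: norm, averaging (port of H19B/K2) -/

namespace H19C

open H55P (Dec Inert)
open H19B (Rep zt)
open H19B (zt_zero zt_nat zt_add zt_ne zt_neg zt_mul zt_pow zt_inj zt_root zt_val zt_sub_one z1_val z1_le rep_prod rep_sum rep_exists pow_one_add pow_one_add')


variable {F : Type} [Field F] {Ω : Type} [Field Ω] [Algebra F Ω]

/-- Chunk K2 (S/M). PROOF. For s in E, t in C: t (s β) = s ((s⁻¹ t s) β) = s (zt (a (s⁻¹ t s)) β) = zt (om s * a (s⁻¹ t s)) * s β (zt_map) = zt (et s * a t) * s β (ha.tw) = zt (a t) * s β as et s = 1. S from h.rep;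
β1 = product over s in S of s β: t β1 = zt (a t)^card S * β1; β1^p = product of s (β^p); β^p is fixed by C (t β^p = zt(a t)^p β^p = β^p), so the function s -> s (β^p) satisfies the
condition of rep_prod (A = C, B = E) and g (β1^p) = β1^p for g in E. Let k be a natural number with k * card S = 1 modulo p (p does not divide card S: Nat.exists_mul_emod_eq_one_of_coprime or inverse in ZMod p);
β' = β1^k: t β' = zt (a t)^(k card S) * β' = zt (a t) * β' (zt_mul: (k card S : ZMod p) = 1). -/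
theorem kummer_norm (X : Frm F Ω) (h : X.Ok) (a : (Ω ≃ₐ[F] Ω) → ZMod X.p) (ha : X.Tw a) {β : Ω} (hβ : β ≠ 0)
    (hb : ∀ t ∈ X.C, t β = zt X.ζ (a t) * β) : ∃ β' : Ω, X.Kg a β' := by
  classical
  obtain ⟨S, hS, hc⟩ := h.rep
  have hpr : Fact X.p.Prime := ⟨h.pr⟩
  have hce : (S.card : ZMod X.p) ≠ 0 := by
    intro h0
    exact hc ((ZMod.natCast_eq_zero_iff _ _).1 h0)
  let k : ℕ := ((S.card : ZMod X.p)⁻¹).val
  have hk : ((S.card * k : ℕ) : ZMod X.p) = 1 := by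
    rw [Nat.cast_mul]
    show (S.card : ZMod X.p) * ((((S.card : ZMod X.p)⁻¹).val : ℕ) : ZMod X.p) = 1
    rw [ZMod.natCast_zmod_val, mul_inv_cancel₀ hce]
  let β1 : Ω := ∏ s ∈ S, s β
  have hβ1 : β1 ≠ 0 := Finset.prod_ne_zero_iff.2 fun s _ => (map_ne_zero_iff s s.injective).2 hβ
  have ht : ∀ t ∈ X.C, t β1 = zt X.ζ (a t) ^ S.card * β1 := by
    intro t ht
    show t (∏ s ∈ S, s β) = zt X.ζ (a t) ^ S.card * ∏ s ∈ S, s β
    rw [map_prod, ← Finset.prod_const, ← Finset.prod_mul_distrib]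
    refine Finset.prod_congr rfl fun s hs => ?_
    have hsE := hS.mem s hs
    have hsD := h.le2 hsE
    have e1 : t (s β) = s ((s⁻¹ * t * s) β) := by
      show (t * s) β = (s * (s⁻¹ * t * s)) β
      congr 1
      group
    rw [e1, hb _ (h.nrm1 s hsD t ht), map_mul, zt_map X h s hsD, ha.tw s hsD t ht, h.et1 s hsE, one_mul]
  have hfix : ∀ t ∈ X.C, t (β ^ X.p) = β ^ X.p := by
    intro t ht
    rw [map_pow, hb t ht, mul_pow, zt_pow h.prim, one_mul]
  have hg : ∀ g ∈ X.E, g (β1 ^ X.p) = β1 ^ X.p := by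
    intro g hg
    have e2 : β1 ^ X.p = ∏ s ∈ S, s (β ^ X.p) := by
      show (∏ s ∈ S, s β) ^ X.p = _
      rw [← Finset.prod_pow]
      exact Finset.prod_congr rfl fun s _ => (map_pow s β X.p).symm
    have e3 := rep_prod hS (fun s : Ω ≃ₐ[F] Ω => s (β ^ X.p)) (fun s _ t ht => by
      show s (t (β ^ X.p)) = s (β ^ X.p)
      rw [hfix t ht]) g hg
    rw [e2, map_prod]
    exact e3
  refine ⟨β1 ^ k, pow_ne_zero k hβ1, fun s hs => ?_, fun t htC => ?_⟩
  · rw [← pow_mul, mul_comm k, pow_mul, map_pow, hg s hs]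
  · rw [map_pow, ht t htC, mul_pow, ← pow_mul, ← zt_mul h.pr h.prim, hk, one_mul]

/-- Chunk K2 (M). Averaging. PROOF. For s in E: (s δ / δ)^p = 1, so s δ = zt (b s) δ for some b s in ZMod p (zt_root), unique (zt_inj). b (s t) = b s + om s * b t for s, t in E (s (t δ) = s (zt (b t)) * s δ = zt (om s * b t) zt (b s) δ);
b t = 0 for t in C, so b (s t) = b s for t in C. S from h.rep, m the inverse of card S in ZMod p, x = m * ∑ over s in S of b s. For g in E: om g * x + b g = m * ∑ (om g * b s + b g) = m * ∑ b (g s) = m * ∑ b s = x (rep_sum).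
γ = zt x * δ: g γ = zt (om g * x) * zt (b g) * δ = zt x * δ = γ, γ^p = δ^p (zt_pow). -/
theorem kummer_avg (X : Frm F Ω) (h : X.Ok) {δ : Ω} (hδ : δ ≠ 0) (h1 : ∀ t ∈ X.C, t δ = δ)
    (h2 : ∀ s ∈ X.E, s (δ ^ X.p) = δ ^ X.p) : ∃ γ : Ω, γ ≠ 0 ∧ (∀ s ∈ X.E, s γ = γ) ∧ γ ^ X.p = δ ^ X.p := by
  classical
  obtain ⟨S, hS, hc⟩ := h.rep
  have hpr : Fact X.p.Prime := ⟨h.pr⟩
  have hce : (S.card : ZMod X.p) ≠ 0 := by
    intro h0
    exact hc ((ZMod.natCast_eq_zero_iff _ _).1 h0)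
  have hinj : ∀ a b : ZMod X.p, zt X.ζ a = zt X.ζ b → a = b := by
    intro a b hab
    rw [← sub_eq_zero]
    apply zt_inj h.pr h.prim
    rw [sub_eq_add_neg, zt_add h.pr h.prim, zt_neg h.pr h.prim, hab, mul_inv_cancel₀ (zt_ne h.pr h.prim b)]
  have hex : ∀ s : Ω ≃ₐ[F] Ω, ∃ b : ZMod X.p, s ∈ X.E → s δ = zt X.ζ b * δ := by
    intro s
    by_cases hs : s ∈ X.E
    · have h3 : (s δ / δ) ^ X.p = 1 := by
        rw [div_pow, ← map_pow, h2 s hs, div_self (pow_ne_zero _ hδ)]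
      obtain ⟨b, hb⟩ := zt_root h.pr h.prim h3
      refine ⟨b, fun _ => ?_⟩
      rw [← hb, div_mul_cancel₀ _ hδ]
    · exact ⟨0, fun h => absurd h hs⟩
  choose b hb using hex
  have hmul : ∀ s ∈ X.E, ∀ t ∈ X.E, b (s * t) = X.om s * b t + b s := by
    intro s hs t ht
    apply hinj
    have h3 : (s * t) δ = s (t δ) := rfl
    rw [hb _ (mul_mem hs ht), hb t ht, map_mul, zt_map X h s (h.le2 hs), hb s hs, ← mul_assoc,
      ← zt_add h.pr h.prim] at h3
    exact mul_right_cancel₀ hδ h3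
  have hC : ∀ t ∈ X.C, b t = 0 := by
    intro t ht
    apply zt_inj h.pr h.prim
    have h3 := hb t (h.le1 ht)
    rw [h1 t ht] at h3
    exact (mul_eq_right₀ hδ).1 h3.symm
  let m : ZMod X.p := (S.card : ZMod X.p)⁻¹
  let x : ZMod X.p := m * ∑ s ∈ S, b s
  have hx : ∀ g ∈ X.E, X.om g * x + b g = x := by
    intro g hg
    have h3 := rep_sum hS b (fun s hs t ht => by rw [hmul s hs t (h.le1 ht), hC t ht, mul_zero, zero_add]) g hg
    have h4 : ∑ s ∈ S, b (g * s) = X.om g * ∑ s ∈ S, b s + S.card * b g := by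
      rw [Finset.mul_sum, ← nsmul_eq_mul, ← Finset.sum_const, ← Finset.sum_add_distrib]
      exact Finset.sum_congr rfl fun s hs => hmul g hg s (hS.mem s hs)
    have h5 : m * S.card = 1 := inv_mul_cancel₀ hce
    show X.om g * (m * ∑ s ∈ S, b s) + b g = m * ∑ s ∈ S, b s
    linear_combination m * h3 - m * h4 - b g * h5
  refine ⟨zt X.ζ x * δ, mul_ne_zero (zt_ne h.pr h.prim x) hδ, fun g hg => ?_, ?_⟩
  · rw [map_mul, zt_map X h g (h.le2 hg), hb g hg, ← mul_assoc, ← zt_add h.pr h.prim, hx g hg]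
  · rw [mul_pow, zt_pow h.prim, one_mul]


end H19C
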