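import Mathlib
import Pool.Agent.Lib.H19C.K2

/-! # H19C: rules (port of H19B/K3) -/

namespace H19C

open H55P (Dec Inert)
open H19B (Rep zt)
open H19B (zt_zero zt_nat zt_add zt_ne zt_neg zt_mul zt_pow zt_inj zt_root zt_val zt_sub_one z1_val z1_le rep_prod rep_sum rep_exists pow_one_add pow_one_add')


variable {F : Type} [Field F] {Ω : Type} [Field Ω] [Algebra F Ω]

/-- Chunk K3 (S). zt_add. -/
theorem kg_mul (X : Frm F Ω) (h : X.Ok) {a b : (Ω ≃ₐ[F] Ω) → ZMod X.p} {β γ : Ω} (hβ : X.Kg a β) (hγ : X.Kg b γ) :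
    X.Kg (a + b) (β * γ) := by
  obtain ⟨b0, b1, b2⟩ := hβ
  obtain ⟨c0, c1, c2⟩ := hγ
  refine ⟨mul_ne_zero b0 c0, fun s hs => ?_, fun t ht => ?_⟩
  · rw [mul_pow, map_mul, b1 s hs, c1 s hs]
  · rw [map_mul, b2 t ht, c2 t ht, Pi.add_apply, zt_add h.pr h.prim]
    ring

/-- Chunk K3 (S). zt_neg. -/
theorem kg_inv (X : Frm F Ω) (h : X.Ok) {a : (Ω ≃ₐ[F] Ω) → ZMod X.p} {β : Ω} (hβ : X.Kg a β) : X.Kg (-a) β⁻¹ := by
  obtain ⟨b0, b1, b2⟩ := hβ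
  refine ⟨inv_ne_zero b0, fun s hs => ?_, fun t ht => ?_⟩
  · rw [inv_pow, map_inv₀, b1 s hs]
  · rw [map_inv₀, b2 t ht, Pi.neg_apply, zt_neg h.pr h.prim, mul_inv]

/-- Chunk K3 (S). zt_mul. The character of β^k is k a; it is a if k = 1 modulo p. -/
theorem kg_pow (X : Frm F Ω) (h : X.Ok) {a : (Ω ≃ₐ[F] Ω) → ZMod X.p} {β : Ω} (hβ : X.Kg a β) (k : ℕ) (hk : (k : ZMod X.p) = 1) :
    X.Kg a (β ^ k) := by
  obtain ⟨b0, b1, b2⟩ := hβ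
  refine ⟨pow_ne_zero k b0, fun s hs => ?_, fun t ht => ?_⟩
  · rw [← pow_mul, mul_comm, pow_mul, map_pow, b1 s hs]
  · rw [map_pow, b2 t ht, mul_pow, ← zt_mul h.pr h.prim, hk, one_mul]

/-- Chunk K3 (S). -/
theorem kg_scale (X : Frm F Ω) (h : X.Ok) {a : (Ω ≃ₐ[F] Ω) → ZMod X.p} {β γ : Ω} (hβ : X.Kg a β) (h0 : γ ≠ 0)
    (hγ : ∀ s ∈ X.E, s γ = γ) : X.Kg a (β * γ) := by
  obtain ⟨b0, b1, b2⟩ := hβ
  refine ⟨mul_ne_zero b0 h0, fun s hs => ?_, fun t ht => ?_⟩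
  · rw [mul_pow, map_mul, b1 s hs, map_pow, hγ s hs]
  · rw [map_mul, b2 t ht, hγ t (h.le1 ht), mul_assoc]

/-- Chunk K3 (S). -/
theorem kg_one (X : Frm F Ω) (h : X.Ok) : X.Kg 0 1 := by
  refine ⟨one_ne_zero, fun s hs => ?_, fun t ht => ?_⟩
  · rw [one_pow, map_one]
  · rw [map_one, Pi.zero_apply, zt_zero, one_mul]

/-- The action of the elements of D on the powers of the Kummer generators. -/
theorem kg_dec (X : Frm F Ω) (h : X.Ok) {a : (Ω ≃ₐ[F] Ω) → ZMod X.p} (ha : X.Tw a) {β : Ω} (hβ : X.Kg a β) (σ : Ω ≃ₐ[F] Ω)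
    (hσ : σ ∈ X.D) : ∃ γ : Ω, γ ≠ 0 ∧ (∀ s ∈ X.E, s γ = γ) ∧ σ (β ^ X.p) = (β ^ X.p) ^ (X.et σ).val * γ ^ X.p := by
  obtain ⟨b0, b1, b2⟩ := hβ
  have hne : NeZero X.p := ⟨h.pr.ne_zero⟩
  have hc : ∀ s t : Ω ≃ₐ[F] Ω, ∀ x : Ω, t (s x) = s ((s⁻¹ * t * s) x) := by
    intro s t x
    have h3 : s * (s⁻¹ * t * s) = t * s := by group
    have h4 : (s * (s⁻¹ * t * s)) x = (t * s) x := by rw [h3]
    rw [AlgEquiv.mul_apply, AlgEquiv.mul_apply t s] at h4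
    exact h4.symm
  obtain ⟨n, hn'⟩ : ∃ n : ℕ, n = (X.et σ).val := ⟨_, rfl⟩
  have hn2 : X.et σ = (n : ZMod X.p) := by rw [hn', ZMod.natCast_zmod_val]
  rw [← hn']
  have hz : ∀ t ∈ X.C, t (σ β) = zt X.ζ (a t) ^ n * σ β := by
    intro t ht
    rw [hc σ t β, b2 _ (h.nrm1 σ hσ t ht), map_mul, zt_map X h σ hσ, ha.tw σ hσ t ht, hn2, zt_mul h.pr h.prim]
  have hp : σ β ≠ 0 := by
    intro h0
    exact b0 (by simpa using h0)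
  have hn : β ^ n ≠ 0 := pow_ne_zero _ b0
  have hδ : σ β / β ^ n ≠ 0 := div_ne_zero hp hn
  have hδp : (σ β / β ^ n) ^ X.p = σ (β ^ X.p) / (β ^ X.p) ^ n := by
    rw [div_pow, map_pow, ← pow_mul, ← pow_mul, mul_comm n X.p]
  have e1 : ∀ t ∈ X.C, t (σ β / β ^ n) = σ β / β ^ n := by
    intro t ht
    have hzt : zt X.ζ (a t) ^ n ≠ 0 := pow_ne_zero _ (zt_ne h.pr h.prim _)
    rw [map_div₀, hz t ht, map_pow, b2 t ht, mul_pow, mul_div_mul_left _ _ hzt]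
  have e2 : ∀ s ∈ X.E, s ((σ β / β ^ n) ^ X.p) = (σ β / β ^ n) ^ X.p := by
    intro s hs
    have e3 : s ((β ^ X.p) ^ n) = (β ^ X.p) ^ n := by rw [map_pow s (β ^ X.p) n, b1 s hs]
    have e4 : s (σ (β ^ X.p)) = σ (β ^ X.p) := by rw [hc σ s, b1 _ (h.nrm2 σ hσ s hs)]
    rw [hδp, map_div₀, e3, e4]
  obtain ⟨γ, g0, g1, g2⟩ := kummer_avg X h hδ e1 e2
  refine ⟨γ, g0, g1, ?_⟩
  rw [g2, hδp, mul_div_cancel₀ _ (pow_ne_zero _ (pow_ne_zero _ b0))]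

end H19C
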