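import Mathlib
import Pool.Agent.Lib.H19C.K1
import Pool.Agent.Lib.H19C.K3

/-! # H19C: units (port of H19B/K4) -/

namespace H19C

open H55P (Dec Inert)
open H19B (Rep zt)
open H19B (zt_zero zt_nat zt_add zt_ne zt_neg zt_mul zt_pow zt_inj zt_root zt_val zt_sub_one z1_val z1_le rep_prod rep_sum rep_exists pow_one_add pow_one_add')


open H55P (Dec Inert)

variable {F : Type} [Field F] {Ω : Type} [Field Ω] [Algebra F Ω]

/-- Every twisted character has a Kummer generator. -/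
theorem kg_ex (X : Frm F Ω) (h : X.Ok) (a : (Ω ≃ₐ[F] Ω) → ZMod X.p) (ha : X.Tw a) :
    ∃ (β : Ω) (i : ℤ), X.Kg a β ∧ X.V.valuation (β ^ X.p) = X.V.valuation X.w ^ i := by
  obtain ⟨β0, hβ0, hb⟩ := kummer_gen X h a ha
  obtain ⟨β, hβ⟩ := kummer_norm X h a ha hβ0 hb
  obtain ⟨i, hi⟩ := h.val _ (pow_ne_zero _ hβ.ne) hβ.fx
  exact ⟨β, i, hβ, hi⟩

theorem k4_exp (X : Frm F Ω) (h : X.Ok) {i k : ℤ} (hexp : X.V.valuation X.w ^ i = X.V.valuation X.w ^ k) : i = k := by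
  have hw0 : 0 < X.V.valuation X.w := zero_lt_iff.2 ((map_ne_zero _).2 h.w0)
  rcases lt_trichotomy i k with h1 | h1 | h1
  · exact absurd hexp ((zpow_lt_zpow_iff_right_of_lt_one₀ hw0 h.w1).2 h1).ne'
  · exact h1
  · exact absurd hexp ((zpow_lt_zpow_iff_right_of_lt_one₀ hw0 h.w1).2 h1).ne

/-- If D moves the points of E then the value of the p-th power of a Kummer generator is a p-th power. -/
theorem kg_dvd (X : Frm F Ω) (h : X.Ok) {a : (Ω ≃ₐ[F] Ω) → ZMod X.p} (ha : X.Tw a) {β : Ω} (hβ : X.Kg a β) {i : ℤ}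
    (hi : X.V.valuation (β ^ X.p) = X.V.valuation X.w ^ i) {σ : Ω ≃ₐ[F] Ω} (hσ : σ ∈ X.D) (h1 : X.et σ ≠ 1) : (X.p : ℤ) ∣ i := by
  have hne : NeZero X.p := ⟨h.pr.ne_zero⟩
  have hw0 : 0 < X.V.valuation X.w := zero_lt_iff.2 ((map_ne_zero _).2 h.w0)
  have hwne : X.V.valuation X.w ≠ 0 := hw0.ne'
  obtain ⟨γ, hγ0, hγE, hγ⟩ := kg_dec X h ha hβ σ hσ
  obtain ⟨g, hg⟩ := h.val γ hγ0 hγE
  obtain ⟨n, hn⟩ : ∃ n : ℕ, n = (X.et σ).val := ⟨_, rfl⟩
  rw [← hn] at hγ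
  have hexp : X.V.valuation X.w ^ i = X.V.valuation X.w ^ ((n : ℤ) * i + (X.p : ℤ) * g) := by
    have e1 : X.V.valuation ((β ^ X.p) ^ n) = X.V.valuation X.w ^ ((n : ℤ) * i) := by
      rw [map_pow X.V.valuation (β ^ X.p) n, hi, ← zpow_natCast, ← zpow_mul, mul_comm i]
    have e2 : X.V.valuation (γ ^ X.p) = X.V.valuation X.w ^ ((X.p : ℤ) * g) := by
      rw [map_pow, hg, ← zpow_natCast, ← zpow_mul, mul_comm g]
    rw [← hi, ← h.inv σ hσ, hγ, map_mul, e1, e2, zpow_add₀ hwne]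
  have heq := k4_exp X h hexp
  have h2 : (X.p : ℤ) ∣ ((n : ℤ) - 1) * i := ⟨-g, by linear_combination -heq⟩
  rcases (Nat.prime_iff_prime_int.1 h.pr).dvd_or_dvd h2 with h3 | h3
  · exfalso
    apply h1
    have h4 : (((n : ℤ) - 1 : ℤ) : ZMod X.p) = 0 := (ZMod.intCast_zmod_eq_zero_iff_dvd _ _).2 h3
    push_cast at h4
    rw [hn, ZMod.natCast_zmod_val] at h4
    exact sub_eq_zero.1 h4
  · exact h3

/-- A twisted character with a Kummer generator whose p-th power has a value divisible by p has a Kummer generator β with β^p = 1 modulo the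
maximal ideal. -/
theorem kg_unit (X : Frm F Ω) (h : X.Ok) {a : (Ω ≃ₐ[F] Ω) → ZMod X.p} (ha : X.Tw a) {β : Ω} (hβ : X.Kg a β) {i : ℤ}
    (hi : X.V.valuation (β ^ X.p) = X.V.valuation X.w ^ i) (hpi : (X.p : ℤ) ∣ i) : X.Fl 0 a := by
  have hp := h.pr
  have hw0 : 0 < X.V.valuation X.w := zero_lt_iff.2 ((map_ne_zero _).2 h.w0)
  have hwne : X.V.valuation X.w ≠ 0 := hw0.ne'
  obtain ⟨k, hk⟩ := hpi
  have hwk0 : X.w ^ (-k) ≠ 0 := zpow_ne_zero _ h.w0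
  have hwkE : ∀ s ∈ X.E, s (X.w ^ (-k)) = X.w ^ (-k) := fun s hs => by rw [map_zpow₀, h.fw s hs]
  have hK1 := kg_scale X h hβ hwk0 hwkE
  set β1 := β * X.w ^ (-k) with hβ1
  set y := β1 ^ X.p with hy
  have hyV : X.V.valuation y = 1 := by
    rw [hy, hβ1, mul_pow, map_mul, hi, map_pow, map_zpow₀, ← zpow_natCast, ← zpow_mul, ← zpow_add₀ hwne, hk]
    have h1 : (X.p : ℤ) * k + -k * (X.p : ℤ) = 0 := by ring
    rw [h1, zpow_zero]
  have hyE : ∀ s ∈ X.E, s y = y := hK1.fx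
  set Q := X.Q with hQ
  have hQ1 : 1 ≤ Q := h.Q0
  have hres : X.V.valuation (y ^ Q - y) < 1 := h.res y hyV.le hyE
  have hz : X.V.valuation (y ^ (Q - 1) - 1) < 1 := by
    have h1 : y ^ Q - y = y * (y ^ (Q - 1) - 1) := by
      have h2 : y ^ Q = y * y ^ (Q - 1) := by rw [← pow_succ', Nat.sub_add_cancel hQ1]
      rw [h2]; ring
    rw [h1, map_mul, hyV, one_mul] at hres
    exact hres
  have hzV : X.V.valuation (y ^ (Q - 1)) ≤ 1 := by rw [map_pow, hyV, one_pow]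
  have hm : X.V.valuation (y ^ ((Q - 1) * (X.p - 1)) - 1) < 1 := by
    rw [pow_mul]
    exact lt_of_le_of_lt (z1_le X.V hzV _) hz
  have hmod : (((Q - 1) * (X.p - 1) : ℕ) : ZMod X.p) = 1 := by
    have h1 : ((Q : ℕ) : ZMod X.p) = 0 := by
      rw [ZMod.natCast_eq_zero_iff]
      exact h.Qp
    rw [Nat.cast_mul, Nat.cast_sub hQ1, Nat.cast_sub hp.one_lt.le, h1, ZMod.natCast_self]
    ring
  refine ⟨ha, β1 ^ ((Q - 1) * (X.p - 1)), kg_pow X h hK1 _ hmod, ?_⟩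
  have h1 : (β1 ^ ((Q - 1) * (X.p - 1))) ^ X.p = y ^ ((Q - 1) * (X.p - 1)) := by
    rw [hy, ← pow_mul, ← pow_mul, mul_comm X.p]
  rw [h1]
  refine val_succ X h (fun s hs => ?_) (by rw [pow_zero]; exact hm)
  rw [map_sub, map_one, map_pow, hyE s hs]

end H19C
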