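import Mathlib
import Pool.Agent.Lib.H19C.K3
import Pool.Agent.Lib.H19C.P1

/-! # H19C: leading coefficient (port of H19B/K6) -/

namespace H19C

open H55P (Dec Inert)
open H19B (Rep zt)
open H19B (zt_zero zt_nat zt_add zt_ne zt_neg zt_mul zt_pow zt_inj zt_root zt_val zt_sub_one z1_val z1_le rep_prod rep_sum rep_exists pow_one_add pow_one_add')


variable {F : Type} [Field F] {Ω : Type} [Field Ω] [Algebra F Ω]

theorem k6_nat (V : ValuationSubring Ω) (n : ℕ) : V.valuation (n : Ω) ≤ 1 :=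
  (V.valuation_le_one_iff _).2 (natCast_mem V n)

theorem k6_pow (V : ValuationSubring Ω) {u : Ω} (hu : V.valuation u ≤ 1) (n : ℕ) :
    V.valuation ((1 + u) ^ n - 1 - n * u) ≤ V.valuation u ^ 2 := by
  induction n with
  | zero => simp
  | succ n ih =>
    have e : (1 + u) ^ (n + 1) - 1 - ((n + 1 : ℕ) : Ω) * u = ((1 + u) ^ n - 1 - n * u) * (1 + u) + n * u ^ 2 := by
      push_cast
      ring
    rw [e]
    refine Valuation.map_add_le _ ?_ ?_
    · rw [map_mul]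
      have h1 : V.valuation (1 + u) ≤ 1 := Valuation.map_add_le _ (by rw [map_one]) hu
      exact (mul_le_mul' ih h1).trans (by rw [mul_one])
    · rw [map_mul, map_pow]
      exact (mul_le_mul' (k6_nat V n) le_rfl).trans (by rw [one_mul])

theorem k6_self (V : ValuationSubring Ω) {u : Ω} (hu : V.valuation u = 1) : u ≠ 0 := by
  rintro rfl
  rw [map_zero] at hu
  exact zero_ne_one hu

theorem k6_w (X : Frm F Ω) (h : X.Ok) (σ : Ω ≃ₐ[F] Ω) (hσ : σ ∈ X.D) : X.V.valuation (σ X.w / X.w) = 1 := by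
  rw [map_div₀, h.inv σ hσ]
  exact div_self ((Valuation.ne_zero_iff _).2 h.w0)

/-- The leading coefficient l of the p-th power of a Kummer generator and the elements σ of D. -/
theorem lead_dec (X : Frm F Ω) (h : X.Ok) {a : (Ω ≃ₐ[F] Ω) → ZMod X.p} (ha : X.Tw a) {β : Ω} (hβ : X.Kg a β) {i : ℕ}
    (hi : ¬ X.p ∣ i) (hie : i * (X.p - 1) < X.e * X.p) (h1 : X.V.valuation (β ^ X.p - 1) ≤ X.V.valuation X.w ^ i) {l : Ω}
    (hl : β ^ X.p - 1 = l * X.w ^ i) (σ : Ω ≃ₐ[F] Ω) (hσ : σ ∈ X.D) :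
    X.V.valuation l ≤ 1 ∧ X.V.valuation ((σ X.w / X.w) ^ i * σ l - ((X.et σ).val : Ω) * l) < 1 := by
  have hW0 : X.V.valuation X.w ≠ 0 := (Valuation.ne_zero_iff _).2 h.w0
  have hWi0 : X.V.valuation X.w ^ i ≠ 0 := pow_ne_zero _ hW0
  have hWip : 0 < X.V.valuation X.w ^ i := zero_lt_iff.2 hWi0
  have hi0 : i ≠ 0 := by
    rintro rfl
    exact hi (dvd_zero _)
  have hWi1 : X.V.valuation X.w ^ i < 1 := pow_lt_one₀ zero_le h.w1 hi0
  have hl1 : X.V.valuation l ≤ 1 := by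
    rw [hl, map_mul, map_pow] at h1
    exact le_of_mul_le_mul_right (h1.trans (by rw [one_mul])) hWip
  refine ⟨hl1, ?_⟩
  obtain ⟨n, hn⟩ : ∃ n : ℕ, n = (X.et σ).val := ⟨_, rfl⟩
  obtain ⟨γ, g0, g1, g2⟩ := kg_dec X h ha hβ σ hσ
  rw [← hn] at g2 ⊢
  have hx : β ^ X.p = 1 + l * X.w ^ i := by rw [← hl]; ring
  have hu : X.V.valuation (l * X.w ^ i) ≤ X.V.valuation X.w ^ i := by
    rw [← hl]
    exact h1
  have hu1 : X.V.valuation (l * X.w ^ i) < 1 := lt_of_le_of_lt hu hWi1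
  have hφx : σ (β ^ X.p) = 1 + (σ X.w / X.w) ^ i * σ l * X.w ^ i := by
    have e : σ X.w ^ i = (σ X.w / X.w) ^ i * X.w ^ i := by rw [div_pow, div_mul_cancel₀ _ (pow_ne_zero _ h.w0)]
    rw [hx, map_add, map_one, map_mul, map_pow, e]
    ring
  have hφl : X.V.valuation ((σ X.w / X.w) ^ i * σ l) ≤ 1 := by
    rw [map_mul, map_pow, k6_w X h σ hσ, one_pow, one_mul, h.inv σ hσ]
    exact hl1
  have hq : X.V.valuation ((1 + l * X.w ^ i) ^ n - 1 - n * (l * X.w ^ i)) < X.V.valuation X.w ^ i := by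
    refine lt_of_le_of_lt (k6_pow X.V hu1.le n) ?_
    refine lt_of_le_of_lt (pow_le_pow_left₀ zero_le hu 2) ?_
    rw [pow_two]
    exact mul_lt_of_lt_one_left hWip hWi1
  have hn1 : X.V.valuation ((β ^ X.p) ^ n - 1) ≤ X.V.valuation X.w ^ i := by
    have e : (β ^ X.p) ^ n - 1 = ((1 + l * X.w ^ i) ^ n - 1 - n * (l * X.w ^ i)) + n * (l * X.w ^ i) := by
      rw [hx]
      ring
    rw [e]
    refine Valuation.map_add_le _ hq.le ?_
    rw [map_mul]
    exact (mul_le_mul' (k6_nat X.V n) hu).trans (by rw [one_mul])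
  have hn2 : X.V.valuation ((β ^ X.p) ^ n) = 1 := by
    have e : (β ^ X.p) ^ n = 1 + ((β ^ X.p) ^ n - 1) := by ring
    rw [e]
    exact Valuation.map_one_add_of_lt _ (lt_of_le_of_lt hn1 hWi1)
  have hφ1 : X.V.valuation (σ (β ^ X.p) - 1) ≤ X.V.valuation X.w ^ i := by
    have e : σ (β ^ X.p) - 1 = (σ X.w / X.w) ^ i * σ l * X.w ^ i := by
      rw [hφx]
      ring
    rw [e, map_mul, map_pow X.V.valuation X.w i]
    exact (mul_le_mul' hφl le_rfl).trans (by rw [one_mul])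
  have hd : X.V.valuation (σ (β ^ X.p) - (β ^ X.p) ^ n) = X.V.valuation (γ ^ X.p - 1) := by
    have e : σ (β ^ X.p) - (β ^ X.p) ^ n = (β ^ X.p) ^ n * (γ ^ X.p - 1) := by
      rw [g2]
      ring
    rw [e, map_mul, hn2, one_mul]
  have hd1 : X.V.valuation (γ ^ X.p - 1) ≤ X.V.valuation X.w ^ i := by
    rw [← hd]
    have e : σ (β ^ X.p) - (β ^ X.p) ^ n = (σ (β ^ X.p) - 1) - ((β ^ X.p) ^ n - 1) := by ring
    rw [e]
    exact (Valuation.map_sub _ _ _).trans (max_le hφ1 hn1)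
  have hd2 : X.V.valuation (σ (β ^ X.p) - (β ^ X.p) ^ n) < X.V.valuation X.w ^ i := by
    rw [hd]
    exact pow_claim X h g1 hi hie hd1
  have hd3 : X.V.valuation (((σ X.w / X.w) ^ i * σ l - n * l) * X.w ^ i) < X.V.valuation X.w ^ i := by
    have e : ((σ X.w / X.w) ^ i * σ l - n * l) * X.w ^ i = (σ (β ^ X.p) - (β ^ X.p) ^ n)
        + ((1 + l * X.w ^ i) ^ n - 1 - n * (l * X.w ^ i)) := by
      rw [hφx, hx]
      ring
    rw [e]
    exact Valuation.map_add_lt _ hd2 hq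
  rw [map_mul, map_pow] at hd3
  exact lt_of_mul_lt_mul_right (hd3.trans_le (by rw [one_mul])) hWip.le

/-- The equation for the leading coefficient. -/
theorem lead_eq (X : Frm F Ω) (h : X.Ok) {a : (Ω ≃ₐ[F] Ω) → ZMod X.p} (ha : X.Tw a) {β : Ω} (hβ : X.Kg a β) {i : ℕ}
    (hi : ¬ X.p ∣ i) (hie : i * (X.p - 1) < X.e * X.p) (h1 : X.V.valuation (β ^ X.p - 1) ≤ X.V.valuation X.w ^ i) {l : Ω}
    (hl : β ^ X.p - 1 = l * X.w ^ i) : X.V.valuation l ≤ 1 ∧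
      X.V.valuation ((X.φ X.w / X.w) ^ i * l ^ X.q - ((X.et X.φ).val : Ω) * l) < 1 := by
  obtain ⟨hl1, h2⟩ := lead_dec X h ha hβ hi hie h1 hl X.φ h.phi
  refine ⟨hl1, ?_⟩
  have hf : X.V.valuation (X.φ l - l ^ X.q) < 1 := h.fro l hl1
  have h3 : X.V.valuation ((X.φ X.w / X.w) ^ i * (X.φ l - l ^ X.q)) < 1 := by
    rw [map_mul, map_pow, k6_w X h X.φ h.phi, one_pow, one_mul]
    exact hf
  have e : (X.φ X.w / X.w) ^ i * l ^ X.q - ((X.et X.φ).val : Ω) * l = ((X.φ X.w / X.w) ^ i * X.φ l - ((X.et X.φ).val : Ω) * l)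
      - (X.φ X.w / X.w) ^ i * (X.φ l - l ^ X.q) := by ring
  rw [e]
  exact lt_of_le_of_lt (Valuation.map_sub _ _ _) (max_lt h2 h3)

/-- At the other levels the leading coefficient is in the maximal ideal. -/
theorem lead_zero (X : Frm F Ω) (h : X.Ok) {a : (Ω ≃ₐ[F] Ω) → ZMod X.p} (ha : X.Tw a) {β : Ω} (hβ : X.Kg a β) {i : ℕ}
    (hi : ¬ X.p ∣ i) (hG : ¬ X.G i) (hie : i * (X.p - 1) < X.e * X.p) (h1 : X.V.valuation (β ^ X.p - 1) ≤ X.V.valuation X.w ^ i) :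
    X.V.valuation (β ^ X.p - 1) ≤ X.V.valuation X.w ^ (i + 1) := by
  have hw : X.w ^ i ≠ 0 := pow_ne_zero _ h.w0
  obtain ⟨l, hl⟩ : ∃ l : Ω, β ^ X.p - 1 = l * X.w ^ i := ⟨_, (div_mul_cancel₀ _ hw).symm⟩
  obtain ⟨s, hs, hsi, hu⟩ := h.lev i hG
  obtain ⟨hl1, h2⟩ := lead_dec X h ha hβ hi hie h1 hl s hs
  have h3 : X.V.valuation (s l - l) < 1 := hsi l ((ValuationSubring.valuation_le_one_iff _ _).1 hl1)
  have h4 : X.V.valuation ((s X.w / X.w) ^ i * (s l - l)) < 1 := by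
    rw [map_mul, map_pow, k6_w X h s hs, one_pow, one_mul]
    exact h3
  have h5 : X.V.valuation (((s X.w / X.w) ^ i - ((X.et s).val : Ω)) * l) < 1 := by
    have e : ((s X.w / X.w) ^ i - ((X.et s).val : Ω)) * l = ((s X.w / X.w) ^ i * s l - ((X.et s).val : Ω) * l)
        - (s X.w / X.w) ^ i * (s l - l) := by ring
    rw [e]
    exact lt_of_le_of_lt (Valuation.map_sub _ _ _) (max_lt h2 h4)
  rw [map_mul, hu, one_mul] at h5
  refine val_succ X h (fun t ht => ?_) ?_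
  · rw [map_sub, map_one, hβ.fx t ht]
  · rw [hl, map_mul, map_pow]
    exact mul_lt_of_lt_one_left (zero_lt_iff.2 (pow_ne_zero _ ((Valuation.ne_zero_iff _).2 h.w0))) h5

end H19C
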