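import Mathlib
import Pool.Agent.Lib.H19C.K3
import Pool.Agent.Lib.H19C.P1

/-! # H19C: improving (port of H19B/K7) -/

namespace H19C

open H55P (Dec Inert)
open H19B (Rep zt)
open H19B (zt_zero zt_nat zt_add zt_ne zt_neg zt_mul zt_pow zt_inj zt_root zt_val zt_sub_one z1_val z1_le rep_prod rep_sum rep_exists pow_one_add pow_one_add')


variable {F : Type} [Field F] {Ω : Type} [Field Ω] [Algebra F Ω]

/-- Chunk K7 (M). PROOF. i = p k, k > 0. x = β^p = 1 + λ w^i, λ = (x - 1) / w^i is fixed by E, V(λ) ≤ 1. Q = q^(p-1) is divisible by p (p divides q, p - 1 > 0), Q = p Q'; μ = λ^Q', fixed by E, V(μ) ≤ 1, μ^p = λ^Q, V(μ^p - λ) < 1 (h.res).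
δ = 1 + μ w^k, V(δ) = 1, fixed by E; pow_one_add: δ^p = 1 + μ^p w^i + p μ w^k z, V(p w^k) = V(w)^(e+k) < V(w)^i because e + k > p k: (p k)(p - 1) < e p gives k (p - 1) < e. So V(δ^p - x) < V(w)^i. β' = β δ⁻¹ (kg_scale):
β'^p - 1 = (x - δ^p) / δ^p has value < V(w)^i, and it is fixed by E (hβ'.fx): ≤ V(w)^(i+1) (val_succ). -/
theorem improve (X : Frm F Ω) (h : X.Ok) {a : (Ω ≃ₐ[F] Ω) → ZMod X.p} {β : Ω} (hβ : X.Kg a β) {i : ℕ} (h0 : 0 < i)
    (hi : X.p ∣ i) (hie : i * (X.p - 1) < X.e * X.p) (h1 : X.V.valuation (β ^ X.p - 1) ≤ X.V.valuation X.w ^ i) :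
    ∃ β' : Ω, X.Kg a β' ∧ X.V.valuation (β' ^ X.p - 1) ≤ X.V.valuation X.w ^ (i + 1) := by
  have hp := h.pr
  have hV0 : X.V.valuation X.w ≠ 0 := (Valuation.ne_zero_iff _).2 h.w0
  have hVpos : 0 < X.V.valuation X.w := zero_lt_iff.2 hV0
  obtain ⟨k, rfl⟩ := hi
  have hk0 : 0 < k := Nat.pos_of_mul_pos_left h0
  have hkp : X.p * k < X.e + k := by
    have h2 : X.p * (k * (X.p - 1)) < X.p * X.e := by
      calc X.p * (k * (X.p - 1)) = X.p * k * (X.p - 1) := by ring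
        _ < X.e * X.p := hie
        _ = X.p * X.e := mul_comm _ _
    have h3 : k * (X.p - 1) < X.e := lt_of_mul_lt_mul_left h2 (Nat.zero_le _)
    have h4 : X.p * k = k * (X.p - 1) + k := by
      have h5 : X.p = (X.p - 1) + 1 := by have := hp.pos; omega
      calc X.p * k = ((X.p - 1) + 1) * k := by rw [← h5]
        _ = k * (X.p - 1) + k := by ring
    omega
  have hEw : ∀ s ∈ X.E, s X.w = X.w := fun s hs => h.fw s hs
  obtain ⟨x, hx⟩ : ∃ x, x = β ^ X.p := ⟨_, rfl⟩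
  have hxE : ∀ s ∈ X.E, s x = x := by rw [hx]; exact hβ.fx
  rw [← hx] at h1
  obtain ⟨l, hl⟩ : ∃ l, l = (x - 1) / X.w ^ (X.p * k) := ⟨_, rfl⟩
  have hwi : X.w ^ (X.p * k) ≠ 0 := pow_ne_zero _ h.w0
  have hxl : x = 1 + l * X.w ^ (X.p * k) := by
    rw [hl, div_mul_cancel₀ _ hwi]
    ring
  have hlE : ∀ s ∈ X.E, s l = l := by
    intro s hs
    rw [hl, map_div₀, map_sub, map_one, map_pow, hxE s hs, hEw s hs]
  have hlV : X.V.valuation l ≤ 1 := by
    rw [hl, map_div₀, map_pow]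
    exact div_le_one_of_le₀ h1 (zero_le)
  obtain ⟨Q', hQ'⟩ : X.p ∣ X.Q := h.Qp
  obtain ⟨m, hm⟩ : ∃ m, m = l ^ Q' := ⟨_, rfl⟩
  have hmE : ∀ s ∈ X.E, s m = m := by
    intro s hs
    rw [hm, map_pow, hlE s hs]
  have hmV : X.V.valuation m ≤ 1 := by
    rw [hm, map_pow]
    exact pow_le_one₀ (zero_le) hlV
  have hmp : X.V.valuation (m ^ X.p - l) < 1 := by
    have h5 := h.res l hlV hlE
    rwa [hQ', mul_comm, pow_mul, ← hm] at h5
  obtain ⟨y, hy⟩ : ∃ y, y = m * X.w ^ k := ⟨_, rfl⟩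
  have hyV : X.V.valuation y ≤ X.V.valuation X.w ^ k := by
    rw [hy, map_mul, map_pow]
    exact mul_le_of_le_one_left (zero_le) hmV
  have hwk : X.V.valuation X.w ^ k < 1 := pow_lt_one₀ (zero_le) h.w1 hk0.ne'
  have hy1 : X.V.valuation y < 1 := lt_of_le_of_lt hyV hwk
  obtain ⟨z, hz, hz2⟩ := pow_one_add hp X.V hy1.le
  obtain ⟨d, hd⟩ : ∃ d, d = 1 + y := ⟨_, rfl⟩
  have hdV : X.V.valuation d = 1 := by
    rw [hd]
    rw [Valuation.map_add_eq_of_lt_left _ (by rw [map_one]; exact hy1), map_one]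
  have hd0 : d ≠ 0 := by
    intro h6
    rw [h6, map_zero] at hdV
    exact zero_ne_one hdV
  have hdE : ∀ s ∈ X.E, s d = d := by
    intro s hs
    rw [hd, hy, map_add, map_one, map_mul, map_pow, hmE s hs, hEw s hs]
  have hkey : X.V.valuation (x - d ^ X.p) < X.V.valuation X.w ^ (X.p * k) := by
    have h7 : x - d ^ X.p = -((m ^ X.p - l) * X.w ^ (X.p * k) + X.p * y * z) := by
      rw [hd, hz2, hxl, hy, mul_pow, ← pow_mul, mul_comm k X.p]
      ring
    rw [h7, Valuation.map_neg]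
    refine Valuation.map_add_lt _ ?_ ?_
    · rw [map_mul, map_pow]
      exact mul_lt_of_lt_one_left (pow_pos hVpos _) hmp
    · rw [map_mul, map_mul, h.ep]
      calc X.V.valuation X.w ^ X.e * X.V.valuation y * X.V.valuation z
          ≤ X.V.valuation X.w ^ X.e * X.V.valuation X.w ^ k * 1 :=
            mul_le_mul' (mul_le_mul' le_rfl hyV) hz
        _ = X.V.valuation X.w ^ (X.e + k) := by rw [mul_one, pow_add]
        _ < X.V.valuation X.w ^ (X.p * k) := pow_lt_pow_right_of_lt_one₀ hVpos h.w1 hkp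
  refine ⟨β * d⁻¹, kg_scale X h hβ (inv_ne_zero hd0) (fun s hs => by rw [map_inv₀, hdE s hs]), ?_⟩
  have hK := kg_scale X h hβ (inv_ne_zero hd0) (fun s hs => by rw [map_inv₀, hdE s hs])
  refine val_succ X h (fun s hs => by rw [map_sub, hK.fx s hs, map_one]) ?_
  have h8 : (β * d⁻¹) ^ X.p - 1 = (x - d ^ X.p) / d ^ X.p := by
    have h9 : d ^ X.p ≠ 0 := pow_ne_zero _ hd0
    rw [mul_pow, ← hx, inv_pow]
    field_simp
  rw [h8, map_div₀, map_pow, hdV, one_pow, div_one]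
  exact hkey


end H19C
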