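import Mathlib
import Pool.Agent.Lib.H19C.Z1
import Pool.Agent.Lib.H19B.R1
import Pool.Agent.Lib.H19B.P1

/-! # H19C: close to 1 (port of H19B/K8) -/

namespace H19C

open H55P (Dec Inert)
open H19B (Rep zt)
open H19B (zt_zero zt_nat zt_add zt_ne zt_neg zt_mul zt_pow zt_inj zt_root zt_val zt_sub_one z1_val z1_le rep_prod rep_sum rep_exists pow_one_add pow_one_add')


open H55P (Dec Inert)

variable {F : Type} [Field F] {Ω : Type} [Field Ω] [Algebra F Ω]

/-- Chunk K8 (M). PROOF. Suppose a t ≠ 0, t in C, inert. ζ' = ζ (zt 1), ρ = V(ζ - 1), ρ^(p-1) = V(p) (zt_sub_one with a = 1), ρ < 1, ρ ≠ 0. V(β^p - 1)^(p-1) ≤ V(w)^(i(p-1)) ≤ V(w)^(e p) = V(p)^p = (ρ^p)^(p-1), so V(β^p - 1) ≤ ρ^p (i (p-1) ≥ e p > 0; pow_le_pow_left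
inverse). y = β - 1: V(β) = 1 (V(β^p) = 1), V(y) ≤ 1, β^p - 1 = y^p + p y z, V(z) ≤ 1 (pow_one_add). Claim V(y) ≤ ρ: otherwise V(y)^(p-1) > V(p), so V(p y z) < V(y)^p (y ≠ 0) and V(β^p - 1) = V(y)^p > ρ^p, contradiction. So y = (ζ - 1) u with V(u) ≤ 1.
t ζ = ζ (zD, om t = 1, zt 1 = ζ), so t β - β = (ζ - 1)(t u - u) has value < ρ (Inert V t, V(ζ - 1) ≠ 0). But t β = zt (a t) β, so V(t β - β) = V(zt (a t) - 1) V(β) = V(zt (a t) - 1), and its (p-1)-th power is V(p) = ρ^(p-1): the value is ρ. Contradiction. -/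
theorem kg_inert (X : Frm F Ω) (h : X.Ok) {a : (Ω ≃ₐ[F] Ω) → ZMod X.p} {β : Ω} (hβ : X.Kg a β) {i : ℕ}
    (hie : X.e * X.p ≤ i * (X.p - 1)) (h1 : X.V.valuation (β ^ X.p - 1) ≤ X.V.valuation X.w ^ i)
    (t : Ω ≃ₐ[F] Ω) (ht : t ∈ X.C) (hi : Inert X.V t) : a t = 0 := by
  by_contra hat
  have hp := h.pr
  have : Fact X.p.Prime := ⟨hp⟩
  have hp1 : X.p - 1 ≠ 0 := by have := hp.two_le; omega
  have hp0 : X.p ≠ 0 := hp.ne_zero
  set ρ := X.V.valuation (X.ζ - 1) with hρ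
  have hz1 : zt X.ζ (1 : ZMod X.p) = X.ζ := by
    have := zt_nat h.prim 1
    rw [Nat.cast_one, pow_one] at this
    exact this
  have hρp : ρ ^ (X.p - 1) = X.V.valuation (X.p : Ω) := by
    have := zt_sub_one hp h.prim X.V (1 : ZMod X.p) one_ne_zero
    rw [hz1] at this
    exact this
  have hvp1 := vp_lt X h
  have hw0 : X.V.valuation X.w ≠ 0 := (X.V.valuation.ne_zero_iff).2 h.w0
  have hρ0 : ρ ≠ 0 := by
    intro h0
    rw [h0, zero_pow hp1, h.ep] at hρp
    exact pow_ne_zero _ hw0 hρp.symm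
  have hρ1 : ρ < 1 := by
    by_contra h2
    push Not at h2
    have : 1 ≤ ρ ^ (X.p - 1) := one_le_pow₀ h2
    rw [hρp] at this
    exact absurd hvp1 (not_lt.2 this)
  -- step 1
  have hs1 : X.V.valuation (β ^ X.p - 1) ≤ ρ ^ X.p := by
    refine h1.trans ?_
    rw [← pow_le_pow_iff_left₀ zero_le zero_le hp1, ← pow_mul, ← pow_mul, mul_comm X.p, pow_mul ρ, hρp, h.ep, ← pow_mul]
    exact pow_le_pow_of_le_one zero_le h.w1.le hie
  have hρpl : ρ ^ X.p < 1 := pow_lt_one₀ zero_le hρ1 hp0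
  -- step 2
  have hvβ : X.V.valuation β = 1 := by
    have h2 : X.V.valuation (1 + (β ^ X.p - 1)) = 1 := Valuation.map_one_add_of_lt X.V.valuation (hs1.trans_lt hρpl)
    rw [add_sub_cancel, map_pow] at h2
    exact (pow_eq_one_iff.1 h2).resolve_right hp0
  have hy1 : X.V.valuation (β - 1) ≤ 1 := by
    refine (Valuation.map_sub _ _ _).trans ?_
    rw [hvβ, map_one, max_self]
  obtain ⟨z, hz, hyz⟩ := pow_one_add hp X.V hy1
  rw [add_sub_cancel] at hyz
  have hyz' : β ^ X.p - 1 = (β - 1) ^ X.p + X.p * (β - 1) * z := by rw [hyz]; ring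
  have hs3 : X.V.valuation (β - 1) ≤ ρ := by
    by_contra h2
    push Not at h2
    have h3 : X.V.valuation (X.p : Ω) < X.V.valuation (β - 1) ^ (X.p - 1) := by
      rw [← hρp]
      exact pow_lt_pow_left₀ h2 zero_le hp1
    have hy0 : 0 < X.V.valuation (β - 1) := lt_of_le_of_lt zero_le h2
    have h4 : X.V.valuation (X.p * (β - 1) * z) < X.V.valuation ((β - 1) ^ X.p) := by
      rw [map_mul, map_mul, map_pow]
      have h5 : X.V.valuation (β - 1) ^ X.p = X.V.valuation (β - 1) ^ (X.p - 1) * X.V.valuation (β - 1) := by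
        rw [← pow_succ, Nat.sub_add_cancel hp.one_le]
      rw [h5]
      calc X.V.valuation (X.p : Ω) * X.V.valuation (β - 1) * X.V.valuation z ≤ X.V.valuation (X.p : Ω) * X.V.valuation (β - 1) * 1 := by
            gcongr
        _ = X.V.valuation (X.p : Ω) * X.V.valuation (β - 1) := mul_one _
        _ < X.V.valuation (β - 1) ^ (X.p - 1) * X.V.valuation (β - 1) := by
            exact mul_lt_mul_of_pos_right h3 hy0
    have h6 : X.V.valuation (β ^ X.p - 1) = X.V.valuation (β - 1) ^ X.p := by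
      rw [hyz', Valuation.map_add_eq_of_lt_left _ h4, map_pow]
    rw [h6] at hs1
    exact absurd h2 (not_lt.2 ((pow_le_pow_iff_left₀ zero_le zero_le hp0).1 hs1))
  -- step 4
  have hζ1 : X.ζ - 1 ≠ 0 := (X.V.valuation.ne_zero_iff).1 hρ0
  obtain ⟨u, hu⟩ : ∃ u, β - 1 = (X.ζ - 1) * u := ⟨(β - 1) / (X.ζ - 1), by field_simp⟩
  have hVu : X.V.valuation u ≤ 1 := by
    rw [hu, map_mul] at hs3
    by_contra h2
    push Not at h2
    have : ρ * 1 < ρ * X.V.valuation u := mul_lt_mul_of_pos_left h2 (zero_lt_iff.2 hρ0)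
    rw [mul_one] at this
    exact absurd this (not_lt.2 hs3)
  have htζ : t X.ζ = X.ζ := by
    rw [h.zD t (h.le2 (h.le1 ht)), h.om1 t ht, hz1]
  have htβ : t β - β = (X.ζ - 1) * (t u - u) := by
    have h2 : β = 1 + (X.ζ - 1) * u := by rw [← hu]; ring
    rw [h2, map_add, map_mul, map_sub, map_one, htζ]
    ring
  have hlt : X.V.valuation (t β - β) < ρ := by
    rw [htβ, map_mul]
    have h2 := hi u ((ValuationSubring.valuation_le_one_iff _ _).1 hVu)
    have : ρ * X.V.valuation (t u - u) < ρ * 1 := mul_lt_mul_of_pos_left h2 (zero_lt_iff.2 hρ0)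
    rwa [mul_one] at this
  have heq : X.V.valuation (t β - β) = X.V.valuation (zt X.ζ (a t) - 1) := by
    rw [hβ.ev t ht]
    have : zt X.ζ (a t) * β - β = (zt X.ζ (a t) - 1) * β := by ring
    rw [this, map_mul, hvβ, mul_one]
  have h5 := zt_sub_one hp h.prim X.V (a t) hat
  rw [← hρp, ← heq] at h5
  have h6 := pow_lt_pow_left₀ hlt zero_le hp1
  rw [h5] at h6
  exact lt_irrefl _ h6


end H19C
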