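import Mathlib
import Pool.Agent.Lib.H19C.K4
import Pool.Agent.Lib.H19C.K6
import Pool.Agent.Lib.H19C.K7
import Pool.Agent.Lib.H19C.K8
import Pool.Agent.Lib.H19B.GA
import Pool.Agent.Lib.H19B.NC

/-! # H19C: index (port of H19B/FS) -/

namespace H19C

open H55P (Dec Inert)
open H19B (Rep zt)
open H19B (zt_zero zt_nat zt_add zt_ne zt_neg zt_mul zt_pow zt_inj zt_root zt_val zt_sub_one z1_val z1_le rep_prod rep_sum rep_exists pow_one_add pow_one_add')
open H19B (rel_le rel_ge rel_map rel_chain prod_count)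


open H55P (Dec Inert)

variable {F : Type} [Field F] {Ω : Type} [Field Ω] [Algebra F Ω]

theorem fs_one (X : Frm F Ω) {x : Ω} (hx : X.V.valuation (x - 1) < 1) : X.V.valuation x = 1 := by
  have h1 := Valuation.map_one_add_of_lt X.V.valuation hx
  rwa [add_sub_cancel] at h1

theorem fs_lt (X : Frm F Ω) (h : X.Ok) (i : ℕ) : X.V.valuation X.w ^ (i + 1) < 1 :=
  pow_lt_one₀ zero_le h.w1 (Nat.succ_ne_zero i)

/-- Chunk FS (S). PROOF. Kg 0 1 (kg_one); kg_mul and β^p γ^p - 1 = (β^p - 1) γ^p + (γ^p - 1), V(γ^p) = 1 (V(γ^p - 1) < 1); kg_inv and β^(-p) - 1 = -(β^p - 1) / β^p. -/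
theorem fl_zero (X : Frm F Ω) (h : X.Ok) (i : ℕ) : X.Fl i 0 := by
  refine ⟨X.TS.zero_mem, 1, kg_one X h, ?_⟩
  rw [one_pow, sub_self, map_zero]
  exact zero_le

/-- Chunk FS (S). -/
theorem fl_add (X : Frm F Ω) (h : X.Ok) (i : ℕ) {a b : (Ω ≃ₐ[F] Ω) → ZMod X.p} (ha : X.Fl i a) (hb : X.Fl i b) : X.Fl i (a + b) := by
  obtain ⟨ta, β, hβ, hβ'⟩ := ha
  obtain ⟨tb, γ, hγ, hγ'⟩ := hb
  refine ⟨X.TS.add_mem ta tb, β * γ, kg_mul X h hβ hγ, ?_⟩
  have h1 : X.V.valuation (γ ^ X.p) = 1 := fs_one X (hγ'.trans_lt (fs_lt X h i))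
  have e1 : (β * γ) ^ X.p - 1 = (β ^ X.p - 1) * γ ^ X.p + (γ ^ X.p - 1) := by ring
  rw [e1]
  refine (Valuation.map_add _ _ _).trans (max_le ?_ hγ')
  rw [map_mul, h1, mul_one]
  exact hβ'

/-- Chunk FS (S). -/
theorem fl_neg (X : Frm F Ω) (h : X.Ok) (i : ℕ) {a : (Ω ≃ₐ[F] Ω) → ZMod X.p} (ha : X.Fl i a) : X.Fl i (-a) := by
  obtain ⟨ta, β, hβ, hβ'⟩ := ha
  refine ⟨X.TS.neg_mem ta, β⁻¹, kg_inv X h hβ, ?_⟩
  have h1 : X.V.valuation (β ^ X.p) = 1 := fs_one X (hβ'.trans_lt (fs_lt X h i))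
  have h2 : β ^ X.p ≠ 0 := pow_ne_zero _ hβ.ne
  have e1 : (β⁻¹) ^ X.p - 1 = -((β ^ X.p - 1) * (β ^ X.p)⁻¹) := by
    rw [inv_pow]
    field_simp
    ring
  rw [e1, Valuation.map_neg, map_mul, map_inv₀, h1, inv_one, mul_one]
  exact hβ'

/-- The filtration of the twisted characters. -/
def TF (X : Frm F Ω) (h : X.Ok) (i : ℕ) : AddSubgroup ((Ω ≃ₐ[F] Ω) → ZMod X.p) where
  carrier := {a | X.Fl i a}
  zero_mem' := fl_zero X h i
  add_mem' := fun ha hb => fl_add X h i ha hb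
  neg_mem' := fun ha => fl_neg X h i ha

theorem mem_TF (X : Frm F Ω) (h : X.Ok) (i : ℕ) (a : (Ω ≃ₐ[F] Ω) → ZMod X.p) : a ∈ TF X h i ↔ X.Fl i a := Iff.rfl

/-- Chunk FS (S). V(w) < 1. -/
theorem tf_anti (X : Frm F Ω) (h : X.Ok) : Antitone (TF X h) := by
  intro i j hij a ha
  obtain ⟨ta, β, hβ, hβ'⟩ := ha
  exact ⟨ta, β, hβ, hβ'.trans (pow_le_pow_of_le_one zero_le h.w1.le (by omega))⟩

/-- The index of the characters with generators close to 1. -/
theorem tf_index (X : Frm F Ω) (h : X.Ok) : (TF X h 0).relIndex X.TS ≠ 0 ∧ (TF X h 0).relIndex X.TS ≤ X.p := by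
  classical
  have hne : NeZero X.p := ⟨h.pr.ne_zero⟩
  have hch : ∀ a : (Ω ≃ₐ[F] Ω) → ZMod X.p, ∃ (β : Ω) (i : ℤ), a ∈ X.TS →
      X.Kg a β ∧ X.V.valuation (β ^ X.p) = X.V.valuation X.w ^ i := by
    intro a
    by_cases ha : a ∈ X.TS
    · obtain ⟨β, i, h1, h2⟩ := kg_ex X h a ha
      exact ⟨β, i, fun _ => ⟨h1, h2⟩⟩
    · exact ⟨0, 0, fun h' => absurd h' ha⟩
  choose β i hβ using hch
  have h1 := rel_le (TF X h 0) X.TS (fun a => ((i a : ℤ) : ZMod X.p)) Finset.univ (fun a _ => Finset.mem_univ _)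
    (fun a ha b hb hab => by
      obtain ⟨ka, va⟩ := hβ a ha
      obtain ⟨kb, vb⟩ := hβ b hb
      have hk := kg_mul X h ka (kg_inv X h kb)
      rw [← sub_eq_add_neg] at hk
      have hw : X.V.valuation X.w ≠ 0 := (Valuation.ne_zero_iff _).2 h.w0
      have hv : X.V.valuation ((β a * (β b)⁻¹) ^ X.p) = X.V.valuation X.w ^ (i a - i b) := by
        rw [mul_pow, inv_pow, map_mul, map_inv₀, va, vb, ← zpow_neg, ← zpow_add₀ hw, sub_eq_add_neg]
      refine kg_unit X h (X.TS.sub_mem ha hb) hk hv ?_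
      rw [← ZMod.intCast_zmod_eq_zero_iff_dvd]
      push_cast
      exact sub_eq_zero.2 hab)
  refine ⟨h1.1, h1.2.trans ?_⟩
  rw [Finset.card_univ, ZMod.card]

/-- If D moves the points of E all characters have generators close to 1. -/
theorem tf_zero (X : Frm F Ω) (h : X.Ok) (hm : ∃ σ ∈ X.D, X.et σ ≠ 1) : TF X h 0 = X.TS := by
  ext a
  refine ⟨fun ha => ha.tw, fun ha => ?_⟩
  obtain ⟨σ, hσ, h1⟩ := hm
  obtain ⟨β, i, hβ, hi⟩ := kg_ex X h a ha
  exact kg_unit X h ha hβ hi (kg_dvd X h ha hβ hi hσ h1)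

open Classical in
/-- One step of the filtration. -/
theorem tf_step (X : Frm F Ω) (h : X.Ok) (i : ℕ) (hi : (i + 1) * (X.p - 1) < X.e * X.p) :
    (TF X h (i + 1)).relIndex (TF X h i) ≠ 0 ∧
      (TF X h (i + 1)).relIndex (TF X h i) ≤ if ¬ X.p ∣ i + 1 ∧ X.G (i + 1) then X.q else 1 := by
  by_cases hp : X.p ∣ i + 1
  · rw [if_neg (fun h' => h'.1 hp)]
    have h1 : TF X h i ≤ TF X h (i + 1) := by
      intro a ha
      obtain ⟨ta, β, hβ, hβ'⟩ := ha
      obtain ⟨γ, hγ, hγ'⟩ := improve X h hβ (Nat.succ_pos i) hp hi hβ'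
      exact ⟨ta, γ, hγ, hγ'⟩
    rw [AddSubgroup.relIndex_eq_one.2 h1]
    exact ⟨one_ne_zero, le_rfl⟩
  by_cases hG : X.G (i + 1)
  swap
  · rw [if_neg (fun h' => hG h'.2)]
    have h1 : TF X h i ≤ TF X h (i + 1) := by
      intro a ha
      obtain ⟨ta, β, hβ, hβ'⟩ := ha
      exact ⟨ta, β, hβ, lead_zero X h ta hβ hp hG hi hβ'⟩
    rw [AddSubgroup.relIndex_eq_one.2 h1]
    exact ⟨one_ne_zero, le_rfl⟩
  · rw [if_pos ⟨hp, hG⟩]
    have hw : X.w ^ (i + 1) ≠ 0 := pow_ne_zero _ h.w0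
    obtain ⟨ε, hε⟩ : ∃ ε : Ω, ε = (X.φ X.w / X.w) ^ (i + 1) := ⟨_, rfl⟩
    obtain ⟨n, hn⟩ : ∃ n : ℕ, n = (X.et X.φ).val := ⟨_, rfl⟩
    have hε1 : X.V.valuation ε = 1 := by rw [hε, map_pow, k6_w X h X.φ h.phi, one_pow]
    have hch : ∀ a : (Ω ≃ₐ[F] Ω) → ZMod X.p, ∃ (β : Ω) (l : X.V), a ∈ TF X h i →
        X.Kg a β ∧ X.V.valuation (β ^ X.p - 1) ≤ X.V.valuation X.w ^ (i + 1) ∧ β ^ X.p - 1 = l * X.w ^ (i + 1) ∧
          X.V.valuation (ε * (l : Ω) ^ X.q - n * l) < 1 := by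
      intro a
      by_cases ha : a ∈ TF X h i
      · obtain ⟨ta, β, hβ, hβ'⟩ := ha
        have hl : β ^ X.p - 1 = ((β ^ X.p - 1) / X.w ^ (i + 1)) * X.w ^ (i + 1) := (div_mul_cancel₀ _ hw).symm
        obtain ⟨h1, h2⟩ := lead_eq X h ta hβ hp hi hβ' hl
        rw [← hε, ← hn] at h2
        exact ⟨β, ⟨_, (ValuationSubring.valuation_le_one_iff _ _).1 h1⟩, fun _ => ⟨hβ, hβ', hl, h2⟩⟩
      · exact ⟨0, 0, fun h' => absurd h' ha⟩
    choose β l hβl using hch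
    obtain ⟨εV, hεV⟩ : ∃ εV : X.V, (εV : Ω) = ε := ⟨⟨ε, (ValuationSubring.valuation_le_one_iff _ _).1 hε1.le⟩, rfl⟩
    have hε0 : IsLocalRing.residue X.V εV ≠ 0 := by
      intro h0
      have h1 := (ValuationSubring.valuation_lt_one_iff _ εV).1 ((IsLocalRing.residue_eq_zero_iff εV).1 h0)
      rw [hεV, hε1] at h1
      exact lt_irrefl _ h1
    obtain ⟨P, hP⟩ : ∃ P : Polynomial (IsLocalRing.ResidueField X.V),
        P = Polynomial.C (IsLocalRing.residue X.V εV) * Polynomial.X ^ X.q -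
          Polynomial.C (n : IsLocalRing.ResidueField X.V) * Polynomial.X := ⟨_, rfl⟩
    have hPd : P.natDegree = X.q := by
      rw [hP]
      apply Polynomial.natDegree_eq_of_degree_eq_some
      rw [Polynomial.degree_sub_eq_left_of_degree_lt]
      · exact Polynomial.degree_C_mul_X_pow _ hε0
      · rw [Polynomial.degree_C_mul_X_pow _ hε0]
        refine (Polynomial.degree_C_mul_X_le _).trans_lt ?_
        exact_mod_cast h.q0
    have hP0 : P ≠ 0 := by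
      intro h0
      rw [h0, Polynomial.natDegree_zero] at hPd
      have := h.q0
      omega
    have hres : ∀ x : X.V, X.V.valuation (x : Ω) < 1 → IsLocalRing.residue X.V x = 0 := fun x hx =>
      (IsLocalRing.residue_eq_zero_iff x).2 ((ValuationSubring.valuation_lt_one_iff _ x).2 hx)
    have hres' : ∀ x : X.V, IsLocalRing.residue X.V x = 0 → X.V.valuation (x : Ω) < 1 := fun x hx =>
      (ValuationSubring.valuation_lt_one_iff _ x).1 ((IsLocalRing.residue_eq_zero_iff x).1 hx)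
    have h1 := rel_le (TF X h (i + 1)) (TF X h i) (fun a => IsLocalRing.residue X.V (l a)) P.roots.toFinset
      (fun a ha => by
        obtain ⟨-, -, -, h2⟩ := hβl a ha
        rw [Multiset.mem_toFinset, Polynomial.mem_roots hP0, Polynomial.IsRoot.def, hP]
        rw [Polynomial.eval_sub, Polynomial.eval_mul, Polynomial.eval_pow, Polynomial.eval_X, Polynomial.eval_mul, Polynomial.eval_C,
          Polynomial.eval_C, Polynomial.eval_X]
        have h3 := hres (εV * (l a) ^ X.q - n * l a) (by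
          push_cast
          rw [hεV]
          exact h2)
        rw [map_sub, map_mul, map_pow, map_mul, map_natCast] at h3
        exact h3)
      (fun a ha b hb hab => by
        obtain ⟨ka, va, la, -⟩ := hβl a ha
        obtain ⟨kb, vb, lb, -⟩ := hβl b hb
        have h4 : IsLocalRing.residue X.V (l a - l b) = 0 := by
          rw [map_sub, sub_eq_zero]
          exact hab
        have h5 := hres' _ h4
        have h6 : X.V.valuation ((β b) ^ X.p) = 1 := fs_one X (vb.trans_lt (fs_lt X h i))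
        have h7 : (β b) ^ X.p ≠ 0 := pow_ne_zero _ kb.ne
        have hk := kg_mul X h ka (kg_inv X h kb)
        rw [← sub_eq_add_neg] at hk
        refine ⟨X.TS.sub_mem ha.tw hb.tw, _, hk, ?_⟩
        refine val_succ X h ?_ ?_
        · intro s hs
          rw [map_sub, map_one, hk.fx s hs]
        · have e1 : (β a * (β b)⁻¹) ^ X.p - 1 = (((l a - l b : X.V) : Ω) * X.w ^ (i + 1)) * ((β b) ^ X.p)⁻¹ := by
            have e2 : (β a) ^ X.p - (β b) ^ X.p = ((l a - l b : X.V) : Ω) * X.w ^ (i + 1) := by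
              push_cast
              linear_combination la - lb
            rw [← e2, mul_pow, inv_pow]
            field_simp
          rw [e1, map_mul, map_inv₀, h6, inv_one, mul_one, map_mul, map_pow]
          have h8 : X.V.valuation X.w ^ (i + 1) ≠ 0 := pow_ne_zero _ ((Valuation.ne_zero_iff _).2 h.w0)
          exact mul_lt_of_lt_one_left (zero_lt_iff.2 h8) h5)
    refine ⟨h1.1, h1.2.trans ?_⟩
    refine (Multiset.toFinset_card_le _).trans ?_
    rw [← hPd]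
    exact Polynomial.card_roots' P

/-- The index in the characters with generators close to 1. -/
theorem ti_index0 (X : Frm F Ω) (h : X.Ok) :
    (X.TI ⊓ TF X h 0).relIndex (TF X h 0) ≠ 0 ∧ (X.TI ⊓ TF X h 0).relIndex (TF X h 0) ≤ X.q ^ X.b := by
  classical
  have hp2 := h.odd
  have he := h.e0
  have hep : 0 < X.e * X.p := Nat.mul_pos he (by omega)
  obtain ⟨k, hk⟩ : ∃ k : ℕ, k = (X.e * X.p - 1) / (X.p - 1) := ⟨_, rfl⟩
  have hk1 : k * (X.p - 1) < X.e * X.p := by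
    have h1 := Nat.div_mul_le_self (X.e * X.p - 1) (X.p - 1)
    rw [← hk] at h1
    omega
  have hk2 : X.e * X.p ≤ (k + 1) * (X.p - 1) := by
    have h1 := Nat.lt_mul_div_succ (X.e * X.p - 1) (show 0 < X.p - 1 by omega)
    rw [← hk, mul_comm (X.p - 1)] at h1
    omega
  have h1 := rel_chain (TF X h) (tf_anti X h) (fun i => if ¬ X.p ∣ i + 1 ∧ X.G (i + 1) then X.q else 1) k (fun i hi =>
    tf_step X h i ((Nat.mul_le_mul_right _ (Nat.succ_le_of_lt hi)).trans_lt hk1))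
  have hc : ∏ i ∈ Finset.range k, (if ¬ X.p ∣ i + 1 ∧ X.G (i + 1) then X.q else 1) ≤ X.q ^ X.b := by
    rw [Finset.prod_ite, Finset.prod_const_one, mul_one, Finset.prod_const]
    refine Nat.pow_le_pow_right (by have := h.q0; omega) (h.cnt k _ hk1 fun i hi => ?_)
    rw [Finset.mem_filter, Finset.mem_range] at hi
    exact ⟨hi.1, hi.2.1, hi.2.2⟩
  have h2 : TF X h k ≤ X.TI ⊓ TF X h 0 := by
    intro a ha
    refine ⟨?_, tf_anti X h (Nat.zero_le k) ha⟩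
    obtain ⟨ta, β, hβ, hβ'⟩ := ha
    exact ⟨ta, fun t ht hi => kg_inert X h hβ hk2 hβ' t ht hi⟩
  have h3 : (X.TI ⊓ TF X h 0).relIndex (TF X h 0) ∣ (TF X h k).relIndex (TF X h 0) := AddSubgroup.relIndex_dvd_of_le_left _ h2
  refine ⟨fun h0 => h1.1 ?_, (Nat.le_of_dvd (Nat.pos_of_ne_zero h1.1) h3).trans (h1.2.trans hc)⟩
  rw [h0] at h3
  exact Nat.eq_zero_of_zero_dvd h3

/-- THE LOCAL INDEX: in general. -/
theorem ti_index1 (X : Frm F Ω) (h : X.Ok) : X.TI.relIndex X.TS ≠ 0 ∧ X.TI.relIndex X.TS ≤ X.q ^ X.b * X.p := by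
  obtain ⟨a1, a2⟩ := ti_index0 X h
  obtain ⟨b1, b2⟩ := tf_index X h
  have hle : X.TI ⊓ TF X h 0 ≤ TF X h 0 := inf_le_right
  have hle2 : TF X h 0 ≤ X.TS := fun a ha => ha.tw
  have h1 := AddSubgroup.relIndex_mul_relIndex (X.TI ⊓ TF X h 0) (TF X h 0) X.TS hle hle2
  have h2 : X.TI.relIndex X.TS ∣ (X.TI ⊓ TF X h 0).relIndex X.TS := AddSubgroup.relIndex_dvd_of_le_left _ inf_le_left
  have h3 : (X.TI ⊓ TF X h 0).relIndex X.TS ≠ 0 := by
    rw [← h1]
    exact Nat.mul_ne_zero a1 b1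
  refine ⟨fun h0 => h3 (Nat.eq_zero_of_zero_dvd (h0 ▸ h2)), (Nat.le_of_dvd (Nat.pos_of_ne_zero h3) h2).trans ?_⟩
  rw [← h1]
  exact Nat.mul_le_mul a2 b2

/-- THE LOCAL INDEX: if D moves the points of E. -/
theorem ti_index2 (X : Frm F Ω) (h : X.Ok) (hm : ∃ σ ∈ X.D, X.et σ ≠ 1) :
    X.TI.relIndex X.TS ≠ 0 ∧ X.TI.relIndex X.TS ≤ X.q ^ X.b := by
  obtain ⟨a1, a2⟩ := ti_index0 X h
  rw [tf_zero X h hm] at a1 a2
  have h2 : X.TI.relIndex X.TS ∣ (X.TI ⊓ X.TS).relIndex X.TS := AddSubgroup.relIndex_dvd_of_le_left _ inf_le_left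
  exact ⟨fun h0 => a1 (Nat.eq_zero_of_zero_dvd (h0 ▸ h2)), (Nat.le_of_dvd (Nat.pos_of_ne_zero a1) h2).trans a2⟩

end H19C
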