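import Mathlib
import Pool.Agent.Lib.H19C.D2
import Pool.Agent.Lib.H13X.XLZ

/-! # H19C, chunk LE: unramified cocycles with values in the etale part are locally coboundaries -/

open NumberField IsDedekindDomain WeierstrassCurve

namespace H19C

open H55P (IQ Pt ac Dec Inert decS Nm)
open H35P (WAB Ker tt)
open H55K (Tor CMA Dta GV ak cj xc yc)
open H55K.S
open H19B (DN mem_DN Cc CS mem_CS)
open H13X (exists_frobK inert_tors fin_move phi_surj dec_gen lp_fin lp_adj)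
open H13S (Abv)

variable {F : Type} [Field F] [NumberField F] [IQ F] {A B : F} {Om : ℂ} {Ω : Type} [Field Ω] [DecidableEq Ω]
  [Algebra F Ω] [IsAlgClosure F Ω] {j : Ω →+* ℂ} {act : 𝓞 F →+* AddMonoid.End (Pt (WAB A B) Ω)} {mo : Ideal (𝓞 F)}
  {ψ : Ideal (𝓞 F) →*₀ 𝓞 F} {p : ℕ} {V : ValuationSubring Ω} {π : 𝓞 F}

/-- A cocycle of the decomposition group which is zero on inertia and at a Frobenius element is zero. -/
theorem dn_gen {N : IntermediateField F Ω} [NumberField N] {v : HeightOneSpectrum (𝓞 N)} (hv : Abv N V v)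
    {d : (Ω ≃ₐ[F] Ω) → Pt (WAB A B) Ω} (hd : ∀ s ∈ DN N V, ∀ t ∈ DN N V, d (s * t) = d s + ac (WAB A B) s (d t))
    (hc : ∃ L : IntermediateField F Ω, FiniteDimensional F L ∧ ∀ s ∈ DN N V, s ∈ L.fixingSubgroup → d s = 0)
    (hI : ∀ s ∈ DN N V, Inert V s → d s = 0) {φ : Ω ≃ₐ[F] Ω} (hφ : φ ∈ DN N V)
    (hφF : ∀ x : Ω, V.valuation x ≤ 1 → V.valuation (φ x - x ^ Ideal.absNorm v.asIdeal) < 1) (h0 : d φ = 0)
    {s : Ω ≃ₐ[F] Ω} (hs : s ∈ DN N V) : d s = 0 := by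
  obtain ⟨L, hL, hL0⟩ := hc
  exact dec_gen hv (fun s hs hsD t ht htD => hd s ⟨hs, hsD⟩ t ⟨ht, htD⟩) ⟨L, hL, fun s hs hsL hsD => hL0 s ⟨hs, hsD⟩ hsL⟩
    (fun s hs hi => hI s ⟨hs, H55P.inert_dec V s hi⟩ hi) hφ.1 hφ.2
    (fun x hx => hφF x ((V.valuation_le_one_iff _).2 hx)) h0 hs.1 hs.2

/-- THE LOCAL CONDITION at the primes where the coefficients are the etale part. -/
theorem loc_etale (dta : Dta A B Om j act mo ψ p) (hπ : Prime π) (ha : V.valuation (ak Ω π) = 1) (hV : V.valuation (p : Ω) < 1)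
    (N : IntermediateField F Ω) [NumberField N] {v : HeightOneSpectrum (𝓞 N)} (hv : Abv N V v)
    {c : (Ω ≃ₐ[F] Ω) → Pt (WAB A B) Ω} (hc : Cc (DN N V) act π c) (hi : ∀ s ∈ DN N V, Inert V s → c s = 0) :
    ∃ P : Pt (WAB A B) Ω, ∀ s ∈ DN N V, c s = ac (WAB A B) s P - P := by
  have hA := dta.cma
  have hG : GV A B V := dta.good V hV
  obtain ⟨φ, hφN, hφD, hφF⟩ := exists_frobK N hv
  have hQ : 2 ≤ Ideal.absNorm v.asIdeal := by
    have h1 : Ideal.absNorm v.asIdeal ≠ 0 := by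
      rw [Ne, Ideal.absNorm_eq_zero_iff]
      exact v.ne_bot
    have h2 : Ideal.absNorm v.asIdeal ≠ 1 := by
      rw [Ne, Ideal.absNorm_eq_one_iff]
      exact v.isPrime.ne_top
    omega
  have hpow1 : ∀ n, vo V (π ^ n) = 1 := fun n => by
    rw [vo_pow]
    have : vo V π = 1 := ha
    rw [this, one_pow]
  have hfix : ∀ s : Ω ≃ₐ[F] Ω, Inert V s → ∀ (n : ℕ), ∀ P ∈ Tor act (π ^ n), ac (WAB A B) s P = P := fun s hs n P hP =>
    inert_tors hA hG (hpow1 n) hs hP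
  have hnk : ∀ n : ℕ, ∀ P ∈ Tor act (π ^ n), P ≠ 0 → ¬ Ker V P := fun n P hP h0 hK =>
    h0 (kr_tor hA hG _ (hpow1 n) hP hK)
  have hmove : ∃ n : ℕ, ∃ T ∈ Tor act (π ^ n), ac (WAB A B) φ T ≠ T := by
    refine fin_move hA hπ hQ hφF (r := 1) one_ne_zero fun n P hP P' hP' h0 h0' h2 h3 => ?_
    exact H55K.cls_diff hG (hnk n P hP h0) (hnk n P' hP' h0')
      (hnk n _ (sub_mem hP hP') (sub_ne_zero.2 h2))
      (hnk n _ (add_mem hP hP') (fun h4 => h3 (eq_neg_of_add_eq_zero_left h4)))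
  have hφDN : φ ∈ DN N V := mem_DN.2 ⟨hφN, hφD⟩
  have hcφ : c φ ∈ Tor act π := hc.tor φ hφDN
  obtain ⟨n, P, hP, hPR⟩ := phi_surj hA hπ hmove hcφ
  refine ⟨P, fun s hs => ?_⟩
  have h0 : c s - (ac (WAB A B) s P - P) = 0 := by
    refine dn_gen (d := fun s => c s - (ac (WAB A B) s P - P)) hv (fun s hs t ht => ?_) ?_ (fun s hs hin => ?_) hφDN
      (fun x hx => hφF x ((V.valuation_le_one_iff _).1 hx)) ?_ hs
    · show c (s * t) - (ac (WAB A B) (s * t) P - P) = _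
      rw [hc.mul s hs t ht, ac_mul, map_sub, map_sub]
      abel
    · obtain ⟨M, hM, hM0⟩ := hc.cont
      have hf2 := lp_fin P
      refine ⟨M ⊔ IntermediateField.adjoin F {xc P, yc P}, inferInstance, fun s hs hsN => ?_⟩
      rw [IntermediateField.fixingSubgroup_sup, Subgroup.mem_inf] at hsN
      show c s - (ac (WAB A B) s P - P) = 0
      rw [hM0 s hs hsN.1, lp_adj s P hsN.2, sub_self, sub_self]
    · show c s - (ac (WAB A B) s P - P) = 0
      rw [hi s hs hin, hfix s hin n P hP]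
      abel
    · show c φ - (ac (WAB A B) φ P - P) = 0
      rw [hPR, sub_self]
  exact sub_eq_zero.1 h0

end H19C
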