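import Mathlib
import Pool.Agent.Lib.H19C.FB
import Pool.Agent.Lib.H19C.FS
import Pool.Agent.Lib.H19C.AC
import Pool.Agent.Lib.H19C.LE
import Pool.Agent.Lib.H19B.GA
import Pool.Agent.Lib.H13X.XG3

/-! # H19C, chunk LB: the local index at the primes where the coefficients are the etale part -/

open NumberField IsDedekindDomain WeierstrassCurve

namespace H19C

open H55P (IQ Pt ac Dec Inert decS Nm)
open H35P (WAB Ker tt)
open H55K (Tor CMA Dta GV ak cj xc yc)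
open H19B (DN mem_DN Cc CS mem_CS)
open H13S (Abv)

variable {F : Type} [Field F] [NumberField F] [IQ F] {A B : F} {Om : ℂ} {Ω : Type} [Field Ω] [DecidableEq Ω]
  [Algebra F Ω] {j : Ω →+* ℂ} {act : 𝓞 F →+* AddMonoid.End (Pt (WAB A B) Ω)} {mo : Ideal (𝓞 F)}
  {ψ : Ideal (𝓞 F) →*₀ 𝓞 F} {p : ℕ} {V : ValuationSubring Ω} {π : 𝓞 F}

/-- p if D fixes the points killed by ρ, 1 otherwise. -/
noncomputable def dl (p : ℕ) (D : Subgroup (Ω ≃ₐ[F] Ω)) (act : 𝓞 F →+* AddMonoid.End (Pt (WAB A B) Ω)) (ρ : 𝓞 F) : ℕ :=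
  open Classical in if ∀ s ∈ D, ∀ T : Pt (WAB A B) Ω, act ρ T = 0 → ac (WAB A B) s T = T then p else 1

variable [IsAlgClosure F Ω]

/-- The index of the group TI. -/
theorem ti_dl {X : Frm F Ω} {N : IntermediateField F Ω} (hX : Of X act π N) :
    X.TI.relIndex X.TS ≠ 0 ∧ X.TI.relIndex X.TS ≤ X.q ^ X.b * dl X.p X.D act (cj π) := by
  classical
  refine ⟨(ti_index1 X hX.ok).1, ?_⟩
  unfold dl
  split_ifs with h
  · exact (ti_index1 X hX.ok).2
  · rw [mul_one]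
    push Not at h
    obtain ⟨s, hs, T, hT, hne⟩ := h
    refine (ti_index2 X hX.ok ⟨s, hs, fun h1 => hne ?_⟩).2
    have hf : Fact X.p.Prime := ⟨hX.ok.pr⟩
    have h2 := hX.ch' s hs T hT
    rw [h1, ZMod.val_one, one_nsmul] at h2
    exact h2

/-- The index of the unramified cocycles. -/
theorem cu_index (dta : Dta A B Om j act mo ψ p) (hπ : Prime π) (hd : π ∣ (p : 𝓞 F)) (hs : ¬ π ∣ cj π)
    (hV : V.valuation (ak Ω (cj π)) < 1) (N : IntermediateField F Ω) [NumberField N] {v : HeightOneSpectrum (𝓞 N)}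
    (hv : Abv N V v) {b : ℕ} (hb0 : 0 < b) (hb : v.valuation N (algebraMap F N ((cj π : 𝓞 F) : F)) = WithZero.exp (-(b : ℤ))) :
    (CU (DN N V) (DN N V) V act π).relIndex (CS (DN N V) act π) ≠ 0 ∧
      (CU (DN N V) (DN N V) V act π).relIndex (CS (DN N V) act π) ≤
        Ideal.absNorm v.asIdeal ^ b * dl p (DN N V) act (cj π) := by
  obtain ⟨X, rfl, rfl, hq, hXb, hX⟩ := exists_frmB dta hπ hd hs hV N hv hb0 hb
  obtain ⟨T₀, hT1, hT2, hT3, hT4⟩ := H19B.exists_T0 dta.cma dta.prime dta.unr hπ hd hs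
  obtain ⟨hpp, u, v₁, huv⟩ := H19B.tors_split dta.cma dta.prime dta.unr hπ hd hs
  have ha : X.V.valuation (ak Ω π) = 1 := H55K.S.vo_unit (π := cj π) ⟨v₁, u, by rw [add_comm]; exact huv⟩ hV
  have hp0 : X.V.valuation (X.p : Ω) < 1 := by
    have e1 : (X.p : Ω) = ak Ω (X.p : 𝓞 F) := by simp [ak]
    have e2 := H55K.S.vo_mul X.V π (cj π)
    rw [hpp] at e2
    rw [e1]
    refine lt_of_eq_of_lt e2 ?_
    have e3 : H55K.S.vo X.V π = 1 := ha
    rw [e3, one_mul]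
    exact hV
  have hG := dta.good X.V hp0
  have hti := ti_dl hX
  rw [← hX.D]
  have h := H19B.rel_map (CU X.D X.D X.V act π) (CS X.D act π) X.TI X.TS (ach X T₀)
    (fun c hc => ach_tw hX hT1 hT2 hT3 hT4 hc)
    (fun c hc c' hc' h => ach_inertB dta hX hG hπ hd hs ha hT2 hc hc' fun t ht hti => by
      have h1 := h.2 t ht hti
      rw [Pi.sub_apply, sub_eq_zero] at h1
      exact h1) hti.1
  refine ⟨h.1, h.2.trans ?_⟩
  rw [hq, hXb] at hti
  exact hti.2

/-- The elements of the decomposition group over N' lie in the one over N. -/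
theorem dn_mono {N N' : IntermediateField F Ω} (hNN : N ≤ N') : DN N' V ≤ DN N V := fun _ hs =>
  mem_DN.2 ⟨IntermediateField.fixingSubgroup_antitone hNN (mem_DN.1 hs).1, (mem_DN.1 hs).2⟩

/-- Unramified over N' implies the local condition over N'. -/
theorem cu_le_cl (dta : Dta A B Om j act mo ψ p) (hπ : Prime π) (ha : V.valuation (ak Ω π) = 1) (hV : V.valuation (p : Ω) < 1)
    (hVt : V ≠ ⊤) (N N' : IntermediateField F Ω) [NumberField N'] (hNN : N ≤ N') :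
    CU (DN N V) (DN N' V) V act π ≤ CL (DN N V) (DN N' V) act π := by
  rintro c ⟨hc, hi⟩
  obtain ⟨v', hv'⟩ := H13X.xg3_below N' hVt
  have hm := dn_mono (V := V) hNN
  have hc' : Cc (DN N' V) act π c := by
    refine ⟨fun s hs t ht => hc.mul s (hm hs) t (hm ht), fun s hs => hc.tor s (hm hs), ?_⟩
    obtain ⟨L, hL, h1⟩ := hc.cont
    exact ⟨L, hL, fun s hs hsL => h1 s (hm hs) hsL⟩
  exact ⟨hc, loc_etale dta hπ ha hV N' hv' hc' hi⟩

/-- Values above p. -/
theorem val_B (dta : Dta A B Om j act mo ψ p) (hπ : Prime π) (hd : π ∣ (p : 𝓞 F)) (hs : ¬ π ∣ cj π)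
    (hV : V.valuation (ak Ω (cj π)) < 1) : V.valuation (ak Ω π) = 1 ∧ V.valuation (p : Ω) < 1 ∧ V ≠ ⊤ := by
  obtain ⟨hpp, u, v₁, huv⟩ := H19B.tors_split dta.cma dta.prime dta.unr hπ hd hs
  have ha : V.valuation (ak Ω π) = 1 := H55K.S.vo_unit (π := cj π) ⟨v₁, u, by rw [add_comm]; exact huv⟩ hV
  refine ⟨ha, ?_, ?_⟩
  · have e1 : (p : Ω) = ak Ω (p : 𝓞 F) := by simp [ak]
    have e2 := H55K.S.vo_mul V π (cj π)
    rw [hpp] at e2
    rw [e1]
    refine lt_of_eq_of_lt e2 ?_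
    have e3 : H55K.S.vo V π = 1 := ha
    rw [e3, one_mul]
    exact hV
  · rintro rfl
    have h0 : ak Ω (cj π) ≠ 0 := by
      unfold ak
      rw [Ne, map_eq_zero, RingOfIntegers.coe_eq_zero_iff]
      exact (H55K.cj_prime hπ).ne_zero
    have h1 : (ak Ω (cj π))⁻¹ ∈ (⊤ : ValuationSubring Ω) := trivial
    rw [← ValuationSubring.valuation_le_one_iff, map_inv₀] at h1
    have h2 : (⊤ : ValuationSubring Ω).valuation (ak Ω (cj π)) ≠ 0 := (map_ne_zero _).2 h0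
    rw [inv_le_one₀ (zero_lt_iff.2 h2)] at h1
    exact absurd hV (not_lt.2 h1)

/-- THE LOCAL INDEX where the coefficients are the etale part. -/
theorem loc_B (dta : Dta A B Om j act mo ψ p) (hπ : Prime π) (hd : π ∣ (p : 𝓞 F)) (hs : ¬ π ∣ cj π)
    (hV : V.valuation (ak Ω (cj π)) < 1) (N N' : IntermediateField F Ω) [NumberField N] [NumberField N'] (hNN : N ≤ N')
    {v : HeightOneSpectrum (𝓞 N)}
    (hv : Abv N V v) {b : ℕ} (hb0 : 0 < b) (hb : v.valuation N (algebraMap F N ((cj π : 𝓞 F) : F)) = WithZero.exp (-(b : ℤ))) :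
    (CL (DN N V) (DN N' V) act π).relIndex (CS (DN N V) act π) ≠ 0 ∧
      (CL (DN N V) (DN N' V) act π).relIndex (CS (DN N V) act π) ≤
        Ideal.absNorm v.asIdeal ^ b * dl p (DN N V) act (cj π) := by
  obtain ⟨ha, hp0, hVt⟩ := val_B dta hπ hd hs hV
  obtain ⟨h1, h2⟩ := cu_index dta hπ hd hs hV N hv hb0 hb
  have h3 : CU (DN N V) (DN N V) V act π ≤ CU (DN N V) (DN N' V) V act π := fun c hc =>
    ⟨hc.1, fun s hs hi => hc.2 s (dn_mono hNN hs) hi⟩
  have h4 := h3.trans (cu_le_cl dta hπ ha hp0 hVt N N' hNN)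
  have h5 := AddSubgroup.relIndex_le_of_le_left h4 h1
  exact ⟨fun h0 => h1 (AddSubgroup.relIndex_eq_zero_of_le_left h4 h0), h5.trans h2⟩

omit [IQ F] [DecidableEq Ω] in
/-- A character of the group of N with kernel the group of N'. -/
theorem exists_chr (hp : p.Prime) {N N' : IntermediateField F Ω} [FiniteDimensional F N'] (hNN : N ≤ N')
    (hn : ∀ s ∈ N.fixingSubgroup, ∀ x ∈ N', s x ∈ N') (hd : Module.finrank F N' = Module.finrank F N * p) :
    ∃ χ : (Ω ≃ₐ[F] Ω) → ZMod p, (∀ s ∈ N.fixingSubgroup, ∀ t ∈ N.fixingSubgroup, χ (s * t) = χ s + χ t) ∧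
      ∀ s ∈ N.fixingSubgroup, (χ s = 0 ↔ s ∈ N'.fixingSubgroup) := by
  classical
  have hpf : Fact p.Prime := ⟨hp⟩
  have hcl : IsAlgClosed Ω := IsAlgClosure.isAlgClosed F
  have hal : Algebra.IsAlgebraic F Ω := IsAlgClosure.isAlgebraic
  have hnormal : Normal F Ω := IsAlgClosure.normal F Ω
  have hgal : IsGalois F Ω := IsAlgClosure.isGalois F Ω
  have hHG : N'.fixingSubgroup ≤ N.fixingSubgroup := IntermediateField.fixingSubgroup_antitone hNN
  have hNf : FiniteDimensional F N := H55P.finDim_of_le hNN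
  have hcard : Nat.card (N.fixingSubgroup ⧸ N'.fixingSubgroup.subgroupOf N.fixingSubgroup) = p := by
    have h1 := Subgroup.relIndex_mul_index hHG
    rw [← IntermediateField.finrank_eq_fixingSubgroup_index, ← IntermediateField.finrank_eq_fixingSubgroup_index, hd, mul_comm] at h1
    have h2 : 0 < Module.finrank F N := Module.finrank_pos
    exact Nat.eq_of_mul_eq_mul_left h2 h1
  have hnorm : (N'.fixingSubgroup.subgroupOf N.fixingSubgroup).Normal := by
    constructor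
    intro n hn' g
    rw [Subgroup.mem_subgroupOf] at hn' ⊢
    rw [IntermediateField.mem_fixingSubgroup_iff] at hn' ⊢
    intro x hx
    have h1 : (g : Ω ≃ₐ[F] Ω)⁻¹ x ∈ N' := hn _ (inv_mem g.2) x hx
    show (g : Ω ≃ₐ[F] Ω) ((n : Ω ≃ₐ[F] Ω) ((g : Ω ≃ₐ[F] Ω)⁻¹ x)) = x
    rw [hn' _ h1]
    exact (g : Ω ≃ₐ[F] Ω).apply_symm_apply x
  let e : (N.fixingSubgroup ⧸ N'.fixingSubgroup.subgroupOf N.fixingSubgroup) ≃* Multiplicative (ZMod p) :=
    mulEquivOfPrimeCardEq (p := p) hcard (by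
      show Nat.card (ZMod p) = p
      exact Nat.card_zmod p)
  refine ⟨fun s => if h : s ∈ N.fixingSubgroup then
    Multiplicative.toAdd (e (QuotientGroup.mk' _ ⟨s, h⟩)) else 0, fun s hs t ht => ?_, fun s hs => ?_⟩
  · have hst := mul_mem hs ht
    simp only [dif_pos hs, dif_pos ht, dif_pos hst]
    rw [← toAdd_mul, ← map_mul, ← map_mul]
    rfl
  · simp only [dif_pos hs]
    have h1 : Multiplicative.toAdd (e (QuotientGroup.mk' (N'.fixingSubgroup.subgroupOf N.fixingSubgroup) ⟨s, hs⟩)) = 0 ↔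
        e (QuotientGroup.mk' (N'.fixingSubgroup.subgroupOf N.fixingSubgroup) ⟨s, hs⟩) = 1 := Iff.rfl
    rw [h1, map_eq_one_iff e e.injective]
    show ((⟨s, hs⟩ : N.fixingSubgroup) : N.fixingSubgroup ⧸ N'.fixingSubgroup.subgroupOf N.fixingSubgroup) = 1 ↔ _
    rw [QuotientGroup.eq_one_iff, Subgroup.mem_subgroupOf]

/-- The ramified class: the index of the unramified cocycles over N in those over N' is at least p. -/
theorem chr_index (dta : Dta A B Om j act mo ψ p) (hπ : Prime π) (hd : π ∣ (p : 𝓞 F)) (hs : ¬ π ∣ cj π)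
    {N N' : IntermediateField F Ω} [FiniteDimensional F N'] (hNN : N ≤ N')
    (hn : ∀ s ∈ N.fixingSubgroup, ∀ x ∈ N', s x ∈ N') (hdeg : Module.finrank F N' = Module.finrank F N * p)
    (hfx : ∀ s ∈ DN N V, ∀ T : Pt (WAB A B) Ω, act π T = 0 → ac (WAB A B) s T = T)
    (hram : ∃ s ∈ N.fixingSubgroup, Inert V s ∧ s ∉ N'.fixingSubgroup)
    (hf : (CU (DN N V) (DN N V) V act π).relIndex (CU (DN N V) (DN N' V) V act π) ≠ 0) :
    p ≤ (CU (DN N V) (DN N V) V act π).relIndex (CU (DN N V) (DN N' V) V act π) := by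
  classical
  have hp := dta.prime
  have hpf : Fact p.Prime := ⟨hp⟩
  have hne : NeZero p := ⟨hp.ne_zero⟩
  obtain ⟨T₀, hT1, hT2, hT3, hT4⟩ := H19B.exists_T0 dta.cma dta.prime dta.unr hπ hd hs
  obtain ⟨χ, hχ1, hχ2⟩ := exists_chr hp hNN hn hdeg
  have hfT : ∀ s ∈ DN N V, ∀ k : ℕ, ac (WAB A B) s (k • T₀) = k • T₀ := fun s hs k =>
    hfx s hs _ (by rw [map_nsmul, hT1, nsmul_zero])
  have hcc : Cc (DN N V) act π (fun s => (χ s).val • T₀) := by
    refine ⟨fun s hs t ht => ?_, fun s hs => ?_, N', inferInstance, fun s hs hsN => ?_⟩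
    · show (χ (s * t)).val • T₀ = (χ s).val • T₀ + ac (WAB A B) s ((χ t).val • T₀)
      rw [hχ1 s (mem_DN.1 hs).1 t (mem_DN.1 ht).1, H19B.c4_add hT4, hfT s hs]
    · show act π ((χ s).val • T₀) = 0
      rw [map_nsmul, hT1, nsmul_zero]
    · show (χ s).val • T₀ = 0
      rw [(hχ2 s (mem_DN.1 hs).1).2 hsN, ZMod.val_zero, zero_nsmul]
  obtain ⟨s₀, hs₀, hi₀, hs₀'⟩ := hram
  have hs₀D : s₀ ∈ DN N V := mem_DN.2 ⟨hs₀, H55P.inert_dec V s₀ hi₀⟩
  have hne0 : (χ s₀).val • T₀ ≠ 0 := fun h => hs₀' ((hχ2 s₀ hs₀).1 (hT3 _ h))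
  have hord : addOrderOf ((χ s₀).val • T₀) = p := by
    refine addOrderOf_eq_prime ?_ hne0
    rw [← mul_nsmul', mul_comm, mul_nsmul', hT4, nsmul_zero]
  refine H19B.rel_ge _ _ hf (fun i : Fin p => (i : ℕ) • fun s => (χ s).val • T₀) (fun i => ?_) (fun i i' h => ?_)
  · refine AddSubgroup.nsmul_mem _ ((mem_CU _ _ _ _ _).2 ⟨hcc, fun s hs hi => ?_⟩) _
    rw [(hχ2 s (mem_DN.1 (dn_mono hNN hs)).1).2 (mem_DN.1 hs).1, ZMod.val_zero, zero_nsmul]
  · have h1 := h.2 s₀ hs₀D hi₀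
    have h2 : (i : ℕ) • ((χ s₀).val • T₀) = (i' : ℕ) • ((χ s₀).val • T₀) := sub_eq_zero.1 h1
    rw [nsmul_eq_nsmul_iff_modEq, hord] at h2
    have h3 := Nat.ModEq.eq_of_lt_of_lt h2 i.2 i'.2
    exact Fin.ext h3

/-- THE LOCAL INDEX at the prime which is ramified in N', where the decomposition group fixes the coefficients. -/
theorem loc_C (dta : Dta A B Om j act mo ψ p) (hπ : Prime π) (hd : π ∣ (p : 𝓞 F)) (hs : ¬ π ∣ cj π)
    (hV : V.valuation (ak Ω (cj π)) < 1) (N N' : IntermediateField F Ω) [NumberField N] [NumberField N'] (hNN : N ≤ N')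
    (hn : ∀ s ∈ N.fixingSubgroup, ∀ x ∈ N', s x ∈ N') (hdeg : Module.finrank F N' = Module.finrank F N * p)
    (hfx : ∀ s ∈ DN N V, ∀ T : Pt (WAB A B) Ω, act π T = 0 → ac (WAB A B) s T = T)
    (hram : ∃ s ∈ N.fixingSubgroup, Inert V s ∧ s ∉ N'.fixingSubgroup)
    {v : HeightOneSpectrum (𝓞 N)}
    (hv : Abv N V v) {b : ℕ} (hb0 : 0 < b) (hb : v.valuation N (algebraMap F N ((cj π : 𝓞 F) : F)) = WithZero.exp (-(b : ℤ))) :
    p * (CL (DN N V) (DN N' V) act π).relIndex (CS (DN N V) act π) ≤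
        Ideal.absNorm v.asIdeal ^ b * dl p (DN N V) act (cj π) := by
  obtain ⟨ha, hp0, hVt⟩ := val_B dta hπ hd hs hV
  obtain ⟨h1, h2⟩ := cu_index dta hπ hd hs hV N hv hb0 hb
  have hN'f : FiniteDimensional F N' := H13X.yn1_fin N'
  have h3 : CU (DN N V) (DN N V) V act π ≤ CU (DN N V) (DN N' V) V act π := fun c hc =>
    ⟨hc.1, fun s hs hi => hc.2 s (dn_mono hNN hs) hi⟩
  have h4 : CU (DN N V) (DN N' V) V act π ≤ CS (DN N V) act π := fun c hc => hc.1
  have h5 := AddSubgroup.relIndex_mul_relIndex _ _ _ h3 h4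
  have h6 : (CU (DN N V) (DN N V) V act π).relIndex (CU (DN N V) (DN N' V) V act π) ≠ 0 := by
    intro h0
    rw [h0, zero_mul] at h5
    exact h1 h5.symm
  have h7 : (CU (DN N V) (DN N' V) V act π).relIndex (CS (DN N V) act π) ≠ 0 := by
    intro h0
    rw [h0, mul_zero] at h5
    exact h1 h5.symm
  have h8 := chr_index dta hπ hd hs hNN hn hdeg hfx hram h6
  have h9 := AddSubgroup.relIndex_le_of_le_left (cu_le_cl dta hπ ha hp0 hVt N N' hNN) h7
  calc p * (CL (DN N V) (DN N' V) act π).relIndex (CS (DN N V) act π)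
      ≤ (CU (DN N V) (DN N V) V act π).relIndex (CU (DN N V) (DN N' V) V act π) *
          (CU (DN N V) (DN N' V) V act π).relIndex (CS (DN N V) act π) := Nat.mul_le_mul h8 h9
    _ = (CU (DN N V) (DN N V) V act π).relIndex (CS (DN N V) act π) := h5
    _ ≤ _ := h2

end H19C
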