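import Mathlib
import Pool.Agent.Lib.H19C.LB
import Pool.Agent.Lib.H19C.GB
import Pool.Agent.Lib.H19B.E1
import Pool.Agent.Lib.H19B.E2
import Pool.Agent.Lib.H19B.C1
import Pool.Agent.Lib.H19B.C3
import Pool.Agent.Lib.H55K.G5D

/-! # H19C, chunk LA: the local index at the primes where the coefficients are the formal part -/

open NumberField IsDedekindDomain WeierstrassCurve

namespace H19C

open H55P (IQ Pt ac Dec Inert decS Nm)
open H35P (WAB Ker tt)
open H55K (Tor CMA Dta GV ak cj xc yc)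
open H19B (DN mem_DN Cc CS mem_CS CI mem_CI EF mem_EF)
open H13S (Abv)

variable {F : Type} [Field F] [NumberField F] [IQ F] {A B : F} {Om : ℂ} {Ω : Type} [Field Ω] [DecidableEq Ω]
  [Algebra F Ω] [IsAlgClosure F Ω] {j : Ω →+* ℂ} {act : 𝓞 F →+* AddMonoid.End (Pt (WAB A B) Ω)} {mo : Ideal (𝓞 F)}
  {ψ : Ideal (𝓞 F) →*₀ 𝓞 F} {p : ℕ} {V : ValuationSubring Ω} {π : 𝓞 F}

/-- Values at the primes above π. -/
theorem val_A (dta : Dta A B Om j act mo ψ p) (hπ : Prime π) (hd : π ∣ (p : 𝓞 F)) (hs : ¬ π ∣ cj π)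
    (hV : V.valuation (ak Ω π) < 1) : V.valuation (ak Ω (cj π)) = 1 ∧ V.valuation (p : Ω) < 1 := by
  obtain ⟨hpp, u, v₁, huv⟩ := H19B.tors_split dta.cma dta.prime dta.unr hπ hd hs
  have ha : V.valuation (ak Ω (cj π)) = 1 := H55K.S.vo_unit (π := π) ⟨u, v₁, huv⟩ hV
  refine ⟨ha, ?_⟩
  have e1 : (p : Ω) = ak Ω (p : 𝓞 F) := by simp [ak]
  have e2 := H55K.S.vo_mul V π (cj π)
  rw [hpp] at e2
  rw [e1]
  refine lt_of_eq_of_lt e2 ?_
  have e3 : H55K.S.vo V (cj π) = 1 := ha
  rw [e3, mul_one]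
  exact hV

/-- The index of the cocycles which are unramified up to coboundaries. -/
theorem ci_index (dta : Dta A B Om j act mo ψ p) (hπ : Prime π) (hd : π ∣ (p : 𝓞 F)) (hs : ¬ π ∣ cj π)
    (hV : V.valuation (ak Ω π) < 1) (N : IntermediateField F Ω) [NumberField N] {v : HeightOneSpectrum (𝓞 N)}
    (hv : Abv N V v) {b : ℕ} (hb0 : 0 < b) (hb : v.valuation N (algebraMap F N (π : F)) = WithZero.exp (-(b : ℤ))) :
    (CI (DN N V) V act π).relIndex (CS (DN N V) act π) ≠ 0 ∧
      (CI (DN N V) V act π).relIndex (CS (DN N V) act π) ≤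
        Ideal.absNorm v.asIdeal ^ b * dl p (DN N V) act (cj π) := by
  obtain ⟨X, rfl, rfl, hq, hXb, hX, -⟩ := exists_frmA dta hπ hd hs hV N hv hb0 hb
  obtain ⟨T₀, hT1, hT2, hT3, hT4⟩ := H19B.exists_T0 dta.cma dta.prime dta.unr hπ hd hs
  obtain ⟨ha, hp0⟩ := val_A dta hπ hd hs hV
  have hG := dta.good X.V hp0
  have hti := ti_dl hX
  rw [← hX.D]
  have h := H19B.rel_map (CI X.D X.V act π) (CS X.D act π) X.TI X.TS (ach X T₀)
    (fun c hc => ach_tw hX hT1 hT2 hT3 hT4 hc)
    (fun c hc c' hc' h => ach_inert dta.cma hX hG hd ha hT1 hT2 hT3 hc hc' fun t ht hti => by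
      have h1 := h.2 t ht hti
      rw [Pi.sub_apply, sub_eq_zero] at h1
      exact h1) hti.1
  refine ⟨h.1, h.2.trans ?_⟩
  rw [hq, hXb] at hti
  exact hti.2

/-- A cocycle with values in the points killed by π is the sum of a cocycle zero on inertia and a coboundary, ... -/
theorem ci_sub (h : CMA F A B Om j act) {D : Subgroup (Ω ≃ₐ[F] Ω)} {c : (Ω ≃ₐ[F] Ω) → Pt (WAB A B) Ω} (hc : Cc D act π c)
    {T : Pt (WAB A B) Ω} (hT : act π T = 0) : Cc D act π (fun s => c s - (ac (WAB A B) s T - T)) := by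
  have h1 : Cc D act π (fun s => ac (WAB A B) s T - T) := H19B.kum_cc h D T fun s _ => by rw [hT, map_zero]
  exact (CS D act π).sub_mem hc h1

/-- The index of the coboundaries in the cocycles which are unramified up to coboundaries. -/
theorem cb_index (dta : Dta A B Om j act mo ψ p) (hπ : Prime π) (hd : π ∣ (p : 𝓞 F)) (hs : ¬ π ∣ cj π)
    (N : IntermediateField F Ω) [NumberField N] {v : HeightOneSpectrum (𝓞 N)} (hv : Abv N V v) :
    (CB (DN N V) act π).relIndex (CI (DN N V) V act π) ≠ 0 ∧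
      (CB (DN N V) act π).relIndex (CI (DN N V) V act π) ≤ dl p (DN N V) act π := by
  classical
  have hA := dta.cma
  have hp := dta.prime
  obtain ⟨φ, hφN, hφD, hφF⟩ := H13X.exists_frobK N hv
  have hφ : φ ∈ DN N V := mem_DN.2 ⟨hφN, hφD⟩
  have hφ' : ∀ x : Ω, V.valuation x ≤ 1 → V.valuation (φ x - x ^ Ideal.absNorm v.asIdeal) < 1 := fun x hx =>
    hφF x ((V.valuation_le_one_iff _).1 hx)
  obtain ⟨T₀, hT1, hT2, hT3, hT4⟩ := H19B.exists_T0 hA hp dta.unr hπ hd hs
  -- generation by inertia and Frobenius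
  have hgen : ∀ d : (Ω ≃ₐ[F] Ω) → Pt (WAB A B) Ω, Cc (DN N V) act π d → (∀ s ∈ DN N V, Inert V s → d s = 0) → d φ = 0 →
      ∀ s ∈ DN N V, d s = 0 := fun d hd hi h0 s hs => dn_gen hv hd.mul hd.cont hi hφ hφ' h0 hs
  unfold dl
  split_ifs with hfx
  · -- D fixes the points killed by π
    have hz : ∀ c ∈ CI (DN N V) V act π, ∀ s ∈ DN N V, Inert V s → c s = 0 := by
      rintro c ⟨hc, T, hT, h1⟩ s hs hi
      rw [h1 s hs hi, hfx s hs T hT, sub_self]
    have h1 := H19B.rel_le (CB (DN N V) act π) (CI (DN N V) V act π) (fun c => c φ)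
      ((Finset.range p).image fun k => k • T₀) (fun c hc => ?_) (fun c hc c' hc' hcc => ?_)
    · refine ⟨h1.1, h1.2.trans ?_⟩
      refine Finset.card_image_le.trans ?_
      rw [Finset.card_range]
    · obtain ⟨a, ha⟩ := hT2 (c φ) (hc.1.tor φ hφ)
      have hne : NeZero p := ⟨hp.ne_zero⟩
      exact Finset.mem_image.2 ⟨a.val, Finset.mem_range.2 (ZMod.val_lt a), ha.symm⟩
    · have h2 : Cc (DN N V) act π (c - c') := (CS (DN N V) act π).sub_mem hc.1 hc'.1
      refine ⟨h2, 0, map_zero _, fun s hs => ?_⟩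
      rw [map_zero, sub_zero]
      refine hgen (c - c') h2 (fun s hs hi => ?_) ?_ s hs
      · rw [Pi.sub_apply, hz c hc s hs hi, hz c' hc' s hs hi, sub_self]
      · rw [Pi.sub_apply, hcc, sub_self]
  · -- D moves a point
    have hle : CI (DN N V) V act π ≤ CB (DN N V) act π := by
      rintro c ⟨hc, T, hT, h1⟩
      have h2 := ci_sub (π := π) hA hc hT
      have h3 : ∀ s ∈ DN N V, Inert V s → c s - (ac (WAB A B) s T - T) = 0 := fun s hs hi => by
        rw [h1 s hs hi, sub_self]
      by_cases hin : ∃ t ∈ DN N V, Inert V t ∧ ∃ R ∈ Tor act π, ac (WAB A B) t R ≠ R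
      · obtain ⟨t, ht, hti, hR⟩ := hin
        refine ⟨hc, T, hT, fun s hs => sub_eq_zero.1 ?_⟩
        obtain ⟨d, hd0⟩ : ∃ d : (Ω ≃ₐ[F] Ω) → Pt (WAB A B) Ω, d = fun s => c s - (ac (WAB A B) s T - T) := ⟨_, rfl⟩
        rw [← hd0] at h2
        have h4 : ∀ s ∈ DN N V, Inert V s → d s = 0 := fun s hs hi => by rw [hd0]; exact h3 s hs hi
        have e1 := h2.mul t ht s hs
        rw [h4 t ht hti, zero_add] at e1
        have hts : s⁻¹ * t * s ∈ DN N V := mul_mem (mul_mem (inv_mem hs) ht) hs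
        have hti' : Inert V (s⁻¹ * t * s) := H13X.Inert.conj hti (mem_DN.1 hs).2
        have e2 := h2.mul s hs _ hts
        rw [h4 _ hts hti', map_zero, add_zero] at e2
        have e3 : s * (s⁻¹ * t * s) = t * s := by group
        rw [e3, e1] at e2
        have h5 := H13X.no_fix hA hπ hR (T := d s) (h2.tor s hs) e2
        rw [hd0] at h5
        exact h5
      · push Not at hin
        -- φ moves a point
        have hmv : ∃ R ∈ Tor act π, ac (WAB A B) φ R ≠ R := by
          by_contra hcon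
          push Not at hcon
          apply hfx
          intro s hs R hR
          have h5 := hgen (fun s => ac (WAB A B) s R - R) (H19B.kum_cc hA _ R fun s _ => by rw [hR, map_zero])
            (fun s hs hi => by
              show ac (WAB A B) s R - R = 0
              rw [hin s hs hi R hR, sub_self]) (by
              show ac (WAB A B) φ R - R = 0
              rw [hcon R hR, sub_self]) s hs
          exact sub_eq_zero.1 h5
        have hcφ : c φ - (ac (WAB A B) φ T - T) ∈ Tor act π := h2.tor φ hφ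
        obtain ⟨X, hX, hX2⟩ : ∃ X ∈ Tor act π, ac (WAB A B) φ X - X = c φ - (ac (WAB A B) φ T - T) := by
          have hfin : Finite (Tor act π) := by
            have hfs : (Set.univ : Set (Tor act π)) ⊆ (fun k : ℕ => (⟨k • T₀, by
                rw [H55K.S.mem_Tor, map_nsmul, hT1, nsmul_zero]⟩ : Tor act π)) '' (Finset.range p : Set ℕ) := by
              rintro ⟨R, hR⟩ -
              obtain ⟨a, ha⟩ := hT2 R hR
              have hne : NeZero p := ⟨hp.ne_zero⟩
              exact ⟨a.val, by rw [Finset.mem_coe, Finset.mem_range]; exact ZMod.val_lt a, Subtype.ext ha.symm⟩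
            exact Set.finite_univ_iff.1 ((Set.Finite.image _ (Finset.finite_toSet _)).subset hfs)
          let g : Tor act π → Tor act π := fun R => ⟨ac (WAB A B) φ R.1 - R.1, sub_mem (H55K.S.ac_mem hA φ R.2) R.2⟩
          have hinj : Function.Injective g := by
            intro R R' hRR
            have e1 : ac (WAB A B) φ R.1 - R.1 = ac (WAB A B) φ R'.1 - R'.1 := congrArg Subtype.val hRR
            have e2 : ac (WAB A B) φ (R.1 - R'.1) = R.1 - R'.1 := by
              rw [map_sub]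
              have e3 : ac (WAB A B) φ R.1 = ac (WAB A B) φ R'.1 - R'.1 + R.1 := by rw [← e1]; abel
              rw [e3]
              abel
            exact Subtype.ext (sub_eq_zero.1 (H13X.no_fix hA hπ hmv (sub_mem R.2 R'.2) e2))
          obtain ⟨X, hX⟩ := (Finite.injective_iff_surjective.1 hinj) ⟨_, hcφ⟩
          exact ⟨X.1, X.2, congrArg Subtype.val hX⟩
        refine ⟨hc, T + X, by rw [map_add, hT, show act π X = 0 from hX, add_zero], fun s hs => ?_⟩
        have h5 := hgen (fun s => (c s - (ac (WAB A B) s T - T)) - (ac (WAB A B) s X - X)) (ci_sub (π := π) hA h2 hX)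
          (fun s hs hi => by
            show (c s - (ac (WAB A B) s T - T)) - (ac (WAB A B) s X - X) = 0
            rw [h3 s hs hi, hin s hs hi X hX, sub_self, sub_zero]) (by
            show (c φ - (ac (WAB A B) φ T - T)) - (ac (WAB A B) φ X - X) = 0
            rw [hX2, sub_self]) s hs
        have h6 : c s - (ac (WAB A B) s T - T) = ac (WAB A B) s X - X := sub_eq_zero.1 h5
        rw [map_add, sub_eq_iff_eq_add.1 h6]
        abel
    have h1 : (CB (DN N V) act π).relIndex (CI (DN N V) V act π) = 1 := AddSubgroup.relIndex_eq_one.2 hle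
    rw [h1]
    exact ⟨one_ne_zero, le_rfl⟩

end H19C
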