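import Mathlib
import Pool.Agent.Lib.H19C.LA

/-! # H19C, chunk LA2: the local index at the primes where the coefficients are the formal part, end -/

open NumberField IsDedekindDomain WeierstrassCurve

namespace H19C

open H55P (IQ Pt ac Dec Inert decS Nm)
open H35P (WAB Ker tt)
open H55K (Tor CMA Dta GV ak cj xc yc)
open H19B (DN mem_DN Cc CS mem_CS CI mem_CI EF mem_EF)
open H13S (Abv)

variable {F : Type} [Field F] [NumberField F] [IQ F] {A B : F} {Om : ℂ} {Ω : Type} [Field Ω] [DecidableEq Ω]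
  [Algebra F Ω] [IsAlgClosure F Ω] {j : Ω →+* ℂ} {act : 𝓞 F →+* AddMonoid.End (Pt (WAB A B) Ω)} {mo : Ideal (𝓞 F)}
  {ψ : Ideal (𝓞 F) →*₀ 𝓞 F} {p : ℕ} {V : ValuationSubring Ω} {π : 𝓞 F}

/-- The points of the group E which are images under π of points fixed by D. -/
def KG (h : CMA F A B Om j act) (D : Subgroup (Ω ≃ₐ[F] Ω)) (π : 𝓞 F) (E : AddSubgroup (Pt (WAB A B) Ω)) :
    AddSubgroup (Pt (WAB A B) Ω) where
  carrier := {P | P ∈ E ∧ ∃ Q : Pt (WAB A B) Ω, (∀ s ∈ D, ac (WAB A B) s Q = Q) ∧ act π Q = P}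
  zero_mem' := ⟨E.zero_mem, 0, fun s _ => map_zero _, map_zero _⟩
  add_mem' := by
    rintro P P' ⟨h1, Q, h2, h3⟩ ⟨h1', Q', h2', h3'⟩
    exact ⟨E.add_mem h1 h1', Q + Q', fun s hs => by rw [map_add, h2 s hs, h2' s hs], by rw [map_add, h3, h3']⟩
  neg_mem' := by
    rintro P ⟨h1, Q, h2, h3⟩
    exact ⟨E.neg_mem h1, -Q, fun s hs => by rw [map_neg, h2 s hs], by rw [map_neg, h3]⟩

/-- The lower bound for the number of local points. -/
theorem kg_index (dta : Dta A B Om j act mo ψ p) (hπ : Prime π) (hd : π ∣ (p : 𝓞 F)) (hs : ¬ π ∣ cj π)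
    (hV : V.valuation (ak Ω π) < 1) (N : IntermediateField F Ω) [NumberField N] {v : HeightOneSpectrum (𝓞 N)}
    (hv : Abv N V v) {b : ℕ} (hb0 : 0 < b) (hb : v.valuation N (algebraMap F N (π : F)) = WithZero.exp (-(b : ℤ))) :
    ∃ E : AddSubgroup (Pt (WAB A B) Ω), (∀ P ∈ E, Ker V P ∧ ∀ s ∈ DN N V, ac (WAB A B) s P = P) ∧
      ((KG dta.cma (DN N V) π E).relIndex E ≠ 0 →
        Ideal.absNorm v.asIdeal ^ b * dl p (DN N V) act π ≤ (KG dta.cma (DN N V) π E).relIndex E) := by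
  classical
  obtain ⟨X, rfl, rfl, hq, hXb, hX, hwN, hπw, hval, hrs⟩ := exists_frmA dta hπ hd hs hV N hv hb0 hb
  have hA := dta.cma
  have hp := dta.prime
  obtain ⟨ha, hp0⟩ := val_A dta hπ hd hs hV
  have hG := dta.good X.V hp0
  have hNf : FiniteDimensional F N := H13X.yn1_fin N
  obtain ⟨T₀, hT1, hT2, hT3, hT4⟩ := H19B.exists_T0 hA hp dta.unr hπ hd hs
  have hw0 := hX.ok.w0
  have hw1 := hX.ok.w1
  have hw0v : X.V.valuation X.w ≠ 0 := (map_ne_zero _).2 hw0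
  have hval' : ∀ y : Ω, y ≠ 0 → (∀ s ∈ DN N X.V, s y = y) → ∃ i : ℤ, X.V.valuation y = X.V.valuation X.w ^ i := fun y hy hfix =>
    hval y hy fun s hsN hsI => hfix s (mem_DN.2 ⟨hsN, H55P.inert_dec X.V s hsI⟩)
  have hq0 : 0 < Ideal.absNorm v.asIdeal := by rw [← hq]; exact lt_trans zero_lt_one hX.ok.q0
  refine ⟨EF hG (DN N X.V) X.w hw1 0, fun P hP => ⟨hP.1, hP.2.1⟩, fun hKf => ?_⟩
  -- the points killed by π
  have hzero : ∀ T : Pt (WAB A B) Ω, act π T = 0 → T ∈ EF hG (DN N X.V) X.w hw1 b → T = 0 := by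
    intro T hT hTE
    by_contra h0
    obtain ⟨-, h1⟩ := H55K.tor_ram hA hG hπ hV hT h0
    rw [(H19B.f3_split hp dta.unr hπ hd hs).1, hπw] at h1
    have h2 : X.V.valuation (tt T) ^ (X.p - 1) ≤ (X.V.valuation X.w ^ (b + 1)) ^ (X.p - 1) :=
      pow_le_pow_left₀ zero_le' hTE.2.2 _
    rw [h1, ← pow_mul] at h2
    have h3 : b < (b + 1) * (X.p - 1) := by
      have h4 := hX.ok.odd
      have h5 : 1 ≤ X.p - 1 := by omega
      calc b < b + 1 := Nat.lt_succ_self b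
        _ = (b + 1) * 1 := (mul_one _).symm
        _ ≤ (b + 1) * (X.p - 1) := Nat.mul_le_mul_left _ h5
    exact absurd h2 (not_le.2 (pow_lt_pow_right_of_lt_one₀ (zero_lt_iff.2 hw0v) hw1 h3))
  obtain ⟨n, hn, r, hr, hrr⟩ : ∃ (n : ℕ) (_ : n = dl X.p (DN N X.V) act π) (r : Fin n → Pt (WAB A B) Ω),
      (∀ i, r i ∈ EF hG (DN N X.V) X.w hw1 0 ∧ act π (r i) = 0) ∧ ∀ i i', r i - r i' ∈ EF hG (DN N X.V) X.w hw1 b → i = i' := by
    by_cases hfx : ∀ s ∈ DN N X.V, ∀ T : Pt (WAB A B) Ω, act π T = 0 → ac (WAB A B) s T = T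
    · have hdl : X.p = dl X.p (DN N X.V) act π := by
        unfold dl
        rw [if_pos hfx]
      refine ⟨X.p, hdl, fun i => (i : ℕ) • T₀, fun i => ?_, fun i i' h => ?_⟩
      · have h1 : act π ((i : ℕ) • T₀) = 0 := by rw [map_nsmul, hT1, nsmul_zero]
        exact ⟨H19B.ef_zero hG hw0 hw1 hval' _ (H55K.tor_ker hA hG hπ hV h1) fun s hs => hfx s hs _ h1, h1⟩
      · have h1 : act π ((i : ℕ) • T₀ - (i' : ℕ) • T₀) = 0 := by
          rw [map_sub, map_nsmul, map_nsmul, hT1, nsmul_zero, nsmul_zero, sub_self]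
        have h2 := hzero _ h1 h
        have h3 : (i : ℕ) • T₀ = (i' : ℕ) • T₀ := sub_eq_zero.1 h2
        have hf : Fact X.p.Prime := ⟨hp⟩
        have hT0 : T₀ ≠ 0 := by
          intro h4
          have h5 := hT3 1 (by rw [h4, nsmul_zero])
          exact one_ne_zero h5
        have hord : addOrderOf T₀ = X.p := addOrderOf_eq_prime hT4 hT0
        rw [nsmul_eq_nsmul_iff_modEq, hord] at h3
        exact Fin.ext (Nat.ModEq.eq_of_lt_of_lt h3 i.2 i'.2)
    · have hdl : 1 = dl X.p (DN N X.V) act π := by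
        unfold dl
        rw [if_neg hfx]
      exact ⟨1, hdl, fun _ => 0, fun i => ⟨AddSubgroup.zero_mem _, map_zero _⟩, fun i i' _ => Subsingleton.elim _ _⟩
  rw [← hn]
  refine count_index2 (EF hG (DN N X.V) X.w hw1) (H19B.ef_anti hG _ hw1) hq0
    (H19B.ef_index hA hG hw0 hw1 hwN hq0 hrs hval') (act π) (fun P hP => H19B.ef_act0 hA hG hw1 π P hP) b b
    (fun P hP => H19B.ef_act hA hG hw1 hπw (Nat.le_succ b) P hP) r hr hrr _ ?_ hKf
  rintro P ⟨hP, Q, hQ1, hQ2⟩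
  have hKQ : Ker X.V Q := H55K.ker_red hA hG hπ hV (by rw [hQ2]; exact hP.1)
  exact ⟨Q, H19B.ef_zero hG hw0 hw1 hval' Q hKQ hQ1, hQ2⟩

/-- THE LOCAL INDEX where the coefficients are the formal part. -/
theorem loc_A (dta : Dta A B Om j act mo ψ p) (hπ : Prime π) (hd : π ∣ (p : 𝓞 F)) (hs : ¬ π ∣ cj π)
    (hV : V.valuation (ak Ω π) < 1) (N N' : IntermediateField F Ω) [NumberField N] (hNN : N ≤ N')
    {v : HeightOneSpectrum (𝓞 N)}
    (hv : Abv N V v) {b : ℕ} (hb0 : 0 < b) (hb : v.valuation N (algebraMap F N (π : F)) = WithZero.exp (-(b : ℤ))) :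
    (CL (DN N V) (DN N' V) act π).relIndex (CS (DN N V) act π) ≠ 0 ∧
      (CL (DN N V) (DN N' V) act π).relIndex (CS (DN N V) act π) ≤ dl p (DN N V) act (cj π) := by
  classical
  have hA := dta.cma
  obtain ⟨E, hE1, hE2⟩ := kg_index dta hπ hd hs hV N hv hb0 hb
  obtain ⟨hci, hci'⟩ := ci_index dta hπ hd hs hV N hv hb0 hb
  obtain ⟨hcb, hcb'⟩ := cb_index (V := V) dta hπ hd hs N hv
  have hm := dn_mono (F := F) (V := V) hNN
  have l1 : CB (DN N V) act π ≤ CI (DN N V) V act π := by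
    rintro c ⟨hc, T, hT, h1⟩
    exact ⟨hc, T, hT, fun s hs _ => h1 s hs⟩
  have l2 : CI (DN N V) V act π ≤ CS (DN N V) act π := fun c hc => hc.1
  have l3 : CB (DN N V) act π ≤ CL (DN N V) (DN N' V) act π := by
    rintro c ⟨hc, T, hT, h1⟩
    exact ⟨hc, T, fun s hs => h1 s (hm hs)⟩
  have l4 : CL (DN N V) (DN N' V) act π ≤ CS (DN N V) act π := fun c hc => hc.1
  have h1 := AddSubgroup.relIndex_mul_relIndex _ _ _ l1 l2
  have h2 := AddSubgroup.relIndex_mul_relIndex _ _ _ l3 l4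
  have hne : (CB (DN N V) act π).relIndex (CS (DN N V) act π) ≠ 0 := by
    rw [← h1]
    exact mul_ne_zero hcb hci
  have hne1 : (CB (DN N V) act π).relIndex (CL (DN N V) (DN N' V) act π) ≠ 0 := fun h0 => hne (by rw [← h2, h0, zero_mul])
  have hne2 : (CL (DN N V) (DN N' V) act π).relIndex (CS (DN N V) act π) ≠ 0 := fun h0 => hne (by rw [← h2, h0, mul_zero])
  refine ⟨hne2, ?_⟩
  -- the Kummer map
  have hex : ∀ P : Pt (WAB A B) Ω, ∃ Q : Pt (WAB A B) Ω, act π Q = P := fun P => hA.surj π hπ.ne_zero P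
  choose Qf hQf using hex
  have hQfix : ∀ P ∈ E, ∀ s ∈ DN N V, ac (WAB A B) s (act π (Qf P)) = act π (Qf P) := fun P hP s hs => by
    rw [hQf]
    exact (hE1 P hP).2 s hs
  have h3 := H19B.rel_map (KG hA (DN N V) π E) E (CB (DN N V) act π) (CL (DN N V) (DN N' V) act π)
    (fun P s => ac (WAB A B) s (Qf P) - Qf P) (fun P hP => ?_) (fun P hP P' hP' hPP => ?_) hne1
  · have h4 := (hE2 h3.1).trans h3.2
    have hq0 : 0 < Ideal.absNorm v.asIdeal ^ b * dl p (DN N V) act π := by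
      refine Nat.mul_pos (pow_pos ?_ _) ?_
      · refine Nat.pos_of_ne_zero fun h0 => ?_
        rw [Ideal.absNorm_eq_zero_iff] at h0
        exact v.ne_bot h0
      · unfold dl
        split_ifs
        · exact dta.prime.pos
        · exact one_pos
    refine Nat.le_of_mul_le_mul_left ?_ hq0
    calc (Ideal.absNorm v.asIdeal ^ b * dl p (DN N V) act π) * (CL (DN N V) (DN N' V) act π).relIndex (CS (DN N V) act π)
        ≤ (CB (DN N V) act π).relIndex (CL (DN N V) (DN N' V) act π) *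
            (CL (DN N V) (DN N' V) act π).relIndex (CS (DN N V) act π) := Nat.mul_le_mul_right _ h4
      _ = (CB (DN N V) act π).relIndex (CI (DN N V) V act π) * (CI (DN N V) V act π).relIndex (CS (DN N V) act π) := by
          rw [h2, h1]
      _ ≤ dl p (DN N V) act π * (Ideal.absNorm v.asIdeal ^ b * dl p (DN N V) act (cj π)) := Nat.mul_le_mul hcb' hci'
      _ = (Ideal.absNorm v.asIdeal ^ b * dl p (DN N V) act π) * dl p (DN N V) act (cj π) := by ring
  · exact ⟨H19B.kum_cc hA (DN N V) (Qf P) (hQfix P hP), Qf P, fun s _ => rfl⟩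
  · obtain ⟨-, T, hT, h4⟩ := hPP
    refine ⟨E.sub_mem hP hP', Qf P - Qf P' - T, fun s hs => ?_, ?_⟩
    · have h5 : (ac (WAB A B) s (Qf P) - Qf P) - (ac (WAB A B) s (Qf P') - Qf P') = ac (WAB A B) s T - T := h4 s hs
      rw [map_sub, map_sub]
      have h6 : ac (WAB A B) s (Qf P) - ac (WAB A B) s (Qf P') = (ac (WAB A B) s T - T) + (Qf P - Qf P') := by
        rw [← h5]
        abel
      rw [h6]
      abel
    · rw [map_sub, map_sub, hQf, hQf, hT, sub_zero]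

end H19C
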