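import Mathlib
import Pool.Agent.Lib.H19C.LA2
import Pool.Agent.Lib.H19C.GP
import Pool.Agent.Lib.H13Y.GT
import Pool.Agent.Lib.H13X.XT
import Pool.Agent.Lib.H13X.D

/-! # H19C, chunk GI: indices for the global count -/

open NumberField IsDedekindDomain WeierstrassCurve

namespace H19C

open H55P (IQ Pt ac Dec Inert decS Nm Ram)
open H35P (WAB Ker tt)
open H55K (Tor CMA Dta GV ak cj xc yc)
open H55R (Pl)
open H19B (DN mem_DN Cc CS mem_CS)
open H13S (Abv)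
open H13X (Dat DecN)

/-- Multiplicative and additive indices. -/
theorem rel_mul {M M' : Type} [CommGroup M] [AddCommGroup M'] (A Y : Subgroup M) (A' Y' : AddSubgroup M') (g : M → M')
    (hg : ∀ x ∈ A, g x ∈ A') (hj : ∀ x ∈ A, ∀ x' ∈ A, g x - g x' ∈ Y' → x * x'⁻¹ ∈ Y) (hf : Y'.relIndex A' ≠ 0) :
    Y.relIndex A ≠ 0 ∧ Y.relIndex A ≤ Y'.relIndex A' := by
  classical
  have hfin : Finite (A' ⧸ Y'.addSubgroupOf A') := Nat.finite_of_card_ne_zero hf
  let f : (A ⧸ Y.subgroupOf A) → (A' ⧸ Y'.addSubgroupOf A') := fun t =>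
    ((⟨g ((Quotient.out t : A) : M), hg _ (Quotient.out t : A).2⟩ : A') : A' ⧸ Y'.addSubgroupOf A')
  have hinj : Function.Injective f := by
    intro t t' h
    have h1 := QuotientAddGroup.eq.1 h
    rw [AddSubgroup.mem_addSubgroupOf] at h1
    have h2 : g ((Quotient.out t' : A) : M) - g ((Quotient.out t : A) : M) ∈ Y' := by
      have h3 : g ((Quotient.out t' : A) : M) - g ((Quotient.out t : A) : M) =
        -g ((Quotient.out t : A) : M) + g ((Quotient.out t' : A) : M) := by abel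
      rw [h3]
      exact h1
    have h3 := hj _ (Quotient.out t' : A).2 _ (Quotient.out t : A).2 h2
    have h4 : ((Quotient.out t : A) : A ⧸ Y.subgroupOf A) = ((Quotient.out t' : A) : A ⧸ Y.subgroupOf A) := by
      rw [QuotientGroup.eq, Subgroup.mem_subgroupOf]
      show ((Quotient.out t : A) : M)⁻¹ * ((Quotient.out t' : A) : M) ∈ Y
      rw [mul_comm]
      exact h3
    rw [QuotientGroup.out_eq', QuotientGroup.out_eq'] at h4
    exact h4
  have hfin' : Finite (A ⧸ Y.subgroupOf A) := Finite.of_injective f hinj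
  exact ⟨Nat.card_pos.ne', Nat.card_le_card_of_injective f hinj⟩

/-- The index of an intersection. -/
theorem rel_infp {M ι : Type} [AddCommGroup M] (X : AddSubgroup M) (T : Finset ι) (Y : ι → AddSubgroup M)
    (h : ∀ v ∈ T, (Y v).relIndex X ≠ 0) :
    (⨅ v : T, Y v).relIndex X ≠ 0 ∧ (⨅ v : T, Y v).relIndex X ≤ ∏ v ∈ T, (Y v).relIndex X := by
  refine ⟨AddSubgroup.relIndex_iInf_ne_zero fun v => h v.1 v.2, ?_⟩
  rw [← Finset.prod_coe_sort]
  exact AddSubgroup.relIndex_iInf_le _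

variable {F : Type} [Field F] [NumberField F] [IQ F] {A B : F} {Om : ℂ} {Ω : Type} [Field Ω] [DecidableEq Ω]
  [Algebra F Ω] [IsAlgClosure F Ω] {j : Ω →+* ℂ} {act : 𝓞 F →+* AddMonoid.End (Pt (WAB A B) Ω)} {mo : Ideal (𝓞 F)}
  {ψ : Ideal (𝓞 F) →*₀ 𝓞 F} {l : ℕ} {V : ValuationSubring Ω} {π : 𝓞 F}

/-- If w is ramified in N' then the inertia group at w does not fix N'. -/
theorem ram_inert (hl : l.Prime) {N N' : IntermediateField F Ω} [NumberField N] [NumberField N'] (hNN : N ≤ N')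
    (hn : ∀ s ∈ N.fixingSubgroup, ∀ x ∈ N', s x ∈ N')
    (hd : Module.finrank F N' = Module.finrank F N * l) {w : HeightOneSpectrum (𝓞 N)}
    (hr : Ram N N' w.asIdeal) (hV : Abv N V w) : ∃ s ∈ N.fixingSubgroup, Inert V s ∧ s ∉ N'.fixingSubgroup := by
  by_contra hcon
  push Not at hcon
  have hN'f : FiniteDimensional F N' := H13X.yn1_fin N'
  obtain ⟨a, ha⟩ := w.valuation_exists_uniformizer N
  have ha0 : a ≠ 0 := by
    intro h
    rw [h, map_zero] at ha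
    exact WithZero.exp_ne_zero ha.symm
  have haΩ : (a : Ω) ≠ 0 := fun h => ha0 (Subtype.ext h)
  obtain ⟨x, hxN, hx⟩ := H13Y.ram_step hl hNN hn hd hr hV a.2 haΩ
  have hx0 : x ≠ 0 := by
    rintro rfl
    rw [map_zero, zero_pow hl.ne_zero] at hx
    exact haΩ ((map_eq_zero V.valuation).1 hx.symm)
  obtain ⟨a', ha', hxa⟩ := H13S.value_fixed N V x hx0 fun s hs hi =>
    (IntermediateField.mem_fixingSubgroup_iff N' s).1 (hcon s hs hi) x hxN
  rw [hxa, ← map_pow] at hx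
  have e1 : ((a' : N) : Ω) ^ l = ((a' ^ l : N) : Ω) := rfl
  rw [e1] at hx
  have h2 : w.valuation N (a' ^ l) = w.valuation N a := le_antisymm ((hV.le _ _).1 hx.le) ((hV.le _ _).1 hx.ge)
  have hva : w.valuation N a' ≠ 0 := (map_ne_zero _).2 ha'
  obtain ⟨k, hk⟩ : ∃ k : ℤ, w.valuation N a' = WithZero.exp k := ⟨WithZero.log _, (WithZero.exp_log hva).symm⟩
  rw [map_pow, hk, ha, ← WithZero.exp_nsmul, WithZero.exp_inj, nsmul_eq_mul] at h2
  have h3 : (l : ℤ) ∣ 1 := ⟨-k, by linarith⟩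
  have h4 : l ∣ 1 := by exact_mod_cast h3
  exact hl.one_lt.ne' (Nat.dvd_one.1 h4)

omit [IsAlgClosure F Ω] in
theorem gi_ac (ρ : 𝓞 F) (hA : CMA F A B Om j act) (σ : Ω ≃ₐ[F] Ω) {T : Pt (WAB A B) Ω} (hT : act ρ T = 0) :
    act ρ (ac (WAB A B) σ T) = 0 := H55K.S.ac_mem hA σ hT

/-- The decomposition groups at the places above v are conjugate. -/
theorem fix_conj (hA : CMA F A B Om j act) {N : IntermediateField F Ω} [NumberField N] {v : HeightOneSpectrum (𝓞 N)}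
    {V₀ : ValuationSubring Ω} (hV₀ : Abv N V₀ v) (hV : Abv N V v) (ρ : 𝓞 F)
    (hfx : ∀ s ∈ DN N V₀, ∀ T : Pt (WAB A B) Ω, act ρ T = 0 → ac (WAB A B) s T = T)
    (s : Ω ≃ₐ[F] Ω) (hs : s ∈ DN N V) (T : Pt (WAB A B) Ω) (hT : act ρ T = 0) : ac (WAB A B) s T = T := by
  obtain ⟨σ, hσM, hσ⟩ := H13X.trans_V N hV₀ hV
  have hD : σ⁻¹ * s * σ ∈ DN N V₀ := by
    refine mem_DN.2 ⟨mul_mem (mul_mem (inv_mem hσM) (mem_DN.1 hs).1) hσM, fun x => ?_⟩
    have h1 := hσ (σ⁻¹ (s (σ x)))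
    have h2 : σ (σ⁻¹ (s (σ x))) = s (σ x) := σ.apply_symm_apply _
    rw [h2] at h1
    exact h1.symm.trans (((mem_DN.1 hs).2 (σ x)).trans (hσ x))
  have h3 := hfx _ hD (ac (WAB A B) σ⁻¹ T) (gi_ac ρ hA σ⁻¹ hT)
  rw [← H55K.S.ac_mul, show σ⁻¹ * s * σ * σ⁻¹ = σ⁻¹ * s by group, H55K.S.ac_mul] at h3
  have h4 := congrArg (ac (WAB A B) σ) h3
  have h5 : ∀ P, ac (WAB A B) σ (ac (WAB A B) σ⁻¹ P) = P := fun P => by
    rw [← H55K.S.ac_mul, mul_inv_cancel, H55K.S.ac_one]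
  rwa [h5, h5] at h4

omit [IQ F] [DecidableEq Ω] [IsAlgClosure F Ω] in
/-- Membership in v and values. -/
theorem abv_mem {N : IntermediateField F Ω} [NumberField N] {v : HeightOneSpectrum (𝓞 N)} (hv : Abv N V v) (x : 𝓞 F) :
    V.valuation (ak Ω x) < 1 ↔ algebraMap (𝓞 F) (𝓞 N) x ∈ v.asIdeal := by
  rw [← HeightOneSpectrum.valuation_lt_one_iff_mem (K := N), ← hv.lt]
  rfl

/-- The conjugate data. -/
theorem gi_cj (D : Dat A B Om j act mo ψ π l) (hs : ¬ π ∣ cj π) : Prime (cj π) ∧ cj π ∣ (l : 𝓞 F) ∧ ¬ cj π ∣ cj (cj π) ∧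
    π * cj π = (l : 𝓞 F) := by
  refine ⟨H55K.cj_prime D.pr, D.conj.dvd, ?_, (H19B.f3_split D.hl D.dta.unr D.pr D.dvd hs).2⟩
  rw [H55K.cj_dvd, H55K.cj_cj]
  exact hs

/-- THE LOCAL INDICES at the primes above l. -/
theorem loc_all (D : Dat A B Om j act mo ψ π l) (hs : ¬ π ∣ cj π) {N N' : IntermediateField F Ω} [NumberField N] [NumberField N']
    (hNN : N ≤ N') {v : HeightOneSpectrum (𝓞 N)} (hlv : (l : 𝓞 N) ∈ v.asIdeal) (hv : Abv N V v) {b : ℕ}
    (hb : (algebraMap (𝓞 F) (𝓞 N) π ∈ v.asIdeal ∧ 0 < b ∧ v.valuation N (algebraMap F N (π : F)) = WithZero.exp (-(b : ℤ))) ∨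
      (algebraMap (𝓞 F) (𝓞 N) π ∉ v.asIdeal ∧ b = 0)) :
    (CL (DN N V) (DN N' V) act (cj π)).relIndex (CS (DN N V) act (cj π)) ≠ 0 ∧
      (CL (DN N V) (DN N' V) act (cj π)).relIndex (CS (DN N V) act (cj π)) ≤
        Ideal.absNorm v.asIdeal ^ b * dl l (DN N V) act π := by
  obtain ⟨h1, h2, h3, h4⟩ := gi_cj D hs
  rcases hb with ⟨hπ, hb0, hb⟩ | ⟨hπ, rfl⟩
  · have hV : V.valuation (ak Ω (cj (cj π))) < 1 := by
      rw [H55K.cj_cj]
      exact (abv_mem hv π).2 hπ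
    have h5 := loc_B D.dta h1 h2 h3 hV N N' hNN hv hb0 (by rw [H55K.cj_cj]; exact hb)
    rw [H55K.cj_cj] at h5
    exact h5
  · have hmem : algebraMap (𝓞 F) (𝓞 N) (cj π) ∈ v.asIdeal := by
      have h6 := congrArg (algebraMap (𝓞 F) (𝓞 N)) h4
      rw [map_mul, map_natCast] at h6
      rw [← h6] at hlv
      exact (v.isPrime.mem_or_mem hlv).resolve_left hπ
    obtain ⟨b', hb0, hb'⟩ := exists_mult (N := N) h1.ne_zero v hmem
    have h5 := loc_A D.dta h1 h2 h3 ((abv_mem hv _).2 hmem) N N' hNN hv hb0 hb'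
    rw [H55K.cj_cj] at h5
    rw [pow_zero, one_mul]
    exact h5

/-- The local index at w. -/
theorem loc_w (D : Dat A B Om j act mo ψ π l) (hs : ¬ π ∣ cj π) {N N' : IntermediateField F Ω} [NumberField N] [NumberField N']
    (hNN : N ≤ N') (hn : ∀ s ∈ N.fixingSubgroup, ∀ x ∈ N', s x ∈ N')
    (hd : Module.finrank F N' = Module.finrank F N * l) {w : HeightOneSpectrum (𝓞 N)}
    (hr : Ram N N' w.asIdeal) (hv : Abv N V w) (hπ : algebraMap (𝓞 F) (𝓞 N) π ∈ w.asIdeal)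
    (hfx : ∀ s ∈ DN N V, ∀ T : Pt (WAB A B) Ω, act (cj π) T = 0 → ac (WAB A B) s T = T) {b : ℕ}
    (hb0 : 0 < b) (hb : w.valuation N (algebraMap F N (π : F)) = WithZero.exp (-(b : ℤ))) :
    l * (CL (DN N V) (DN N' V) act (cj π)).relIndex (CS (DN N V) act (cj π)) ≤
        Ideal.absNorm w.asIdeal ^ b * dl l (DN N V) act π := by
  obtain ⟨h1, h2, h3, h4⟩ := gi_cj D hs
  have hV : V.valuation (ak Ω (cj (cj π))) < 1 := by
    rw [H55K.cj_cj]
    exact (abv_mem hv π).2 hπ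
  have h5 := loc_C D.dta h1 h2 h3 hV N N' hNN hn hd hfx (ram_inert D.hl hNN hn hd hr hv) hv hb0
    (by rw [H55K.cj_cj]; exact hb)
  rw [H55K.cj_cj] at h5
  exact h5

end H19C
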