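import Mathlib
import Pool.Agent.Lib.H19C.GP
import Pool.Agent.Lib.H13X.XN4
import Pool.Agent.Lib.H13X.XN5
import Pool.Agent.Lib.H13X.XZ5
import Pool.Agent.Lib.H13X.XG2
import Pool.Agent.Lib.H13X.XG3
import Pool.Agent.Lib.H13X.XK
import Pool.Agent.Lib.H13Y.GN1

/-! # H19C, chunk GK: classes and Kummer generators -/

open NumberField IsDedekindDomain WeierstrassCurve

namespace H19C

open H55P (IQ Pt ac Dec Inert decS Nm)
open H35P (WAB Ker tt)
open H55K (Tor CMA Dta GV ak cj xc yc Lft TFld)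
open H55K.S
open H55R (Pl ord)
open H13S (Abv)
open H13X (Dat IsTB DecN algNL)
open H13Y (guN EqHomN etaN_hom)
open H99B (pw cf)

variable {F : Type} [Field F] [NumberField F] [IQ F] {A B : F} {Om : ℂ} {Ω : Type} [Field Ω] [DecidableEq Ω]
  [Algebra F Ω] {j : Ω →+* ℂ} {act : 𝓞 F →+* AddMonoid.End (Pt (WAB A B) Ω)} {mo : Ideal (𝓞 F)}
  {ψ : Ideal (𝓞 F) →*₀ 𝓞 F}

variable {π : 𝓞 F} {l : ℕ} {e : Pt (WAB A B) Ω → Pt (WAB A B) Ω → Ω} {N L : IntermediateField F Ω}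
  {c c' : (Ω ≃ₐ[F] Ω) → Pt (WAB A B) Ω} {V : ValuationSubring Ω}

/-- The class c has a Kummer generator for the point T whose l-th power is M x times an l-th power. -/
def KR (L : IntermediateField F Ω) (e : Pt (WAB A B) Ω → Pt (WAB A B) Ω → Ω) (l : ℕ) (T : Pt (WAB A B) Ω)
    (M : (L)ˣ →* (L)ˣ) (c : (Ω ≃ₐ[F] Ω) → Pt (WAB A B) Ω) (x : (L)ˣ) : Prop :=
  ∃ (y : Ω) (z : (L)ˣ), Kum L e c T y ∧ y ^ l = ((M x * z ^ l : (L)ˣ) : L)

/-- The projection to the eigenspace. -/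
noncomputable def Mh {N L : Type} [Field N] [Field L] [Algebra N L] [Fintype Gal(L/N)] {l : ℕ} [Fact l.Prime]
    (χ : Gal(L/N) →* (ZMod l)ˣ) : Lˣ →* Lˣ :=
  MonoidHom.mk' (fun x => pw guN (cf χ (AddMonoidHom.id (ZMod l)) 1) x) (fun x y => H99B.pw_mul guN _ x y)

variable [IsAlgClosure F Ω]

/-- Differences. -/
theorem kr_sub (D : Dat A B Om j act mo ψ π l) (he : Pairing A B act π l e) {T : Pt (WAB A B) Ω} (hT : T ∈ Tor act π)
    {M : (L)ˣ →* (L)ˣ} (hc : ∀ s ∈ L.fixingSubgroup, c s ∈ Tor act (cj π)) (hc' : ∀ s ∈ L.fixingSubgroup, c' s ∈ Tor act (cj π))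
    {x x' : (L)ˣ} (h : KR L e l T M c x) (h' : KR L e l T M c' x') : KR L e l T M (c - c') (x * x'⁻¹) := by
  obtain ⟨y, z, ⟨hy0, hy⟩, hyz⟩ := h
  obtain ⟨y', z', ⟨hy0', hy'⟩, hyz'⟩ := h'
  refine ⟨y / y', z * z'⁻¹, ⟨div_ne_zero hy0 hy0', fun s hs => ?_⟩, ?_⟩
  · rw [Pi.sub_apply, H13X.lk_sub D he (hc s hs) (hc' s hs) hT, map_div₀, hy s hs, hy' s hs, mul_div_mul_comm]
  · have e1 : M (x * x'⁻¹) * (z * z'⁻¹) ^ l = (M x * z ^ l) * (M x' * z' ^ l)⁻¹ := by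
      rw [map_mul, map_inv, mul_pow, inv_pow, mul_inv]
      exact mul_mul_mul_comm _ _ _ _
    have e3 : ∀ a b : (L)ˣ, (((a * b⁻¹ : (L)ˣ) : L) : Ω) = ((a : L) : Ω) / ((b : L) : Ω) := fun a b => by
      rw [Units.val_mul, Units.val_inv_eq_inv_val, div_eq_mul_inv]
      rfl
    rw [e1, e3, div_pow, hyz, hyz']

omit [IsAlgClosure F Ω] in
/-- The zero class. -/
theorem kr_zero (D : Dat A B Om j act mo ψ π l) (he : Pairing A B act π l e) {T : Pt (WAB A B) Ω} (hT : T ∈ Tor act π)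
    {M : (L)ˣ →* (L)ˣ} : KR L e l T M (0 : (Ω ≃ₐ[F] Ω) → Pt (WAB A B) Ω) 1 := by
  refine ⟨1, 1, ⟨one_ne_zero, fun s _ => ?_⟩, ?_⟩
  · have h0 : (0 : Pt (WAB A B) Ω) ∈ Tor act (cj π) := zero_mem _
    have h1 := he.add_left 0 h0 0 h0 T hT
    rw [add_zero] at h1
    have h2 : e 0 T ≠ 0 := H13X.lk_ne D he h0 hT
    have h3 : e 0 T = 1 := by
      have h4 : e 0 T * 1 = e 0 T * e 0 T := by rw [mul_one]; exact h1
      exact (mul_left_cancel₀ h2 h4).symm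
    rw [map_one, Pi.zero_apply, h3, one_mul]
  · rw [map_one, one_pow, one_pow, mul_one]
    rfl

/-- A coboundary comes from an l-th power. -/
theorem kr_cob (D : Dat A B Om j act mo ψ π l) (he : Pairing A B act π l e) (hL : IsTB act π N L) {T : Pt (WAB A B) Ω}
    (hT : T ∈ Tor act π) {M : (L)ˣ →* (L)ˣ} {x : (L)ˣ} (h : KR L e l T M c x) {X : Pt (WAB A B) Ω} (hX : X ∈ Tor act (cj π))
    (hc : ∀ s ∈ N.fixingSubgroup, c s = ac (WAB A B) s X - X) : ∃ z : (L)ˣ, M x = z ^ l := by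
  obtain ⟨y, z, ⟨hy0, hy⟩, hyz⟩ := h
  have hne : e X T ≠ 0 := H13X.lk_ne D he hX hT
  have hmem : y / e X T ∈ L := by
    refine ku2_mem L fun s hs => ?_
    have hsT : ac (WAB A B) s T = T := ((hL.fix s).1 hs).2 T hT
    rw [map_div₀, hy s hs, hc s (hL.mono hs), H13X.lk_sub D he (ac_mem D.cma s hX) hX hT, he.gal s X hX T hT, hsT]
    have h2 : e (ac (WAB A B) s X) T ≠ 0 := H13X.lk_ne D he (ac_mem D.cma s hX) hT
    field_simp
  have hy1 : y / e X T ≠ 0 := div_ne_zero hy0 hne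
  let u : (L)ˣ := Units.mk0 ⟨y / e X T, hmem⟩ (fun h => hy1 (congrArg Subtype.val h))
  refine ⟨u * z⁻¹, ?_⟩
  have h1 : u ^ l = M x * z ^ l := by
    apply Units.ext
    apply Subtype.ext
    have e1 : (((u ^ l : (L)ˣ) : L) : Ω) = (y / e X T) ^ l := by
      rw [Units.val_pow_eq_pow_val]
      rfl
    rw [e1, div_pow, he.root X hX T hT, div_one, hyz]
  rw [mul_pow, h1, inv_pow, mul_inv_cancel_right]

omit [IsAlgClosure F Ω] in
/-- If the pairing with a generator is trivial the point is zero. -/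
theorem kr_gen (D : Dat A B Om j act mo ψ π l) (he : Pairing A B act π l e) {T₀ : Pt (WAB A B) Ω} (hT₀ : T₀ ∈ Tor act π)
    (hgen : ∀ T : Pt (WAB A B) Ω, act π T = 0 → ∃ a : ZMod l, T = a.val • T₀) {X : Pt (WAB A B) Ω} (hX : X ∈ Tor act (cj π))
    (h : e X T₀ = 1) : X = 0 := by
  refine he.nondeg X hX fun T hT => ?_
  obtain ⟨a, ha⟩ := hgen T hT
  have h1 : ∀ k : ℕ, e X (k • T₀) = 1 := by
    intro k
    induction k with
    | zero =>
      rw [zero_nsmul]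
      have h2 := he.add_right X hX 0 (zero_mem _) 0 (zero_mem _)
      rw [add_zero] at h2
      have h3 : e X 0 ≠ 0 := H13X.lk_ne D he hX (zero_mem _)
      have h4 : e X 0 * 1 = e X 0 * e X 0 := by rw [mul_one]; exact h2
      exact (mul_left_cancel₀ h3 h4).symm
    | succ k ih =>
      rw [succ_nsmul, he.add_right X hX _ ((Tor act π).nsmul_mem hT₀ k) T₀ hT₀, ih, h, one_mul]
  rw [ha]
  exact h1 _

omit [IsAlgClosure F Ω] in
/-- Outside l: if the value of M x is that of an l-th power in L then the class is unramified. -/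
theorem kr_inert (D : Dat A B Om j act mo ψ π l) (he : Pairing A B act π l e) {T₀ : Pt (WAB A B) Ω} (hT₀ : T₀ ∈ Tor act π)
    (hgen : ∀ T : Pt (WAB A B) Ω, act π T = 0 → ∃ a : ZMod l, T = a.val • T₀) {M : (L)ˣ →* (L)ˣ} {x : (L)ˣ}
    (h : KR L e l T₀ M c x) (hl : V.valuation (l : Ω) = 1) (hx : V.valuation (((M x : (L)ˣ) : L) : Ω) = 1)
    {s : Ω ≃ₐ[F] Ω} (hi : Inert V s) (hs : s ∈ L.fixingSubgroup) (hc : c s ∈ Tor act (cj π)) : c s = 0 := by
  have hchar : CharZero Ω := charZero_of_injective_algebraMap (algebraMap F Ω).injective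
  obtain ⟨y, z, ⟨hy0, hy⟩, hyz⟩ := h
  have hl0 : l ≠ 0 := D.hl.ne_zero
  have hvy : V.valuation y = V.valuation ((z : L) : Ω) := by
    have e1 : V.valuation y ^ l = V.valuation ((z : L) : Ω) ^ l := by
      rw [← map_pow, hyz, Units.val_mul]
      have e2 : (((M x : (L)ˣ) : L) * ((z ^ l : (L)ˣ) : L) : L) = ((M x : (L)ˣ) : L) * (z : L) ^ l := by
        rw [Units.val_pow_eq_pow_val]
      rw [e2]
      have e3 : ((((M x : (L)ˣ) : L) * (z : L) ^ l : L) : Ω) = (((M x : (L)ˣ) : L) : Ω) * ((z : L) : Ω) ^ l := rfl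
      rw [e3, map_mul, hx, one_mul, map_pow]
    exact (pow_left_inj₀ zero_le zero_le hl0).1 e1
  have hpow : s (y ^ l) = y ^ l := by
    rw [map_pow, hy s hs, mul_pow, he.root _ hc T₀ hT₀, one_mul]
  have hsy : s y = y := H13Z.unr_val V D.hl hl hy0 hvy hi
    ((IntermediateField.mem_fixingSubgroup_iff L s).1 hs _ (z : L).2) hpow
  refine kr_gen D he hT₀ hgen hc ?_
  have h3 := hy s hs
  rw [hsy] at h3
  exact mul_right_cancel₀ hy0 (by rw [one_mul]; exact h3.symm)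

/-- Above w over N': every class is unramified if w is tamely ramified in N'. -/
theorem kill_w [NumberField N] (D : Dat A B Om j act mo ψ π l) (he : Pairing A B act π l e) (hL : IsTB act π N L)
    (C : H13X.Cc act π N c) {T₀ : Pt (WAB A B) Ω} (hT₀ : T₀ ∈ Tor act π)
    (hgen : ∀ T : Pt (WAB A B) Ω, act π T = 0 → ∃ a : ZMod l, T = a.val • T₀)
    (hl : V.valuation (l : Ω) = 1) (hfx : ∀ t, DecN N V t → ∀ T ∈ Tor act π, ac (WAB A B) t T = T)
    {N' : IntermediateField F Ω} (hNN : N ≤ N')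
    (hx : ∀ a ∈ N, a ≠ 0 → ∃ x ∈ N', V.valuation x ^ l = V.valuation a) {s : Ω ≃ₐ[F] Ω}
    (hs : s ∈ N'.fixingSubgroup) (hi : Inert V s) : c s = 0 := by
  have hchar : CharZero Ω := charZero_of_injective_algebraMap (algebraMap F Ω).injective
  have hfix : ∀ t : Ω ≃ₐ[F] Ω, t ∈ N.fixingSubgroup → Inert V t → t ∈ L.fixingSubgroup :=
    fun t ht hti => (hL.fix t).2 ⟨ht, hfx t ⟨ht, H55P.inert_dec V t hti⟩⟩
  have hsN : s ∈ N.fixingSubgroup := IntermediateField.fixingSubgroup_antitone hNN hs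
  have hsL := hfix s hsN hi
  obtain ⟨y, hy0, hy⟩ := H13X.exists_kumB D C he hL hT₀
  have hpow : ∀ t ∈ L.fixingSubgroup, t (y ^ l) = y ^ l := fun t ht => by
    rw [map_pow, hy t ht, mul_pow, he.root _ (C.val t (hL.mono ht)) T₀ hT₀, one_mul]
  obtain ⟨a, ha0, ha⟩ := H13S.value_fixed N V (y ^ l) (pow_ne_zero l hy0) (fun t ht hti => hpow t (hfix t ht hti))
  obtain ⟨x, hxN, hxa⟩ := hx (a : Ω) a.2 (fun h => ha0 (Subtype.ext h))
  rw [← hxa, map_pow] at ha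
  have hxy : V.valuation y = V.valuation x := (pow_left_inj₀ zero_le zero_le D.hl.ne_zero).1 ha
  have hsy : s y = y := H13Z.unr_val V D.hl hl hy0 hxy hi ((IntermediateField.mem_fixingSubgroup_iff N' s).1 hs x hxN)
    (hpow s hsL)
  refine kr_gen D he hT₀ hgen (C.val s hsN) ?_
  have h3 := hy s hsL
  rw [hsy] at h3
  exact mul_right_cancel₀ hy0 (by rw [one_mul]; exact h3.symm)

/-- Existence of the class of x. -/
theorem kr_exists (D : Dat A B Om j act mo ψ π l) (he : Pairing A B act π l e) [NumberField N] [NumberField L] (hL : IsTB act π N L)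
    {T₀ : Pt (WAB A B) Ω} (hT₀ : T₀ ∈ Tor act π) (h0 : T₀ ≠ 0) [Fact l.Prime] (q : 𝓞 F →+* ZMod l) (hq : Function.Surjective q)
    (hk : ∀ x, q x = 0 ↔ π ∣ x) :
    letI := algNL hL.le
    ∀ (χ : Gal(L/N) →* (ZMod l)ˣ) (_ : ∀ (σ : Gal(L/N)) (s : Ω ≃ₐ[F] Ω) (c : 𝓞 F), Lft σ s → q c = χ σ →
        ∀ R ∈ Tor act π, ac (WAB A B) s R = act c R) (x : (L)ˣ),
      ∃ c : (Ω ≃ₐ[F] Ω) → Pt (WAB A B) Ω, H13X.Cc act π N c ∧ KR L e l T₀ (Mh χ) c x := by
  classical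
  letI := algNL hL.le
  intro χ hχ x
  have hA := D.cma
  have hp := D.pr
  have hT : IsScalarTower F N L := IsScalarTower.of_algebraMap_eq fun x => Subtype.ext rfl
  have hT' : IsScalarTower N L Ω := IsScalarTower.of_algebraMap_eq fun x => rfl
  have hTF := H13X.tfld_of_tb hA hL
  have hrestr := H13X.exists_restr hA hL
  have hm : EqHomN l χ fun a => pw guN (cf χ (AddMonoidHom.id (ZMod l)) a) x := etaN_hom χ (AddMonoidHom.id (ZMod l)) x
  obtain ⟨m₀, hm₀⟩ : ∃ m₀ : ZMod l → (L)ˣ, m₀ = fun a => pw guN (cf χ (AddMonoidHom.id (ZMod l)) a) x := ⟨_, rfl⟩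
  rw [← hm₀] at hm
  have hact0 : ∀ c c' : 𝓞 F, act c T₀ = act c' T₀ → q c = q c' := by
    intro c c' h
    have h1 : act (c - c') T₀ = 0 := by rw [H55K.k2a_sub, h, sub_self]
    rw [H55K.tor_zero hA hp hT₀ h0, ← hk, map_sub, sub_eq_zero] at h1
    exact h1
  have hex : ∀ T : Pt (WAB A B) Ω, ∃ c : 𝓞 F, T ∈ Tor act π → act c T₀ = T := by
    intro T
    by_cases hT : T ∈ Tor act π
    · obtain ⟨c, hc⟩ := H55K.tor_gen hA hp hT₀ hT h0
      exact ⟨c, fun _ => hc⟩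
    · exact ⟨0, fun h => absurd h hT⟩
  choose cc hcc using hex
  have hP : ∀ c : 𝓞 F, act c T₀ ∈ Tor act π := fun c => H55K.tor_act c hT₀
  have hdet : ∀ (c : 𝓞 F), q (cc (act c T₀)) = q c := by
    intro c
    exact hact0 _ _ (hcc _ (hP c))
  obtain ⟨c, hc, hcT⟩ := H13X.cocycle_of_m D he hL (fun T => m₀ (q (cc T))) (fun T hT T' hT' => by
    have h2 : q (cc (T + T')) = q (cc T) + q (cc T') := by
      rw [← map_add, ← hdet (cc T + cc T')]
      congr 2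
      rw [H55K.k2a_add, hcc T hT, hcc T' hT']
    show ∃ z, m₀ (q (cc (T + T'))) = _
    rw [h2]
    exact hm.add _ _) (fun σ hσ T hT => by
    obtain ⟨s, hs⟩ := hrestr σ hσ
    obtain ⟨c, hc⟩ := hq (χ s : ZMod l)
    have h2 : ac (WAB A B) σ T = act (c * cc T) T₀ := by
      rw [H55K.k2a_mul, hcc T hT]
      exact hχ s σ c (fun x => hs x) hc T hT
    have h3 : q (cc (ac (WAB A B) σ T)) = χ s * q (cc T) := by
      rw [h2, hdet, map_mul, hc]
    obtain ⟨z, hz⟩ := hm.equiv s (q (cc T))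
    refine ⟨z, ?_⟩
    show ((m₀ (q (cc (ac (WAB A B) σ T))) : L) : Ω) = _
    rw [h3, hz, hs]
    rfl)
  refine ⟨c, hc, ?_⟩
  obtain ⟨y, hy, z, hyz⟩ := hcT T₀ hT₀
  refine ⟨y, z, hy, ?_⟩
  have h5 : q (cc T₀) = 1 := by
    have h6 := hdet 1
    rw [H55K.S.act_one, map_one q] at h6
    exact h6
  have h6 : m₀ (q (cc T₀)) = Mh χ x := by rw [h5, hm₀]; rfl
  rw [← h6]
  exact hyz

end H19C
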