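import Mathlib
import Pool.Agent.Lib.H19C.GK
import Pool.Agent.Lib.H19C.GI
import Pool.Agent.Lib.H19C.GS
import Pool.Agent.Lib.H19C.GC

/-! # H19C, chunk GT1: lemmas for the global count -/

open NumberField IsDedekindDomain WeierstrassCurve

namespace H19C

open H55P (IQ Pt ac Dec Inert decS Nm Ram)
open H35P (WAB Ker tt)
open H55K (Tor CMA Dta GV ak cj xc yc Lft TFld Abw)
open H55K.S
open H55R (Pl ord)
open H19B (DN mem_DN Cc CS mem_CS)
open H13S (Abv)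
open H13X (Dat IsTB DecN algNL loc_zero JV)
open H13Y (guN)
open H99B (pw cf)

theorem nodvd {l n m : ℕ} (hl : l.Prime) (h1 : n ∣ m) (h4 : m = l - 1) : ¬ l ∣ n := by
  intro h5
  have h3 := hl.one_lt
  have h2 := Nat.le_of_dvd (Nat.sub_pos_of_lt h3) ((h5.trans h1).trans (dvd_of_eq h4))
  omega

/-- The order of a group of characters with values in the integers modulo l. -/
theorem card_ne {G : Type} [Group G] [Fintype G] {l : ℕ} [Fact l.Prime] (χ : G →* (ZMod l)ˣ) (hχ : Function.Injective χ) :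
    ((Fintype.card G : ℕ) : ZMod l) ≠ 0 := by
  have h1 : Nat.card G ∣ Nat.card (ZMod l)ˣ := Subgroup.card_dvd_of_injective χ hχ
  rw [Nat.card_eq_fintype_card (α := G), Nat.card_eq_fintype_card (α := (ZMod l)ˣ)] at h1
  intro h0
  exact nodvd Fact.out h1 (ZMod.card_units l) ((ZMod.natCast_eq_zero_iff _ _).1 h0)

theorem mh_apply {N L : Type} [Field N] [Field L] [Algebra N L] [Fintype Gal(L/N)] {l : ℕ} [Fact l.Prime]
    (χ : Gal(L/N) →* (ZMod l)ˣ) (x : Lˣ) :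
    Mh χ x = ∏ g : Gal(L/N), (guN g x) ^ (cf χ (AddMonoidHom.id (ZMod l)) 1 g) := rfl

/-- The powers of guN preserve the units outside S. -/
theorem mh_mem {N L : Type} [Field N] [NumberField N] [Field L] [NumberField L] [Algebra N L] [Fintype Gal(L/N)]
    {l : ℕ} [Fact l.Prime] (χ : Gal(L/N) →* (ZMod l)ˣ) {S : Finset (Pl N)} {x : Lˣ} (hx : x ∈ SUs L S) :
    Mh χ x ∈ SUs L S := by
  rw [mh_apply]
  exact Subgroup.prod_mem _ fun g _ => Subgroup.zpow_mem _ (SUs_act g hx) _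

/-- An element with order zero at the prime below V has value 1. -/
theorem ord_val {L : Type} [Field L] [NumberField L] {Ω : Type} [Field Ω] [Algebra L Ω] {V : ValuationSubring Ω} {W : Pl L}
    (hV : Abw V W) {x : Lˣ} (hx : ord W x = 0) : V.valuation (algebraMap L Ω (x : L)) = 1 := by
  have h1 : ∀ y : Lˣ, ord W y = 0 → V.valuation (algebraMap L Ω (y : L)) ≤ 1 := by
    intro y hy
    rw [V.valuation_le_one_iff, hV]
    have h2 := HeightOneSpectrum.valuationOfNeZero_eq W y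
    have h3 : W.valuationOfNeZero y = 1 := by
      have h4 : -Multiplicative.toAdd (W.valuationOfNeZero y) = 0 := hy
      exact toAdd_eq_zero.1 (neg_eq_zero.1 h4)
    rw [h3] at h2
    rw [← h2]
    exact le_of_eq WithZero.coe_one
  refine le_antisymm (h1 x hx) ?_
  have h2 := h1 x⁻¹ (by rw [H55R.ord_inv, hx, neg_zero])
  rw [Units.val_inv_eq_inv_val, map_inv₀, map_inv₀] at h2
  have h3 : V.valuation (algebraMap L Ω (x : L)) ≠ 0 := (map_ne_zero _).2 ((map_ne_zero _).2 x.ne_zero)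
  exact (inv_le_one₀ (zero_lt_iff.2 h3)).1 h2

variable {F : Type} [Field F] [NumberField F] [IQ F] {A B : F} {Om : ℂ} {Ω : Type} [Field Ω] [DecidableEq Ω]
  [Algebra F Ω] {j : Ω →+* ℂ} {act : 𝓞 F →+* AddMonoid.End (Pt (WAB A B) Ω)} {mo : Ideal (𝓞 F)}
  {ψ : Ideal (𝓞 F) →*₀ 𝓞 F}

variable {π : 𝓞 F} {l : ℕ} {e : Pt (WAB A B) Ω → Pt (WAB A B) Ω → Ω} {N N' L : IntermediateField F Ω}
  {c c' : (Ω ≃ₐ[F] Ω) → Pt (WAB A B) Ω} {V V₀ : ValuationSubring Ω}

variable [IsAlgClosure F Ω]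

/-- The elements whose class lies in Y'. -/
def YG (D : Dat A B Om j act mo ψ π l) (he : Pairing A B act π l e) {T : Pt (WAB A B) Ω} (hT : T ∈ Tor act π)
    (hL : IsTB act π N L) (M : (L)ˣ →* (L)ˣ) (Y' : AddSubgroup ((Ω ≃ₐ[F] Ω) → Pt (WAB A B) Ω))
    (hY : Y' ≤ CS N.fixingSubgroup act (cj π)) : Subgroup (L)ˣ where
  carrier := {x | ∃ c ∈ Y', KR L e l T M c x}
  one_mem' := ⟨0, Y'.zero_mem, kr_zero D he hT⟩
  mul_mem' := by
    rintro x x' ⟨c, hc, h⟩ ⟨c', hc', h'⟩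
    have h0 : ∀ s ∈ L.fixingSubgroup, (0 : (Ω ≃ₐ[F] Ω) → Pt (WAB A B) Ω) s ∈ Tor act (cj π) := fun s _ => zero_mem _
    have h1 : ∀ s ∈ L.fixingSubgroup, c' s ∈ Tor act (cj π) := fun s hs => (hY hc').tor s (hL.mono hs)
    have h2 := kr_sub D he hT h0 h1 (kr_zero D he hT) h'
    have h3 : ∀ s ∈ L.fixingSubgroup, ((0 : (Ω ≃ₐ[F] Ω) → Pt (WAB A B) Ω) - c') s ∈ Tor act (cj π) := fun s hs =>
      sub_mem (h0 s hs) (h1 s hs)
    have h4 := kr_sub D he hT (fun s hs => (hY hc).tor s (hL.mono hs)) h3 h h2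
    refine ⟨c - (0 - c'), Y'.sub_mem hc (Y'.sub_mem Y'.zero_mem hc'), ?_⟩
    rw [one_mul, inv_inv] at h4
    exact h4
  inv_mem' := by
    rintro x ⟨c, hc, h⟩
    have h0 : ∀ s ∈ L.fixingSubgroup, (0 : (Ω ≃ₐ[F] Ω) → Pt (WAB A B) Ω) s ∈ Tor act (cj π) := fun s _ => zero_mem _
    have h1 : ∀ s ∈ L.fixingSubgroup, c s ∈ Tor act (cj π) := fun s hs => (hY hc).tor s (hL.mono hs)
    have h2 := kr_sub D he hT h0 h1 (kr_zero D he hT) h
    rw [one_mul] at h2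
    exact ⟨0 - c, Y'.sub_mem Y'.zero_mem hc, h2⟩

/-- The l-th powers correspond to the class 0. -/
theorem kr_lpow (D : Dat A B Om j act mo ψ π l) (he : Pairing A B act π l e) {T : Pt (WAB A B) Ω} (hT : T ∈ Tor act π)
    {M : (L)ˣ →* (L)ˣ} (x : (L)ˣ) : KR L e l T M (0 : (Ω ≃ₐ[F] Ω) → Pt (WAB A B) Ω) (x ^ l) := by
  obtain ⟨y, z, hy, hyz⟩ := kr_zero (L := L) D he hT (M := M)
  refine ⟨y, z * (M x)⁻¹, hy, ?_⟩
  rw [hyz]
  congr 2
  rw [map_one, one_mul, map_pow, mul_pow, inv_pow, mul_comm (z ^ l), mul_inv_cancel_left]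

/-- The local conditions at conjugate places. -/
theorem loc_conj [NumberField N] (C : H13X.Cc act π N c) (hNN : N ≤ N') (hn : ∀ s ∈ N.fixingSubgroup, ∀ x ∈ N', s x ∈ N')
    {v : HeightOneSpectrum (𝓞 N)} (hV₀ : Abv N V₀ v) (hV : Abv N V v)
    (h : ∃ P : Pt (WAB A B) Ω, ∀ s ∈ DN N' V₀, c s = ac (WAB A B) s P - P) :
    ∃ P : Pt (WAB A B) Ω, ∀ s ∈ N'.fixingSubgroup, Dec V s → c s = ac (WAB A B) s P - P := by
  obtain ⟨P, hP⟩ := h
  obtain ⟨σ, hσM, hσ⟩ := H13X.trans_V N hV₀ hV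
  have hmono : ∀ s ∈ N'.fixingSubgroup, s ∈ N.fixingSubgroup := fun s hs => IntermediateField.fixingSubgroup_antitone hNN hs
  refine ⟨ac (WAB A B) σ P - c σ, fun s hs hsD => ?_⟩
  obtain ⟨t, ht⟩ : ∃ t : Ω ≃ₐ[F] Ω, t = σ⁻¹ * s * σ := ⟨_, rfl⟩
  have hst : s * σ = σ * t := by
    rw [ht]
    group
  have htN' : t ∈ N'.fixingSubgroup := by
    rw [ht, IntermediateField.mem_fixingSubgroup_iff]
    intro x hx
    have h1 : s (σ x) = σ x := (IntermediateField.mem_fixingSubgroup_iff N' s).1 hs _ (hn σ hσM x hx)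
    show σ⁻¹ (s (σ x)) = x
    rw [h1]
    exact σ.symm_apply_apply x
  have htD : Dec V₀ t := by
    intro x
    rw [ht]
    have h1 := hσ (σ⁻¹ (s (σ x)))
    have h2 : σ (σ⁻¹ (s (σ x))) = s (σ x) := σ.apply_symm_apply _
    rw [h2] at h1
    exact h1.symm.trans ((hsD (σ x)).trans (hσ x))
  have h3 := hP t (mem_DN.2 ⟨htN', htD⟩)
  have h4 := C.mul s (hmono s hs) σ hσM
  have h5 := C.mul σ hσM t (hmono t htN')
  rw [hst, h5, h3] at h4
  have h6 : ac (WAB A B) s (ac (WAB A B) σ P) = ac (WAB A B) σ (ac (WAB A B) t P) := by rw [← ac_mul, hst, ac_mul]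
  rw [map_sub] at h4
  rw [map_sub, h6]
  have h7 : c s = c σ + (ac (WAB A B) σ (ac (WAB A B) t P) - ac (WAB A B) σ P) - ac (WAB A B) s (c σ) := by
    rw [h4]
    abel
  rw [h7]
  abel

/-- The local conditions outside l and w. -/
theorem loc_out [NumberField N] (D : Dat A B Om j act mo ψ π l) (he : Pairing A B act π l e) (hL : IsTB act π N L)
    (C : H13X.Cc act π N c) (hNN : N ≤ N') {T₀ : Pt (WAB A B) Ω} (hT₀ : T₀ ∈ Tor act π)
    (hgen : ∀ T : Pt (WAB A B) Ω, act π T = 0 → ∃ a : ZMod l, T = a.val • T₀) {M : (L)ˣ →* (L)ˣ} {x : (L)ˣ}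
    (h : KR L e l T₀ M c x) (hVt : V ≠ ⊤) (hl : V.valuation (l : Ω) = 1) (hx : V.valuation (((M x : (L)ˣ) : L) : Ω) = 1) :
    ∃ P : Pt (WAB A B) Ω, ∀ s ∈ N'.fixingSubgroup, Dec V s → c s = ac (WAB A B) s P - P := by
  obtain ⟨v, hv⟩ := H13X.xg3_below (F := F) N hVt
  obtain ⟨P, hP⟩ := loc_zero D C hv (fun h => absurd h (by rw [hl]; exact lt_irrefl _)) fun s hs hj =>
    kr_inert D he hT₀ hgen h hl hx hj.1 ((hL.fix s).2 ⟨hs, hj.2.1⟩) (C.val s hs)
  exact ⟨P, fun s hs hsD => hP s (IntermediateField.fixingSubgroup_antitone hNN hs) hsD⟩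

/-- The local conditions above w, not above l. -/
theorem loc_tame [NumberField N] [NumberField N'] (D : Dat A B Om j act mo ψ π l) (he : Pairing A B act π l e) (hL : IsTB act π N L)
    (C : H13X.Cc act π N c) (hNN : N ≤ N') {T₀ : Pt (WAB A B) Ω} (hT₀ : T₀ ∈ Tor act π)
    (hgen : ∀ T : Pt (WAB A B) Ω, act π T = 0 → ∃ a : ZMod l, T = a.val • T₀)
    (hn : ∀ s ∈ N.fixingSubgroup, ∀ x ∈ N', s x ∈ N')
    (hd : Module.finrank F N' = Module.finrank F N * l) {w : HeightOneSpectrum (𝓞 N)}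
    (hr : Ram N N' w.asIdeal) (hV : Abv N V w) (hVt : V ≠ ⊤) (hl : V.valuation (l : Ω) = 1)
    (hfx : ∀ t, DecN N V t → ∀ T ∈ Tor act π, ac (WAB A B) t T = T) :
    ∃ P : Pt (WAB A B) Ω, ∀ s ∈ N'.fixingSubgroup, Dec V s → c s = ac (WAB A B) s P - P := by
  have hN'f : FiniteDimensional F N' := H13X.yn1_fin N'
  have hmono : ∀ s ∈ N'.fixingSubgroup, s ∈ N.fixingSubgroup := fun s hs => IntermediateField.fixingSubgroup_antitone hNN hs
  have C' : H13X.Cc act π N' c := ⟨fun s hs t ht => C.mul s (hmono s hs) t (hmono t ht), by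
    obtain ⟨M, hM, h1⟩ := C.cont
    exact ⟨M, hM, fun s hs => h1 s (hmono s hs)⟩, fun s hs => C.val s (hmono s hs)⟩
  obtain ⟨v, hv⟩ := H13X.xg3_below (F := F) N' hVt
  exact loc_zero D C' hv (fun h => absurd h (by rw [hl]; exact lt_irrefl _)) fun s hs hj =>
    kill_w D he hL C hT₀ hgen hl hfx hNN (fun a ha h0 => H13Y.ram_step D.hl hNN hn hd hr hV ha h0) hs hj.1

end H19C
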