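import Mathlib
import Pool.Agent.Lib.H19C.GT1

/-! # H19C, chunk GT2: the selection of a class by counting -/

open NumberField IsDedekindDomain WeierstrassCurve

namespace H19C

open H55P (IQ Pt ac Dec Inert decS Nm Ram)
open H35P (WAB Ker tt)
open H55K (Tor CMA Dta GV ak cj xc yc Lft TFld Abw)
open H55K.S
open H55R (Pl ord smulP)
open H19B (DN mem_DN Cc CS mem_CS)
open H13S (Abv)
open H13X (Dat IsTB DecN algNL loc_zero JV)
open H13Y (guN exists_teich)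
open H99B (pw cf)

variable {F : Type} [Field F] [NumberField F] [IQ F] {A B : F} {Om : ℂ} {Ω : Type} [Field Ω] [DecidableEq Ω]
  [Algebra F Ω] {j : Ω →+* ℂ} {act : 𝓞 F →+* AddMonoid.End (Pt (WAB A B) Ω)} {mo : Ideal (𝓞 F)}
  {ψ : Ideal (𝓞 F) →*₀ 𝓞 F}

variable {π : 𝓞 F} {l : ℕ} {e : Pt (WAB A B) Ω → Pt (WAB A B) Ω → Ω} {N N' L : IntermediateField F Ω}
  {c c' : (Ω ≃ₐ[F] Ω) → Pt (WAB A B) Ω} {V V₀ : ValuationSubring Ω}

variable [IsAlgClosure F Ω]

omit [IsAlgClosure F Ω] in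
theorem cc_of (C : H13X.Cc act π N c) : Cc N.fixingSubgroup act (cj π) c :=
  ⟨C.mul, fun s hs => C.val s hs, by
    obtain ⟨M, hM, h⟩ := C.cont
    exact ⟨M, hM, fun s hs hs' => h s hs hs'⟩⟩

omit [IsAlgClosure F Ω] in
theorem of_cc (C : Cc N.fixingSubgroup act (cj π) c) : H13X.Cc act π N c :=
  ⟨C.mul, by
    obtain ⟨M, hM, h⟩ := C.cont
    exact ⟨M, hM, fun s hs hs' => h s hs hs'⟩, fun s hs => C.tor s hs⟩

/-- The selection of a class. -/
theorem sel_x (D : Dat A B Om j act mo ψ π l) (he : Pairing A B act π l e) [NumberField N] [NumberField L] (hL : IsTB act π N L)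
    {T₀ : Pt (WAB A B) Ω} (hT₀ : T₀ ∈ Tor act π) (h0 : T₀ ≠ 0) [Fact l.Prime] (q : 𝓞 F →+* ZMod l) (hq : Function.Surjective q)
    (hk : ∀ x, q x = 0 ↔ π ∣ x) (hmv : ∃ s ∈ N.fixingSubgroup, ∃ T ∈ Tor act π, ac (WAB A B) s T ≠ T)
    (S : Finset (Pl N)) (hS : ∀ v ∈ S, ∀ V : ValuationSubring Ω, Abv N V v → ∀ s, DecN N V s → ∀ T ∈ Tor act π, ac (WAB A B) s T = T)
    (Y' : AddSubgroup ((Ω ≃ₐ[F] Ω) → Pt (WAB A B) Ω)) (hY' : Y' ≤ CS N.fixingSubgroup act (cj π))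
    (hf : Y'.relIndex (CS N.fixingSubgroup act (cj π)) ≠ 0)
    (hc : Y'.relIndex (CS N.fixingSubgroup act (cj π)) < l ^ (Module.finrank F N + S.card)) :
    letI := algNL hL.le
    ∃ χ : Gal(L/N) →* (ZMod l)ˣ, ∃ x ∈ SUs L S, (∃ c ∈ Y', KR L e l T₀ (Mh χ) c x) ∧ ∀ z : (L)ˣ, Mh χ x ≠ z ^ l := by
  classical
  letI := algNL hL.le
  have hA := D.cma
  have hp := D.pr
  have hT : IsScalarTower F N L := IsScalarTower.of_algebraMap_eq fun x => Subtype.ext rfl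
  have hT' : IsScalarTower N L Ω := IsScalarTower.of_algebraMap_eq fun x => rfl
  have hTF := H13X.tfld_of_tb hA hL
  have hgal : IsGalois N L := hTF.gal
  obtain ⟨χ, hχi, hχ⟩ := H55K.exists_chi hA hp hTF q hq hk
  have hex := fun x : (L)ˣ => kr_exists D he hL hT₀ h0 q hq hk χ hχ x
  choose g hgC hgK using hex
  have hh : ∀ x ∈ SUs L S, x ^ l ∈ YG D he hT₀ hL (Mh χ) Y' hY' := fun x _ => ⟨0, Y'.zero_mem, kr_lpow D he hT₀ x⟩
  have hidx := rel_mul (SUs L S) (YG D he hT₀ hL (Mh χ) Y' hY') (CS N.fixingSubgroup act (cj π)) Y' g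
    (fun x _ => (mem_CS _ _ _).2 (cc_of (hgC x)))
    (fun x _ x' _ hxx => ⟨g x - g x', hxx, kr_sub D he hT₀ (fun s hs => (hgC x).val s (hL.mono hs))
      (fun s hs => (hgC x').val s (hL.mono hs)) (hgK x) (hgK x')⟩) hf
  obtain ⟨VC, ω, hV, hωi, hω⟩ := exists_teich l χ hχi
  have hω1 : ω ≠ 1 := by
    intro h
    obtain ⟨s, hs, T, hTT, hne⟩ := hmv
    obtain ⟨σ, hσ⟩ := H13X.exists_restr hA hL s hs
    have h3 : σ = 1 := hωi (by rw [h]; rfl)
    apply hne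
    refine ((hL.fix s).1 ?_).2 T hTT
    rw [IntermediateField.mem_fixingSubgroup_iff]
    intro x hx
    have h4 := hσ ⟨x, hx⟩
    rw [h3] at h4
    exact h4
  obtain ⟨hcx, hcardN⟩ := H13X.places_card (F := F) N
  obtain ⟨ψ', p1, p2, p3⟩ := exists_psiS hcx ω hω1 S (fun w hw => H13X.stab_N hL (hS w hw))
  obtain ⟨x, hx, hxY, hnx⟩ := gn_sub χ (card_ne χ hχi) (guN : Gal(L/N) →* Monoid.End (L)ˣ) (SUs L S)
    (YG D he hT₀ hL (Mh χ) Y' hY') (fun g x hx => SUs_act g hx) hh (ι := InfinitePlace N ⊕ S) hidx.1 (by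
      rw [Fintype.card_sum, hcardN, Fintype.card_coe]
      exact lt_of_le_of_lt hidx.2 hc) VC hV ω hω ψ' (fun i x _ y _ => p1 i x y) (fun i g x _ => p2 i g x) p3 (SUs_fg S)
  refine ⟨χ, x, hx, hxY, fun z hz => ?_⟩
  exact hnx z (SUs_pow D.hl.ne_zero (mh_mem χ hx) hz) hz

/-- The multiplicities of the primes dividing π. -/
theorem exists_b (hπ : π ≠ 0) (N : IntermediateField F Ω) [NumberField N] :
    ∃ b : Pl N → ℕ, ∀ v : Pl N, v.valuation N (algebraMap F N (π : F)) = WithZero.exp (-(b v : ℤ)) ∧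
      ((algebraMap (𝓞 F) (𝓞 N) π ∈ v.asIdeal ∧ 0 < b v) ∨ (algebraMap (𝓞 F) (𝓞 N) π ∉ v.asIdeal ∧ b v = 0)) := by
  classical
  have h : ∀ v : Pl N, ∃ b : ℕ, v.valuation N (algebraMap F N (π : F)) = WithZero.exp (-(b : ℤ)) ∧
      ((algebraMap (𝓞 F) (𝓞 N) π ∈ v.asIdeal ∧ 0 < b) ∨ (algebraMap (𝓞 F) (𝓞 N) π ∉ v.asIdeal ∧ b = 0)) := by
    intro v
    by_cases hv : algebraMap (𝓞 F) (𝓞 N) π ∈ v.asIdeal
    · obtain ⟨b, h1, h2⟩ := exists_mult hπ v hv
      exact ⟨b, h2, Or.inl ⟨hv, h1⟩⟩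
    · refine ⟨0, ?_, Or.inr ⟨hv, rfl⟩⟩
      have h1 : ¬ v.valuation N (algebraMap F N (π : F)) < 1 := by
        intro h2
        apply hv
        rw [← v.valuation_lt_one_iff_mem (K := N)]
        exact h2
      have h3 : v.valuation N (algebraMap F N (π : F)) ≤ 1 := v.valuation_le_one (algebraMap (𝓞 F) (𝓞 N) π)
      rw [le_antisymm h3 (not_lt.1 h1)]
      simp
  choose b hb using h
  exact ⟨b, hb⟩

/-- The local conditions at the primes of T. -/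
noncomputable def YT (act : 𝓞 F →+* AddMonoid.End (Pt (WAB A B) Ω)) (π : 𝓞 F) (N N' : IntermediateField F Ω) [NumberField N] (T : Finset (Pl N))
    (Vv : Pl N → ValuationSubring Ω) : AddSubgroup ((Ω ≃ₐ[F] Ω) → Pt (WAB A B) Ω) :=
  CS N.fixingSubgroup act (cj π) ⊓ ⨅ v : T, CL (DN N (Vv v)) (DN N' (Vv v)) act (cj π)

/-- The index of the local conditions. -/
theorem yt_index [NumberField N] (T : Finset (Pl N)) (Vv : Pl N → ValuationSubring Ω)
    (h : ∀ v ∈ T, (CL (DN N (Vv v)) (DN N' (Vv v)) act (cj π)).relIndex (CS (DN N (Vv v)) act (cj π)) ≠ 0) :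
    (YT act π N N' T Vv).relIndex (CS N.fixingSubgroup act (cj π)) ≠ 0 ∧
    (YT act π N N' T Vv).relIndex (CS N.fixingSubgroup act (cj π)) ≤
      ∏ v ∈ T, (CL (DN N (Vv v)) (DN N' (Vv v)) act (cj π)).relIndex (CS (DN N (Vv v)) act (cj π)) := by
  have hle : ∀ v, CS N.fixingSubgroup act (cj π) ≤ CS (DN N (Vv v)) act (cj π) := by
    intro v c hc
    rw [mem_CS] at hc ⊢
    refine ⟨fun s hs t ht => hc.mul s (mem_DN.1 hs).1 t (mem_DN.1 ht).1, fun s hs => hc.tor s (mem_DN.1 hs).1, ?_⟩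
    obtain ⟨M, hM, h⟩ := hc.cont
    exact ⟨M, hM, fun s hs hs' => h s (mem_DN.1 hs).1 hs'⟩
  have h1 : ∀ v ∈ T, (CL (DN N (Vv v)) (DN N' (Vv v)) act (cj π)).relIndex (CS N.fixingSubgroup act (cj π)) ≠ 0 := by
    intro v hv h0
    exact h v hv (AddSubgroup.relIndex_eq_zero_of_le_right (hle v) h0)
  have h2 := rel_infp (CS N.fixingSubgroup act (cj π)) T (fun v => CL (DN N (Vv v)) (DN N' (Vv v)) act (cj π)) h1
  unfold YT
  rw [AddSubgroup.inf_relIndex_left]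
  refine ⟨h2.1, h2.2.trans ?_⟩
  exact Finset.prod_le_prod' fun v hv => AddSubgroup.relIndex_le_of_le_right (hle v) (h v hv)

/-- A bound for a product. -/
theorem num_bound {ι : Type} (T : Finset ι) (P : ι → Prop) [DecidablePred P] (i n b : ι → ℕ) (l : ℕ)
    (h : ∀ v ∈ T, i v ≤ n v ^ b v * (if P v then l else 1)) :
    ∏ v ∈ T, i v ≤ (∏ v ∈ T, n v ^ b v) * l ^ (T.filter P).card := by
  have h1 : ∏ v ∈ T, (if P v then l else 1) = l ^ (T.filter P).card := by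
    rw [Finset.prod_ite, Finset.prod_const, Finset.prod_const_one, mul_one]
  rw [← h1, ← Finset.prod_mul_distrib]
  exact Finset.prod_le_prod' h

/-- A bound for a product, with a gain at w. -/
theorem num_bound' {ι : Type} [DecidableEq ι] (T : Finset ι) (P : ι → Prop) [DecidablePred P] (i n b : ι → ℕ) (l : ℕ)
    (h : ∀ v ∈ T, i v ≤ n v ^ b v * (if P v then l else 1)) {w : ι} (hw : w ∈ T)
    (hl : l * i w ≤ n w ^ b w * (if P w then l else 1)) :
    l * ∏ v ∈ T, i v ≤ (∏ v ∈ T, n v ^ b v) * l ^ (T.filter P).card := by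
  have h1 : ∏ v ∈ T, (if P v then l else 1) = l ^ (T.filter P).card := by
    rw [Finset.prod_ite, Finset.prod_const, Finset.prod_const_one, mul_one]
  rw [← h1, ← Finset.prod_mul_distrib, ← Finset.mul_prod_erase T i hw, ← Finset.mul_prod_erase T _ hw, ← mul_assoc]
  exact Nat.mul_le_mul hl (Finset.prod_le_prod' fun v hv => h v (Finset.mem_of_mem_erase hv))

end H19C
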