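import Mathlib
import Pool.Agent.Lib.H19C.GT2
import Pool.Agent.Lib.H13X.XKB2
import Pool.Agent.Lib.H55K.SPA2

/-! # H19C, chunk GT3: THE GLOBAL CLASS -/

open NumberField IsDedekindDomain WeierstrassCurve

namespace H19C

open H55P (IQ Pt ac Dec Inert decS Nm Ram)
open H35P (WAB Ker tt)
open H55K (Tor CMA Dta GV ak cj xc yc Lft TFld Abw exists_abw)
open H55K.S
open H55R (Pl ord smulP)
open H19B (DN mem_DN Cc CS mem_CS)
open H13S (Abv)
open H13X (Dat IsTB DecN algNL loc_zero JV)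
open H13Y (guN exists_teich)
open H99B (pw cf)

variable {F : Type} [Field F] [NumberField F] [IQ F] {A B : F} {Om : ℂ} {Ω : Type} [Field Ω] [DecidableEq Ω]
  [Algebra F Ω] [IsAlgClosure F Ω] {j : Ω →+* ℂ} {act : 𝓞 F →+* AddMonoid.End (Pt (WAB A B) Ω)} {mo : Ideal (𝓞 F)}
  {ψ : Ideal (𝓞 F) →*₀ 𝓞 F}

variable {π : 𝓞 F} {l : ℕ} {N N' : IntermediateField F Ω}

/-- THE GLOBAL CLASS. -/
theorem glob (D : Dat A B Om j act mo ψ π l) (hs : ¬ π ∣ cj π) [NumberField N] [NumberField N'] (hNN : N ≤ N')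
    (hn : ∀ s ∈ N.fixingSubgroup, ∀ x ∈ N', s x ∈ N') (hd : Module.finrank F N' = Module.finrank F N * l)
    {w : HeightOneSpectrum (𝓞 N)} (hr : Ram N N' w.asIdeal)
    (hw : ((l : 𝓞 N) ∉ w.asIdeal ∧ ∀ V : ValuationSubring Ω, Abv N V w → ∀ s, DecN N V s → ∀ T ∈ Tor act π, ac (WAB A B) s T = T) ∨
      (algebraMap (𝓞 F) (𝓞 N) π ∈ w.asIdeal ∧
        ∀ V : ValuationSubring Ω, Abv N V w → ∀ s, DecN N V s → ∀ T ∈ Tor act (cj π), ac (WAB A B) s T = T))
    (hmv : ∃ s ∈ N.fixingSubgroup, ∃ T ∈ Tor act π, ac (WAB A B) s T ≠ T) :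
    ∃ c, H13X.Cc act π N c ∧ (¬ ∃ T : Pt (WAB A B) Ω, l • T = 0 ∧ ∀ s ∈ N.fixingSubgroup, c s = ac (WAB A B) s T - T) ∧
      ∀ V : ValuationSubring Ω, V ≠ ⊤ →
        ∃ P : Pt (WAB A B) Ω, ∀ s ∈ N'.fixingSubgroup, Dec V s → c s = ac (WAB A B) s P - P := by
  classical
  have hA := D.cma
  have hp := D.pr
  have hl := D.hl
  have hlf : Fact l.Prime := ⟨hl⟩
  have hch : CharZero Ω := charZero_of_injective_algebraMap (algebraMap F Ω).injective
  have hNf : FiniteDimensional F N := H13X.yn1_fin N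
  obtain ⟨L, hL⟩ := H13X.exists_TB hA π hp N
  have hLf : FiniteDimensional F L := hL.fin
  have hLn : NumberField L := NumberField.of_module_finite F L
  obtain ⟨e, he⟩ := exists_pairing π l D.dta hp D.dvd
  obtain ⟨hNm, hcj⟩ := H19B.f3_split hl D.dta.unr hp D.dvd hs
  obtain ⟨T₀, hT₀, hgen, hinj, -⟩ := H19B.exists_T0 (Ω := Ω) hA hl D.dta.unr hp D.dvd hs
  have h0 : T₀ ≠ 0 := by
    intro h
    have h1 := hinj 1 (by rw [h, smul_zero])
    exact one_ne_zero h1
  obtain ⟨q, hq, hk⟩ := exists_q hl hNm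
  -- the primes above l
  let T : Finset (Pl N) := (fin_above N hl.ne_zero).toFinset
  have hTm : ∀ v : Pl N, v ∈ T ↔ (l : 𝓞 N) ∈ v.asIdeal := fun v => by
    rw [Set.Finite.mem_toFinset]
    exact Iff.rfl
  have hexV : ∀ v : Pl N, ∃ V : ValuationSubring Ω, Abv N V v := fun v => by
    obtain ⟨V, hV⟩ := exists_abw Ω v
    exact ⟨V, hV⟩
  choose Vv hVv using hexV
  obtain ⟨b, hb⟩ := exists_b (Ω := Ω) hp.ne_zero N
  let P : Pl N → Prop := fun v => ∀ s ∈ DN N (Vv v), ∀ X : Pt (WAB A B) Ω, act π X = 0 → ac (WAB A B) s X = X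
  have hdl : ∀ v, dl l (DN N (Vv v)) act π = if P v then l else 1 := fun v => rfl
  have hπl : ∀ v : Pl N, algebraMap (𝓞 F) (𝓞 N) π ∈ v.asIdeal → (l : 𝓞 N) ∈ v.asIdeal := by
    intro v hv
    have h1 := congrArg (algebraMap (𝓞 F) (𝓞 N)) hcj
    rw [map_natCast, map_mul] at h1
    rw [← h1]
    exact v.asIdeal.mul_mem_right _ hv
  have hidx : ∀ v ∈ T, (CL (DN N (Vv v)) (DN N' (Vv v)) act (cj π)).relIndex (CS (DN N (Vv v)) act (cj π)) ≠ 0 ∧
      (CL (DN N (Vv v)) (DN N' (Vv v)) act (cj π)).relIndex (CS (DN N (Vv v)) act (cj π)) ≤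
        Ideal.absNorm v.asIdeal ^ b v * if P v then l else 1 := by
    intro v hv
    rw [← hdl]
    refine loc_all D hs hNN ((hTm v).1 hv) (hVv v) ?_
    rcases (hb v).2 with h1 | h1
    · exact Or.inl ⟨h1.1, h1.2, (hb v).1⟩
    · exact Or.inr h1
  have hnorm : ∏ v ∈ T, Ideal.absNorm v.asIdeal ^ b v ≤ l ^ Module.finrank F N := by
    have h1 := prod_norm_pow hp.ne_zero T b fun v _ => (hb v).1
    rw [hNm] at h1
    exact h1
  have hY := yt_index (act := act) (π := π) (N' := N') T Vv fun v hv => (hidx v hv).1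
  -- the set S
  let S : Finset (Pl N) := T.filter P ∪ (if (l : 𝓞 N) ∈ w.asIdeal then ∅ else {w})
  have hSm : ∀ v, v ∈ S → (v ∈ T ∧ P v) ∨ (v = w ∧ (l : 𝓞 N) ∉ w.asIdeal) := by
    intro v hv
    rcases Finset.mem_union.1 hv with h1 | h1
    · exact Or.inl (Finset.mem_filter.1 h1)
    · by_cases hlw : (l : 𝓞 N) ∈ w.asIdeal
      · rw [if_pos hlw] at h1
        exact absurd h1 (Finset.notMem_empty v)
      · rw [if_neg hlw] at h1
        exact Or.inr ⟨Finset.mem_singleton.1 h1, hlw⟩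
  have hS : ∀ v ∈ S, ∀ V : ValuationSubring Ω, Abv N V v → ∀ s, DecN N V s → ∀ T ∈ Tor act π, ac (WAB A B) s T = T := by
    intro v hv V hV s hs' X hX
    rcases hSm v hv with h1 | h1
    · exact fix_conj hA (hVv v) hV π h1.2 s (mem_DN.2 hs') X hX
    · rcases hw with h2 | h2
      · rw [h1.1] at hV
        exact h2.2 V hV s hs' X hX
      · exact absurd (hπl w h2.1) h1.2
  have hcard : (YT act π N N' T Vv).relIndex (CS N.fixingSubgroup act (cj π)) < l ^ (Module.finrank F N + S.card) := by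
    refine lt_of_le_of_lt hY.2 ?_
    by_cases hlw : (l : 𝓞 N) ∈ w.asIdeal
    · have hSe : S = T.filter P := by
        show T.filter P ∪ (if (l : 𝓞 N) ∈ w.asIdeal then ∅ else {w}) = _
        rw [if_pos hlw, Finset.union_empty]
      rw [hSe]
      rcases hw with h2 | h2
      · exact absurd hlw h2.1
      · have hbw : 0 < b w := by
          rcases (hb w).2 with h3 | h3
          · exact h3.2
          · exact absurd h2.1 h3.1
        have h3 := loc_w D hs hNN hn hd hr (hVv w) h2.1 (fun s hs' X hX => h2.2 (Vv w) (hVv w) s (mem_DN.1 hs') X hX) hbw (hb w).1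
        rw [hdl] at h3
        have h4 := num_bound' T P (fun v => (CL (DN N (Vv v)) (DN N' (Vv v)) act (cj π)).relIndex (CS (DN N (Vv v)) act (cj π)))
          (fun v => Ideal.absNorm v.asIdeal) b l (fun v hv => (hidx v hv).2) ((hTm w).2 hlw) h3
        have h5 := h4.trans (Nat.mul_le_mul_right _ hnorm)
        rw [← pow_add] at h5
        refine lt_of_lt_of_le ?_ h5
        have h6 : 0 < ∏ v ∈ T, (CL (DN N (Vv v)) (DN N' (Vv v)) act (cj π)).relIndex (CS (DN N (Vv v)) act (cj π)) :=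
          Finset.prod_pos fun v hv => Nat.pos_of_ne_zero (hidx v hv).1
        exact lt_mul_of_one_lt_left h6 hl.one_lt
    · have hwT : w ∉ T.filter P := fun h => hlw ((hTm w).1 (Finset.mem_filter.1 h).1)
      have hSe : S.card = (T.filter P).card + 1 := by
        show (T.filter P ∪ (if (l : 𝓞 N) ∈ w.asIdeal then ∅ else {w})).card = _
        rw [if_neg hlw, Finset.card_union_of_disjoint (Finset.disjoint_singleton_right.2 hwT), Finset.card_singleton]
      rw [hSe]
      have h4 := num_bound T P (fun v => (CL (DN N (Vv v)) (DN N' (Vv v)) act (cj π)).relIndex (CS (DN N (Vv v)) act (cj π)))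
          (fun v => Ideal.absNorm v.asIdeal) b l (fun v hv => (hidx v hv).2)
      have h5 := h4.trans (Nat.mul_le_mul_right _ hnorm)
      rw [← pow_add] at h5
      refine lt_of_le_of_lt h5 (Nat.pow_lt_pow_right hl.one_lt ?_)
      omega
  let _ := algNL hL.le
  have hTs : IsScalarTower F N L := IsScalarTower.of_algebraMap_eq fun x => Subtype.ext rfl
  have hTs' : IsScalarTower N L Ω := IsScalarTower.of_algebraMap_eq fun x => rfl
  obtain ⟨χ, x, hx, ⟨c, hcY, hcK⟩, hne⟩ := sel_x D he hL hT₀ h0 q hq hk hmv S hS (YT act π N N' T Vv) inf_le_left hY.1 hcard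
  have C : H13X.Cc act π N c := of_cc ((mem_CS _ _ _).1 hcY.1)
  refine ⟨c, C, ?_, fun V hVt => ?_⟩
  · rintro ⟨X, hX, hcX⟩
    obtain ⟨X', hX', hcX'⟩ := H13X.YG3_red D C hX hcX
    obtain ⟨z, hz⟩ := kr_cob D he hL hT₀ hcK hX' hcX'
    exact hne z hz
  · obtain ⟨W, hW⟩ := H13X.xg3_below (F := F) L hVt
    have hW' : Abw V W := hW
    obtain ⟨v, hvd⟩ : ∃ v : Pl N, W.under (𝓞 N) = v := ⟨_, rfl⟩
    have hV : Abv N V v := hW'.below hvd
    by_cases hlv : (l : 𝓞 N) ∈ v.asIdeal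
    · have h1 : c ∈ CL (DN N (Vv v)) (DN N' (Vv v)) act (cj π) := by
        have h2 := AddSubgroup.mem_iInf.1 hcY.2
        exact h2 ⟨v, (hTm v).2 hlv⟩
      exact loc_conj C hNN hn (hVv v) hV ((mem_CL _ _ _ _).1 h1).2
    · have hVl : V.valuation (l : Ω) = 1 := by
        have h1 := H13X.yg2_unit hV (l : 𝓞 N) hlv
        have h2 : (((l : 𝓞 N) : N) : Ω) = l := by
          have e1 : ((l : 𝓞 N) : N) = l := map_natCast (algebraMap (𝓞 N) N) l
          rw [e1]
          exact map_natCast (algebraMap N Ω) l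
        rwa [h2] at h1
      by_cases hvw : v = w
      · rw [hvw] at hV hlv
        rcases hw with h2 | h2
        · exact loc_tame D he hL C hNN hT₀ hgen hn hd hr hV hVt hVl (h2.2 V hV)
        · exact absurd (hπl w h2.1) hlv
      · refine loc_out D he hL C hNN hT₀ hgen hcK hVt hVl ?_
        have h1 : Mh χ x ∈ SUs L S := mh_mem χ hx
        refine ord_val hW' (mem_SUs.1 h1 W ?_)
        rw [hvd]
        intro h2
        rcases hSm v h2 with h3 | h3
        · exact hlv ((hTm v).1 h3.1)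
        · exact hvw h3.1

end H19C
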