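import Mathlib
import Pool.Agent.Lib.H19C.FU
import Pool.Agent.Lib.H13X.D
import Pool.Agent.Lib.H13X.XZ5
import Pool.Agent.Lib.H13Z.TR
import Pool.Agent.Lib.H19B.F3
import Pool.Agent.Lib.H55K.G1
import Pool.Agent.Lib.H55K.K0A
import Pool.Agent.Lib.H13X.XG3
import Pool.Agent.Lib.H55K.G4C
import Pool.Agent.Lib.H55K.G5E
import Pool.Agent.Lib.H55P.S1

/-! # H19C, chunk TR: points of order p over K give Selmer classes -/

open NumberField IsDedekindDomain WeierstrassCurve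

namespace H19C

open H55P (IQ Pt ac Dec Inert decS Nm Ram Coc)
open H35P (WAB Ker tt)
open H55K (Tor CMA Dta GV ak cj xc yc exists_abw not_ker gv_y cls_xy tor_unit ker_red cj_cj cj_prime cj_dvd cj_nat Abw)
open H55K.S
open H55R (Pl)
open H19B (DN mem_DN)
open H13S (Abv)
open H13X (Dat)
open H13Z (SelNon)

variable {F : Type} [Field F] [NumberField F] [IQ F] {A B : F} {Om : ℂ} {Ω : Type} [Field Ω] [DecidableEq Ω]
  [Algebra F Ω] [IsAlgClosure F Ω] {j : Ω →+* ℂ} {act : 𝓞 F →+* AddMonoid.End (Pt (WAB A B) Ω)} {mo : Ideal (𝓞 F)}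
  {ψ : Ideal (𝓞 F) →*₀ 𝓞 F} {π : 𝓞 F} {l : ℕ} {V : ValuationSubring Ω}

/-- Infinitely many points over N: two of them are congruent. -/
theorem tr_pig (hG : GV A B V) (hp : l.Prime) (hπ : Prime π) (hd : π ∣ (l : 𝓞 F)) (hV : V.valuation (ak Ω π) < 1)
    (N : IntermediateField F Ω) [NumberField N] {v : HeightOneSpectrum (𝓞 N)} (hv : Abv N V v) (R : ℕ → Pt (WAB A B) Ω)
    (hR : ∀ n, ∀ s ∈ DN N V, ac (WAB A B) s (R n) = R n) (hne : ∀ n, ¬ Ker V (R n)) :
    ∃ n m, n < m ∧ Ker V (R m - R n) := by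
  obtain ⟨φ, -, -, -, -, r, hr1, hr2, hr3⟩ := exists_res2 hp hπ hd hV N hv
  have hx : ∀ n, ∃ i, V.valuation (xc (R n) - r i) < 1 := fun n =>
    hr3 _ (fun s hs => by rw [← xc_ac, hR n s hs]) (not_ker V (hne n)).2
  have hy : ∀ n, ∃ i, V.valuation (yc (R n) - r i) < 1 := fun n =>
    hr3 _ (fun s hs => by rw [← yc_ac, hR n s hs]) (gv_y hG (hne n))
  choose ix hix using hx
  choose iy hiy using hy
  have hk : ∀ n m, (ix n, iy n) = (ix m, iy m) → Ker V (R m - R n) := by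
    intro n m h
    have h1 : ix n = ix m := congrArg Prod.fst h
    have h2 : iy n = iy m := congrArg Prod.snd h
    refine cls_xy hG (hne m) (hne n) ?_ ?_
    · have e : xc (R m) - xc (R n) = (xc (R m) - r (ix m)) - (xc (R n) - r (ix n)) := by
        rw [h1]
        ring
      rw [e]
      exact Valuation.map_sub_lt _ (hix m) (hix n)
    · have e : yc (R m) - yc (R n) = (yc (R m) - r (iy m)) - (yc (R n) - r (iy n)) := by
        rw [h2]
        ring
      rw [e]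
      exact Valuation.map_sub_lt _ (hiy m) (hiy n)
  obtain ⟨n, m, hnm, h⟩ := Finite.exists_ne_map_eq_of_infinite (fun n : ℕ => (ix n, iy n))
  rcases lt_or_gt_of_ne hnm with h1 | h1
  · exact ⟨n, m, h1, hk n m h⟩
  · exact ⟨m, n, h1, hk m n h.symm⟩

/-- Some point over K is not l times a point over K. -/
theorem tr_div (D : Dat A B Om j act mo ψ π l) (hs : ¬ π ∣ cj π) (K : IntermediateField F Ω) [NumberField K]
    {R : Pt (WAB A B) Ω} (hR : act (cj π) R = 0) (h0 : R ≠ 0) (hf : ∀ s ∈ K.fixingSubgroup, ac (WAB A B) s R = R) :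
    ∃ Q : Pt (WAB A B) Ω, (∀ s ∈ K.fixingSubgroup, ac (WAB A B) s Q = Q) ∧
      ∀ S : Pt (WAB A B) Ω, (∀ s ∈ K.fixingSubgroup, ac (WAB A B) s S = S) → l • S ≠ Q := by
  have hA := D.cma
  have hπ := D.pr
  obtain ⟨hNm, hcj⟩ := H19B.f3_split D.hl D.dta.unr hπ D.dvd hs
  -- V above π
  let v₀ : HeightOneSpectrum (𝓞 F) := ⟨Ideal.span {π}, (Ideal.span_singleton_prime hπ.ne_zero).2 hπ, by
    rw [Ne, Ideal.span_singleton_eq_bot]
    exact hπ.ne_zero⟩
  obtain ⟨V, hV₀⟩ := exists_abw Ω v₀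
  have hVπ : V.valuation (ak Ω π) < 1 := by
    have h1 : v₀.valuation F (π : F) < 1 := by
      have h2 := (v₀.valuation_lt_one_iff_mem (K := F) π).2 (Ideal.mem_span_singleton_self π)
      exact h2
    exact (hV₀.lt _).2 h1
  have hVl : V.valuation (l : Ω) < 1 := by
    have h1 : vo V (l : 𝓞 F) = vo V π * vo V (cj π) := by rw [← hcj, vo_mul]
    rw [← vo_nat (F := F), h1]
    exact lt_of_le_of_lt (mul_le_of_le_one_right' (vo_le V _)) hVπ
  have hG : GV A B V := D.dta.good V hVl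
  have hVc : vo V (cj π) = 1 := by
    exact vo_unit ((hπ.irreducible.coprime_iff_not_dvd).2 hs) hVπ
  have hVt : V ≠ ⊤ := by
    rintro rfl
    have h1 : (⊤ : ValuationSubring Ω).valuation (ak Ω π) = 1 := by
      refine le_antisymm (H55K.S.vo_le _ _) (not_lt.1 fun h => ?_)
      have h2 : (⊤ : ValuationSubring Ω).valuation (ak Ω π)⁻¹ ≤ 1 := ((⊤ : ValuationSubring Ω).valuation_le_one_iff _).2 trivial
      rw [map_inv₀] at h2
      have h3 : (⊤ : ValuationSubring Ω).valuation (ak Ω π) ≠ 0 := vo_ne _ hπ.ne_zero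
      exact absurd ((inv_le_one₀ (zero_lt_iff.2 h3)).1 h2) (not_le.2 h)
    rw [h1] at hVπ
    exact lt_irrefl _ hVπ
  obtain ⟨v, hv⟩ := H13X.xg3_below (F := F) K hVt
  by_contra hcon
  push Not at hcon
  have step : ∀ q : {Q : Pt (WAB A B) Ω // ∀ s ∈ K.fixingSubgroup, ac (WAB A B) s Q = Q},
      ∃ s : {Q : Pt (WAB A B) Ω // ∀ s ∈ K.fixingSubgroup, ac (WAB A B) s Q = Q}, l • s.1 = q.1 := by
    rintro ⟨Q, hQ⟩
    obtain ⟨S, hS, h1⟩ := hcon Q hQ
    exact ⟨⟨S, hS⟩, h1⟩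
  choose f hfl using step
  let Rn : ℕ → {Q : Pt (WAB A B) Ω // ∀ s ∈ K.fixingSubgroup, ac (WAB A B) s Q = Q} := fun n => f^[n] ⟨R, hf⟩
  have hsucc : ∀ n, Rn (n + 1) = f (Rn n) := fun n => Function.iterate_succ_apply' f n _
  have h1 : ∀ n, l ^ n • (Rn n).1 = R := by
    intro n
    induction n with
    | zero =>
      rw [pow_zero, one_smul]
      rfl
    | succ n ih => rw [pow_succ, mul_smul, hsucc, hfl, ih]
  have hmul : ∀ (a b : 𝓞 F) (X : Pt (WAB A B) Ω), act (a * b) X = act a (act b X) := fun a b X => act_mul a b X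
  have hnat : ∀ (k : ℕ) (X : Pt (WAB A B) Ω), act (k : 𝓞 F) X = k • X := fun k X => act_nat k X
  have hlR : l • R = 0 := by
    rw [← hnat, ← hcj, hmul, hR, map_zero]
  have h3 : ∀ n, act ((cj π) ^ (n + 1)) (act (π ^ (n + 1)) (Rn n).1) = 0 := by
    intro n
    have e : (cj π) ^ (n + 1) * π ^ (n + 1) = ((l ^ (n + 1) : ℕ) : 𝓞 F) := by
      rw [← mul_pow, mul_comm, hcj]
      push_cast
      rfl
    rw [← hmul, e, hnat, pow_succ', mul_smul, h1, hlR]
  have hRK : ¬ Ker V R := fun h => h0 (tor_unit hA hG hVc hR h)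
  have h4 : ∀ k, ¬ Ker V (act (π ^ k) R) := by
    intro k
    induction k with
    | zero =>
      rw [pow_zero, act_one]
      exact hRK
    | succ k ih =>
      rw [pow_succ', hmul]
      exact fun h => ih (ker_red hA hG hπ hVπ h)
  have h5 : ∀ n, l ^ n • act (π ^ (n + 1)) (Rn n).1 = act (π ^ (n + 1)) R := by
    intro n
    rw [← map_nsmul, h1]
  have hVp : ∀ n, V.valuation (ak Ω ((cj π) ^ n)) = 1 := by
    intro n
    have e := vo_pow V (cj π) n
    rw [hVc, one_pow] at e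
    exact e
  have hk0 : ¬ ¬ Ker V (0 : Pt (WAB A B) Ω) := fun h => h trivial
  have h6 : ∀ n, ¬ Ker V (act (π ^ (n + 1)) (Rn n).1) := by
    intro n h
    have h7 := tor_unit hA hG (hVp (n + 1)) (T := act (π ^ (n + 1)) (Rn n).1) (h3 n) h
    have h8 := h5 n
    rw [h7, smul_zero] at h8
    exact h4 (n + 1) (by rw [← h8]; trivial)
  obtain ⟨n, m, hnm, hK⟩ := tr_pig hG D.hl hπ D.dvd hVπ K hv (fun n => act (π ^ (n + 1)) (Rn n).1)
    (fun n s hs => by
      show ac (WAB A B) s (act (π ^ (n + 1)) (Rn n).1) = act (π ^ (n + 1)) (Rn n).1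
      rw [ac_act hA, (Rn n).2 s (mem_DN.1 hs).1]) h6
  have h7 : act (π ^ (m + 1)) (Rn m).1 - act (π ^ (n + 1)) (Rn n).1 = 0 := by
    refine tor_unit hA hG (hVp (m + 1)) (T := act (π ^ (m + 1)) (Rn m).1 - act (π ^ (n + 1)) (Rn n).1) ?_ hK
    show act ((cj π) ^ (m + 1)) (act (π ^ (m + 1)) (Rn m).1 - act (π ^ (n + 1)) (Rn n).1) = 0
    have e : (cj π) ^ (m + 1) = (cj π) ^ (m - n) * (cj π) ^ (n + 1) := by
      rw [← pow_add]
      congr 1
      omega
    rw [map_sub, h3 m, e, hmul, h3 n, map_zero, sub_zero]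
  have h8 : l ^ m • act (π ^ (m + 1)) (Rn m).1 = 0 := by
    rw [sub_eq_zero.1 h7]
    have e : l ^ m = l ^ (m - n - 1) * (l * l ^ n) := by
      rw [← pow_succ', ← pow_add]
      congr 1
      omega
    rw [e, mul_smul, mul_smul, h5, ← map_nsmul, hlR, map_zero, smul_zero]
  have h9 := h5 m
  rw [h8] at h9
  exact h4 (m + 1) (by rw [← h9]; trivial)

/-- POINTS OF ORDER l GIVE SELMER CLASSES. -/
theorem tr_sel (D : Dat A B Om j act mo ψ π l) (hs : ¬ π ∣ cj π) (K : IntermediateField F Ω) [NumberField K]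
    {R : Pt (WAB A B) Ω} (hR : l • R = 0) (h0 : R ≠ 0) (hf : ∀ s ∈ K.fixingSubgroup, ac (WAB A B) s R = R) :
    SelNon (WAB A B) l K := by
  have hA := D.cma
  have halg : Algebra.IsAlgebraic F Ω := IsAlgClosure.isAlgebraic
  obtain ⟨hNm, hcj⟩ := H19B.f3_split D.hl D.dta.unr D.pr D.dvd hs
  have hs' : ¬ cj π ∣ cj (cj π) := by
    intro h
    apply hs
    rw [← cj_dvd] at h
    rw [cj_cj] at h
    exact h
  obtain ⟨Q, hQ, hQl⟩ : ∃ Q : Pt (WAB A B) Ω, (∀ s ∈ K.fixingSubgroup, ac (WAB A B) s Q = Q) ∧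
      ∀ S : Pt (WAB A B) Ω, (∀ s ∈ K.fixingSubgroup, ac (WAB A B) s S = S) → l • S ≠ Q := by
    by_cases h : act (cj π) R = 0
    · exact tr_div D hs K h h0 hf
    · refine tr_div D.conj hs' K (R := act (cj π) R) ?_ h fun s hs => ?_
      · rw [cj_cj, ← act_mul, hcj, act_nat, hR]
      · rw [ac_act hA, hf s hs]
  obtain ⟨S, hS⟩ := hA.surj (l : 𝓞 F) (by exact_mod_cast D.hl.ne_zero) Q
  rw [act_nat] at hS
  refine ⟨fun s => ac (WAB A B) s S - S, ⟨fun s _ t _ => ?_, ?_⟩, fun s hsK => ?_, fun V _ => ⟨S, fun s _ _ => rfl⟩, ?_⟩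
  · show ac (WAB A B) (s * t) S - S = (ac (WAB A B) s S - S) + ac (WAB A B) s (ac (WAB A B) t S - S)
    rw [map_sub, ac_mul]
    abel
  · obtain ⟨L, hL, hLS⟩ := H55P.pt_open (WAB A B) S
    refine ⟨L, hL, fun s _ hs' => ?_⟩
    show ac (WAB A B) s S - S = 0
    rw [hLS s hs', sub_self]
  · show l • (ac (WAB A B) s S - S) = 0
    rw [smul_sub, ← map_nsmul, hS, hQ s hsK, sub_self]
  · rintro ⟨T, hT, h⟩
    refine hQl (S - T) (fun s hsK => ?_) ?_
    · have h1 : ac (WAB A B) s S - S = ac (WAB A B) s T - T := h s hsK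
      rw [map_sub]
      rw [sub_eq_sub_iff_sub_eq_sub] at h1
      exact h1
    · rw [smul_sub, hS, hT, sub_zero]

end H19C
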