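import Mathlib
import Pool.Agent.Lib.H19C.GT3
import Pool.Agent.Lib.H19C.TR
import Pool.Agent.Lib.H13R.G4

/-! # H19C, chunk CH: one step of degree l, and the chain, arbitrary ramification -/

open NumberField IsDedekindDomain WeierstrassCurve

namespace H19C

open H55P (IQ embF eF LF Per IsHecke Pt ac Inert Dec Nm Coc PExt UnrP Ram RamF)
open H35P (WAB Ker tt)
open H55K (Tor ak xc yc CMA Dta GV cj cj_cj mul_cj cj_prime cj_dvd cj_nat)
open H55K (Abw exists_abw)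
open H55K.S
open H55R (Pl)
open H13S (Abv)
open H13Z (SelNon)
open H13X (Dat DecN lcb_l trans_V)

section step

variable {F : Type} [Field F] [NumberField F] [IQ F] {A B : F} {Om : ℂ} {Ω : Type} [Field Ω] [DecidableEq Ω]
  [Algebra F Ω] [IsAlgClosure F Ω] {j : Ω →+* ℂ} {act : 𝓞 F →+* AddMonoid.End (Pt (WAB A B) Ω)} {mo : Ideal (𝓞 F)}
  {ψ : Ideal (𝓞 F) →*₀ 𝓞 F} {π : 𝓞 F} {l : ℕ}

/-- The condition at the ramified prime. -/
def WC (act : 𝓞 F →+* AddMonoid.End (Pt (WAB A B) Ω)) (π : 𝓞 F) (l : ℕ) (N : IntermediateField F Ω) [NumberField N]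
    (w : HeightOneSpectrum (𝓞 N)) (V : ValuationSubring Ω) : Prop :=
  ((l : 𝓞 N) ∉ w.asIdeal ∧ ∀ s, DecN N V s → ∀ T ∈ Tor act π, ac (WAB A B) s T = T) ∨
    (algebraMap (𝓞 F) (𝓞 N) π ∈ w.asIdeal ∧ ∀ s, DecN N V s → ∀ T ∈ Tor act (cj π), ac (WAB A B) s T = T)

/-- One step. -/
theorem sel_stepC (D : Dat A B Om j act mo ψ π l) (hs : ¬ π ∣ cj π) {N N' : IntermediateField F Ω} [NumberField N]
    [NumberField N'] (hNN : N ≤ N')
    (hn : ∀ s ∈ N.fixingSubgroup, ∀ x ∈ N', s x ∈ N')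
    (hd : Module.finrank F N' = Module.finrank F N * l) {w : HeightOneSpectrum (𝓞 N)} (hr : Ram N N' w.asIdeal)
    (hw : ∀ V : ValuationSubring Ω, Abv N V w → WC act π l N w V) : SelNon (WAB A B) l N' := by
  by_cases ht : ∃ R : Pt (WAB A B) Ω, l • R = 0 ∧ R ≠ 0 ∧ ∀ s ∈ N'.fixingSubgroup, ac (WAB A B) s R = R
  · obtain ⟨R, h1, h2, h3⟩ := ht
    exact tr_sel D hs N' h1 h2 h3
  have ht' : ∀ R : Pt (WAB A B) Ω, l • R = 0 → (∀ s ∈ N'.fixingSubgroup, ac (WAB A B) s R = R) → R = 0 := by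
    intro R h1 h2
    by_contra h3
    exact ht ⟨R, h1, h3, h2⟩
  have hmono : ∀ s ∈ N'.fixingSubgroup, s ∈ N.fixingSubgroup := fun s hs =>
    IntermediateField.fixingSubgroup_antitone hNN hs
  have hmv : ∃ s ∈ N.fixingSubgroup, ∃ T ∈ Tor act π, ac (WAB A B) s T ≠ T := by
    by_contra hcon
    push Not at hcon
    obtain ⟨T₀, hT₀, h0⟩ := H55K.exists_tor D.cma D.pr
    refine h0 (ht' T₀ ?_ fun s hs' => hcon s (hmono s hs') T₀ hT₀)
    obtain ⟨x, hx⟩ := D.dvd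
    rw [← act_nat (act := act), hx, mul_comm, act_mul, mem_Tor.1 hT₀, map_zero]
  have hw' : ((l : 𝓞 N) ∉ w.asIdeal ∧ ∀ V : ValuationSubring Ω, Abv N V w → ∀ s, DecN N V s → ∀ T ∈ Tor act π, ac (WAB A B) s T = T) ∨
      (algebraMap (𝓞 F) (𝓞 N) π ∈ w.asIdeal ∧
        ∀ V : ValuationSubring Ω, Abv N V w → ∀ s, DecN N V s → ∀ T ∈ Tor act (cj π), ac (WAB A B) s T = T) := by
    by_cases hl : (l : 𝓞 N) ∈ w.asIdeal
    · refine Or.inr ⟨?_, fun V hV => ?_⟩
      · obtain ⟨V, hV⟩ := exists_abw Ω w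
        rcases hw V hV with h | h
        · exact absurd hl h.1
        · exact h.1
      · rcases hw V hV with h | h
        · exact absurd hl h.1
        · exact h.2
    · refine Or.inl ⟨hl, fun V hV => ?_⟩
      rcases hw V hV with h | h
      · exact h.2
      · exfalso
        apply hl
        obtain ⟨x, hx⟩ := D.dvd
        have h1 := congrArg (algebraMap (𝓞 F) (𝓞 N)) hx
        rw [map_natCast, map_mul] at h1
        rw [h1]
        exact w.asIdeal.mul_mem_right _ h.1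
  obtain ⟨c, C, hcob, hloc⟩ := glob D hs hNN hn hd hr hw' hmv
  refine ⟨c, ⟨fun s hs t ht => C.mul s (hmono s hs) t (hmono t ht), ?_⟩, fun s hs =>
    lcb_l D (C.val s (hmono s hs)), fun V hV => hloc V hV, ?_⟩
  · obtain ⟨M, hM, h2⟩ := C.cont
    exact ⟨M, hM, fun s hs hsM => h2 s (hmono s hs) hsM⟩
  · rintro ⟨T, hT, h⟩
    refine hcob ⟨T, hT, ?_⟩
    exact H13Y.cob_down (WAB A B) l hNN hn ht' C.mul (fun s hs => lcb_l D (C.val s hs)) hT h

end step

section chain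

variable {F : Type} [Field F] [NumberField F] [IQ F] {A B : F} {Om : ℂ} [DecidableEq (AlgebraicClosure F)]
  {j : AlgebraicClosure F →+* ℂ} {act : 𝓞 F →+* AddMonoid.End (Pt (WAB A B) (AlgebraicClosure F))} {mo : Ideal (𝓞 F)}
  {ψ : Ideal (𝓞 F) →*₀ 𝓞 F} {π : 𝓞 F} {l : ℕ}

/-- The condition at v gives the condition at the primes w above v. -/
theorem wc_up (D : Dat A B Om j act mo ψ π l) {M N : IntermediateField F (AlgebraicClosure F)} [NumberField M] [NumberField N]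
    (hMN : M ≤ N) {v : HeightOneSpectrum (𝓞 M)} {w : HeightOneSpectrum (𝓞 N)}
    (hw : ∀ (x : 𝓞 M) (y : 𝓞 N), ((y : N) : AlgebraicClosure F) = ((x : M) : AlgebraicClosure F) → (x ∈ v.asIdeal ↔ y ∈ w.asIdeal))
    {V₀ V : ValuationSubring (AlgebraicClosure F)} (hV₀ : Abv M V₀ v) (h : WC act π l M v V₀) (hV : Abv N V w) :
    WC act π l N w V := by
  have hVv : Abv M V v := H13R.abv_downR hMN hw hV
  obtain ⟨σ, hσM, hσ⟩ := trans_V M hV₀ hVv
  have key : ∀ ρ : 𝓞 F, (∀ s, DecN M V₀ s → ∀ T ∈ Tor act ρ, ac (WAB A B) s T = T) →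
      ∀ s, DecN N V s → ∀ T ∈ Tor act ρ, ac (WAB A B) s T = T := by
    intro ρ hfx s hs T hT
    have hD : DecN M V₀ (σ⁻¹ * s * σ) := by
      refine ⟨mul_mem (mul_mem (inv_mem hσM) (IntermediateField.fixingSubgroup_antitone hMN hs.1)) hσM, fun x => ?_⟩
      have h1 := hσ (σ⁻¹ (s (σ x)))
      have h2 : σ (σ⁻¹ (s (σ x))) = s (σ x) := σ.apply_symm_apply _
      rw [h2] at h1
      exact h1.symm.trans ((hs.2 (σ x)).trans (hσ x))
    have h3 := hfx _ hD (ac (WAB A B) σ⁻¹ T) (ac_mem D.cma σ⁻¹ hT)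
    rw [← ac_mul, show σ⁻¹ * s * σ * σ⁻¹ = σ⁻¹ * s by group, ac_mul] at h3
    have h4 := congrArg (ac (WAB A B) σ) h3
    have h5 : ∀ P, ac (WAB A B) σ (ac (WAB A B) σ⁻¹ P) = P := fun P => by
      rw [← ac_mul, mul_inv_cancel, ac_one]
    rwa [h5, h5] at h4
  rcases h with h | h
  · refine Or.inl ⟨fun h1 => h.1 ((hw (l : 𝓞 M) (l : 𝓞 N) (by simp)).2 h1), key π h.2⟩
  · refine Or.inr ⟨(hw _ _ ?_).1 h.1, key (cj π) h.2⟩
    rfl

/-- THE CHAIN. -/
theorem x_coreC (D : Dat A B Om j act mo ψ π l) (hs : ¬ π ∣ cj π) {M L₀ : IntermediateField F (AlgebraicClosure F)}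
    [NumberField M] (hL : PExt l M L₀)
    (K : IntermediateField F (AlgebraicClosure F)) [NumberField K] (hMK : M ≤ K) (hKL : K ≤ L₀)
    {v : HeightOneSpectrum (𝓞 M)}
    (hr : Ram M K v.asIdeal) {V₀ : ValuationSubring (AlgebraicClosure F)} (hV₀ : Abv M V₀ v)
    (hw₀ : WC act π l M v V₀) : SelNon (WAB A B) l K := by
  have hL₀f : FiniteDimensional F L₀ := hL.fin
  obtain ⟨n, hn⟩ : ∃ n, Module.finrank F K = n := ⟨_, rfl⟩
  induction n using Nat.strong_induction_on generalizing K with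
  | _ n ih =>
    have hKf : FiniteDimensional F K := H55P.finDim_of_le hKL
    have hne : K ≠ M := by
      rintro rfl
      exact H55P.ram_self _ v hr
    obtain ⟨N, hMN, hNK, hd, hnorm⟩ := H55P.chain_step l D.hl M K L₀ hL hMK hKL hne
    have hNf : FiniteDimensional F N := H55P.finDim_of_le hNK
    have hNn : NumberField N := NumberField.of_module_finite F N
    have hlt : Module.finrank F N < n := by
      have h0 : 0 < Module.finrank F N := Module.finrank_pos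
      have h2 := D.hl.two_le
      rw [← hn, hd]
      nlinarith
    by_cases ht : ∃ R : Pt (WAB A B) (AlgebraicClosure F), l • R = 0 ∧ R ≠ 0 ∧ ∀ s ∈ K.fixingSubgroup, ac (WAB A B) s R = R
    · obtain ⟨R, h1, h2, h3⟩ := ht
      exact tr_sel D hs K h1 h2 h3
    have ht' : ∀ R : Pt (WAB A B) (AlgebraicClosure F), l • R = 0 → (∀ s ∈ K.fixingSubgroup, ac (WAB A B) s R = R) → R = 0 := by
      intro R h1 h2
      by_contra h3
      exact ht ⟨R, h1, h3, h2⟩
    by_cases hrN : Ram M N v.asIdeal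
    · exact H13Y.non_up (WAB A B) l hNK hnorm ht' (ih _ hlt N hMN (hNK.trans hKL) hrN rfl)
    · obtain ⟨w, hw, hram⟩ := H13R.ram_upR hMN hNK v hr hrN
      exact sel_stepC D hs hNK hnorm hd hram fun V hV => wc_up D hMN hw hV₀ hw₀ hV

end chain

end H19C
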