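import Mathlib
import Pool.Agent.Lib.H13R.R6
import Pool.Agent.Lib.H19B.L3
import Pool.Agent.Lib.H19B.L8
import Pool.Agent.Lib.H55K.G9A
import Pool.Agent.Lib.H55K.G5E
import Pool.Agent.Lib.H55K.G1

/-! # H19C, chunk LK: the anomalous primes above p -/

open NumberField IsDedekindDomain WeierstrassCurve

namespace H19C

open H55P (IQ Pt ac Dec Inert decS Nm Ram)
open H35P (WAB Ker tt GoodW)
open H55K (Tor CMA Dta GV ak cj xc yc not_ker gv_y cls_xy tor_unit ker_red g9_surj kerG ker_ac)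
open H55K.S
open H19B (short_iso2)
open H13S (Abv)
open H13X (Dat DecN exists_frobK dec_gen lp_fin lp_adj)

variable {F : Type} [Field F] [NumberField F] [IQ F] {A B : F} {Om : ℂ} {Ω : Type} [Field Ω] [DecidableEq Ω]
  [Algebra F Ω] [IsAlgClosure F Ω] {j : Ω →+* ℂ} {act : 𝓞 F →+* AddMonoid.End (Pt (WAB A B) Ω)} {mo : Ideal (𝓞 F)}
  {ψ : Ideal (𝓞 F) →*₀ 𝓞 F} {π : 𝓞 F} {l : ℕ} {V : ValuationSubring Ω}

/-- Congruent to its conjugates under the inertia group. -/
theorem lk_inert (hG : GV A B V) {s : Ω ≃ₐ[F] Ω} (hs : Inert V s) {T : Pt (WAB A B) Ω} (hT : ¬ Ker V T) :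
    Ker V (ac (WAB A B) s T - T) := by
  have hD := H55P.inert_dec V s hs
  refine cls_xy hG (fun h => hT ((ker_ac s hD).1 h)) hT ?_ ?_
  · rw [xc_ac]
    exact hs _ ((V.valuation_le_one_iff _).1 (not_ker V hT).2)
  · rw [yc_ac]
    exact hs _ ((V.valuation_le_one_iff _).1 (gv_y hG hT))

/-- p divides the number of points modulo v, v above π: the decomposition group fixes the points killed by the conjugate of π. -/
theorem lk_decP (D : Dat A B Om j act mo ψ π l) (hs : ¬ π ∣ cj π) (W₀ : WeierstrassCurve (𝓞 F)) (hell : W₀.Δ ≠ 0)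
    (hA' : A = -(algebraMap (𝓞 F) F W₀.c₄) / 48) (hB' : B = -(algebraMap (𝓞 F) F W₀.c₆) / 864)
    (M : IntermediateField F Ω) [NumberField M] {v : HeightOneSpectrum (𝓞 M)}
    (hΔ : algebraMap (𝓞 F) (𝓞 M) W₀.Δ ∉ v.asIdeal) (hV : Abv M V v) (hVπ : V.valuation (ak Ω π) < 1)
    (hpts : l ∣ Nat.card (W₀⁄(𝓞 M ⧸ v.asIdeal)).toAffine.Point) :
    ∀ s, DecN M V s → ∀ R ∈ Tor act (cj π), ac (WAB A B) s R = R := by
  have hA := D.cma
  have hcl0 : IsAlgClosed Ω := IsAlgClosure.isAlgClosed F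
  have hal0 : Algebra.IsAlgebraic F Ω := IsAlgClosure.isAlgebraic
  have hc0' : CharZero Ω := charZero_of_injective_algebraMap (algebraMap F Ω).injective
  obtain ⟨hNm, hcj⟩ := H19B.f3_split D.hl D.dta.unr D.pr D.dvd hs
  have hVl : V.valuation (l : Ω) < 1 := by
    have h1 : vo V (l : 𝓞 F) = vo V π * vo V (cj π) := by rw [← hcj, vo_mul]
    rw [← vo_nat (F := F), h1]
    exact lt_of_le_of_lt (mul_le_of_le_one_right' (vo_le V _)) hVπ
  have hGV : GV A B V := D.dta.good V hVl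
  have hVc : vo V (cj π) = 1 := vo_unit ((D.pr.irreducible.coprime_iff_not_dvd).2 hs) hVπ
  have hbel : H55P.Below V M v.asIdeal := fun x => by
    rw [← v.valuation_lt_one_iff_mem (K := M) x]
    exact (hV.lt (x : M)).symm
  have hG : GoodW ((W₀⁄F)⁄Ω) V := H55P.good_below W₀ M V v hbel hΔ
  obtain ⟨Θ, hΘ, hΘK⟩ := short_iso2 (Ω := Ω) W₀ hA' hB' hell V hGV.two hGV.three
  obtain ⟨φ, hφ, hφD, hφF⟩ := exists_frobK M hV
  obtain ⟨X', hc0, hlX, hX⟩ := H13R.lk_XM W₀ M hΔ hV hG D.hl hpts hφ hφF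
  obtain ⟨X, hXX⟩ : ∃ X, Θ X' = X := ⟨_, rfl⟩
  have hX0 : ¬ Ker V X := by
    rw [← hXX, hΘK]
    exact hc0
  have hX1 : Ker V (l • X) := by
    rw [← hXX, ← map_nsmul, hΘK]
    exact hlX
  have hX2 : Ker V (ac (WAB A B) φ X - X) := by
    rw [← hXX, ← hΘ, ← map_sub, hΘK]
    exact hX
  have hX3 : Ker V (act (cj π) X) := by
    refine ker_red hA hGV D.pr hVπ ?_
    rw [← act_mul, hcj, act_nat]
    exact hX1
  obtain ⟨T, hT, hXT⟩ := g9_surj hA hGV hVc hX3
  have hsub : ∀ P Q : Pt (WAB A B) Ω, Ker V P → Ker V Q → Ker V (P - Q) := fun P Q hP hQ => (kerG hGV).sub_mem hP hQ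
  have hadd : ∀ P Q : Pt (WAB A B) Ω, Ker V P → Ker V Q → Ker V (P + Q) := fun P Q hP hQ => (kerG hGV).add_mem hP hQ
  have hTK : ¬ Ker V T := by
    intro h
    have h1 := hadd _ _ hXT h
    rw [sub_add_cancel] at h1
    exact hX0 h1
  have hT0 : T ≠ 0 := by
    rintro rfl
    exact hTK trivial
  have hz : ∀ s : Ω ≃ₐ[F] Ω, Ker V (ac (WAB A B) s T - T) → ac (WAB A B) s T - T = 0 := fun s h =>
    tor_unit hA hGV hVc (T := ac (WAB A B) s T - T) (sub_mem (ac_mem hA s hT) hT) h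
  have hφT : ac (WAB A B) φ T - T = 0 := by
    apply hz
    have e : ac (WAB A B) φ T - T = (ac (WAB A B) φ X - X) - (ac (WAB A B) φ (X - T) - (X - T)) := by
      rw [map_sub]
      abel
    rw [e]
    exact hsub _ _ hX2 (hsub _ _ ((ker_ac φ hφD).2 hXT) hXT)
  have hfin := lp_fin T
  have hfix : ∀ s, DecN M V s → ac (WAB A B) s T = T := by
    intro s hs
    have h0 := dec_gen (A := A) (B := B) (d := fun s => ac (WAB A B) s T - T) hV (fun s _ _ t _ _ => by
        show ac (WAB A B) (s * t) T - T = (ac (WAB A B) s T - T) + ac (WAB A B) s (ac (WAB A B) t T - T)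
        rw [ac_mul, map_sub]
        abel)
      ⟨IntermediateField.adjoin F {xc T, yc T}, hfin, fun s _ hs _ => by
        show ac (WAB A B) s T - T = 0
        rw [lp_adj s T hs, sub_self]⟩
      (fun s _ hi => by
        show ac (WAB A B) s T - T = 0
        exact hz s (lk_inert hGV hi hTK))
      hφ hφD hφF (by show ac (WAB A B) φ T - T = 0; exact hφT) hs.1 hs.2
    exact sub_eq_zero.1 h0
  intro s hs' R hR
  obtain ⟨a, rfl⟩ := H55K.tor_gen hA (H55K.cj_prime D.pr) hT hR hT0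
  rw [ac_act hA, hfix s hs']

end H19C
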