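import Mathlib
import Pool.Agent.Lib.H19C.CH
import Pool.Agent.Lib.H19C.LK
import Pool.Agent.Lib.H13R.D
import Pool.Agent.Lib.H13R.G6

/-! # H19C: nonzero Selmer classes in towers with arbitrary ramification above a split prime p -/

open NumberField IsDedekindDomain WeierstrassCurve

namespace H19C

open H55P (IQ embF eF LF Per IsHecke Pt ac Inert Dec Nm Coc PExt UnrP Ram RamF)
open H35P (WAB Ker tt)
open H55K (Tor ak xc yc CMA Dta GV GMod cj cj_cj mul_cj cj_prime cj_dvd cj_nat exists_abw)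
open H55K.S
open H13S (Abv)
open H13Z (SelNon)
open H55K.TQ (BaseH PrimeH)
open H13X (Dat DecN xf_short)
open H13R (NoRel lk_decR lk_piR)
open H19B (Spl)

variable {F : Type} [Field F] [NumberField F] [IQ F] {W₀ : WeierstrassCurve (𝓞 F)} {Om : ℂ}
    {m : Ideal (𝓞 F)} {ψ : Ideal (𝓞 F) →*₀ 𝓞 F} {p : ℕ}

theorem spl_any (hp : p.Prime) (unr : ∀ v : HeightOneSpectrum (𝓞 F), (p : 𝓞 F) ∉ v.asIdeal ^ 2) (hsp : Spl F p) {π : 𝓞 F}
    (hπ : Prime π) (hd : π ∣ (p : 𝓞 F)) : ¬ π ∣ cj π := by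
  obtain ⟨π₀, hπ₀, hd₀, hs₀⟩ := hsp
  obtain ⟨-, hcj⟩ := H19B.f3_split hp unr hπ₀ hd₀ hs₀
  intro h
  rw [← hcj] at hd
  rcases hπ.dvd_or_dvd hd with h1 | h1
  · have h2 : Associated π π₀ := hπ.associated_of_dvd hπ₀ h1
    apply hs₀
    have h3 : cj π ∣ cj π₀ := cj_dvd.2 (by rw [cj_cj]; exact h2.dvd)
    exact h2.symm.dvd.trans (h.trans h3)
  · have h2 : Associated π (cj π₀) := hπ.associated_of_dvd (cj_prime hπ₀) h1
    have h3 : cj π ∣ π₀ := cj_dvd.2 h2.dvd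
    have h5 : cj π₀ ∣ π₀ := h2.symm.dvd.trans (h.trans h3)
    exact hs₀ ((cj_prime hπ₀).associated_of_dvd hπ₀ h5).symm.dvd

open Classical in
/-- THE CONVERSE, p split, arbitrary ramification. If some prime v of M not dividing the discriminant, at which the number of points is
divisible by p, is ramified in K then the classical p-Selmer group over K is not zero. -/
theorem nonselB (hH : BaseH F W₀ Om m ψ) (hp : PrimeH F W₀ p) (hsp : Spl F p) {M L K : IntermediateField F (AlgebraicClosure F)}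
    [NumberField M] [NumberField K] (hL : PExt p M L) (hMK : M ≤ K) (hKL : K ≤ L)
    (hN : ¬ NoRel p W₀ M K) : SelNon (W₀⁄F) p K := by
  obtain ⟨v, hr, hΔ, hpts⟩ : ∃ v : HeightOneSpectrum (𝓞 M), Ram M K v.asIdeal ∧
      algebraMap (𝓞 F) (𝓞 M) W₀.Δ ∉ v.asIdeal ∧
      p ∣ Nat.card (W₀⁄(𝓞 M ⧸ v.asIdeal)).toAffine.Point := by
    unfold NoRel at hN
    push Not at hN
    exact hN
  have hB := H55K.TQ.base_of hH hp
  obtain ⟨j, hj⟩ := H55K.exists_j F (AlgebraicClosure F)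
  obtain ⟨A, hA⟩ : ∃ A : F, A = -(algebraMap (𝓞 F) F W₀.c₄) / 48 := ⟨_, rfl⟩
  obtain ⟨B, hB'⟩ : ∃ B : F, B = -(algebraMap (𝓞 F) F W₀.c₆) / 864 := ⟨_, rfl⟩
  have hd := H55K.y3_ne W₀ hA hB' hB.data.ell
  have hper : Per F (embF F A) (embF F B) Om := by
    have e1 : embF F A = -(eF F W₀.c₄) / 48 := by
      rw [hA, map_div₀, map_neg, map_ofNat]
      rfl
    have e2 : embF F B = -(eF F W₀.c₆) / 864 := by
      rw [hB', map_div₀, map_neg, map_ofNat]
      rfl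
    rw [e1, e2]
    exact hB.data.per
  obtain ⟨act, hact⟩ := H55K.exists_CMA F A B Om j hd hper hj
  have hG : ∀ V : ValuationSubring (AlgebraicClosure F),
      ∃ (Kg : AddSubgroup (Pt (WAB A B) (AlgebraicClosure F))) (u : AlgebraicClosure F),
        GMod (WAB A B) V Kg u := fun V => H55K.exists_gmod hd (H55K.y3_j W₀ hA hB' hB.jint) V
  have hD : Dta A B Om j act m ψ p := H55K.mk_Dta hB hA hB' hact hG
  obtain ⟨V, hV⟩ : ∃ V : ValuationSubring (AlgebraicClosure F), Abv M V v := exists_abw (AlgebraicClosure F) v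
  by_cases hpv : (p : 𝓞 M) ∈ v.asIdeal
  · have hVp : V.valuation (p : AlgebraicClosure F) < 1 := by
      have h1 := (hV.lt ((p : 𝓞 M) : M)).2 ((v.valuation_lt_one_iff_mem (K := M) (p : 𝓞 M)).2 hpv)
      have e1 : ((((p : ℕ) : 𝓞 M) : M) : AlgebraicClosure F) = (p : AlgebraicClosure F) := by simp
      rwa [e1] at h1
    obtain ⟨π₀, hπ₀, hd₀, hs₀⟩ := hsp
    obtain ⟨-, hprod⟩ := H19B.f3_split hD.prime hD.unr hπ₀ hd₀ hs₀
    obtain ⟨π, hπ, hd', hVπ⟩ : ∃ π : 𝓞 F, Prime π ∧ π ∣ (p : 𝓞 F) ∧ V.valuation (ak (AlgebraicClosure F) π) < 1 := by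
      by_cases h1 : V.valuation (ak (AlgebraicClosure F) π₀) < 1
      · exact ⟨π₀, hπ₀, hd₀, h1⟩
      · refine ⟨cj π₀, cj_prime hπ₀, ?_, ?_⟩
        · rw [← hprod]
          exact dvd_mul_left _ _
        · by_contra h2
          have h3 : vo V π₀ = 1 := le_antisymm (vo_le V _) (not_lt.1 h1)
          have h4 : vo V (cj π₀) = 1 := le_antisymm (vo_le V _) (not_lt.1 h2)
          have h5 : vo V (p : 𝓞 F) = 1 := by rw [← hprod, vo_mul, h3, h4, mul_one]
          rw [vo_nat] at h5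
          rw [h5] at hVp
          exact lt_irrefl _ hVp
    have hs := spl_any hD.prime hD.unr ⟨π₀, hπ₀, hd₀, hs₀⟩ hπ hd'
    have D : Dat A B Om j act m ψ π p := ⟨hD, hπ, hd'⟩
    have hW : WC act π p M v V := Or.inr ⟨(abv_mem hV π).1 hVπ,
      lk_decP D hs W₀ hB.data.ell hA hB' M hΔ hV hVπ hpts⟩
    exact xf_short W₀ hA hB' hB.data.ell p K (x_coreC D hs hL K hMK hKL hr hV hW)
  · obtain ⟨T, hT0, hT, hf⟩ := lk_decR hact W₀ hB.data.ell hA hB' M hΔ hV hp.prime hp.five hpv hpts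
    obtain ⟨π, hπ, hd', hfx⟩ := lk_piR hact hp.prime hB.unr M hT0 hT hf
    have hs := spl_any hD.prime hD.unr hsp hπ hd'
    have D : Dat A B Om j act m ψ π p := ⟨hD, hπ, hd'⟩
    exact xf_short W₀ hA hB' hB.data.ell p K (x_coreC D hs hL K hMK hKL hr hV (Or.inl ⟨hpv, hfx⟩))

end H19C
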